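import Mathlib

/-!
Koszul complexes over a commutative ring: a chain is a function from the finite sets of variables.
The operators `Lop`, `Mop` are (the coefficients of) products of the one-forms `e_{y_w} + s e_{x_w}`.
-/

set_option autoImplicit false
set_option linter.unusedSectionVars false

namespace Pool.Agent.TH47.BE

open Finset

section Kos

variable {σ : Type*} [Fintype σ] [LinearOrder σ] {R : Type*} [CommRing R]

/-- the sign `(-1)^#{l ∈ T | l < v}` -/
def sg (R : Type*) [CommRing R] (v : σ) (T : Finset σ) : R := (-1 : R) ^ (T.filter (· < v)).card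

/-- Koszul differential of the family `X` -/
def kd (X : σ → R) (f : Finset σ → R) (T : Finset σ) : R :=
  ∑ v ∈ Tᶜ, sg R v T * (X v * f (insert v T))

/-- left multiplication by the basis one-form `e_v` -/
def we (v : σ) (f : Finset σ → R) (T : Finset σ) : R :=
  if v ∈ T then sg R v (T.erase v) * f (T.erase v) else 0

lemma sg_mul_self (v : σ) (T : Finset σ) : sg R v T * sg R v T = 1 := by
  unfold sg
  rw [← mul_pow]; simp

lemma sg_insert {j i : σ} {T : Finset σ} (hi : i ∉ T) :
    sg R j (insert i T) = sg R j T * (if i < j then -1 else 1) := by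
  unfold sg
  rw [Finset.filter_insert]
  split_ifs with h
  · rw [Finset.card_insert_of_notMem (by simp [hi]), pow_succ]
  · simp

lemma sg_swap {i j : σ} {T : Finset σ} (hij : i ≠ j) (hi : i ∉ T) (hj : j ∉ T) :
    sg R j T * sg R i (insert j T) + sg R i T * sg R j (insert i T) = 0 := by
  rw [sg_insert hj, sg_insert hi]
  rcases lt_or_gt_of_ne hij with h | h
  · rw [if_neg (not_lt.mpr h.le), if_pos h]; ring
  · rw [if_pos h, if_neg (not_lt.mpr h.le)]; ring

lemma sg_swap' {i j : σ} {T : Finset σ} (hij : i ≠ j) (hi : i ∉ T) (hj : j ∉ T) :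
    sg R i T * sg R j T + sg R j (insert i T) * sg R i (insert j T) = 0 := by
  rw [sg_insert hj, sg_insert hi]
  rcases lt_or_gt_of_ne hij with h | h
  · rw [if_neg (not_lt.mpr h.le), if_pos h]; ring
  · rw [if_pos h, if_neg (not_lt.mpr h.le)]; ring

lemma map_sg {R' : Type*} [CommRing R'] (π : R →+* R') (v : σ) (T : Finset σ) :
    π (sg R v T) = sg R' v T := by
  unfold sg; simp

lemma kd_add (X : σ → R) (f g : Finset σ → R) : kd X (f + g) = kd X f + kd X g := by
  funext T
  simp only [kd, Pi.add_apply]
  rw [← Finset.sum_add_distrib]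
  exact Finset.sum_congr rfl fun v _ => by ring

lemma kd_sub (X : σ → R) (f g : Finset σ → R) : kd X (f - g) = kd X f - kd X g := by
  funext T
  simp only [kd, Pi.sub_apply]
  rw [← Finset.sum_sub_distrib]
  exact Finset.sum_congr rfl fun v _ => by ring

lemma kd_smul (X : σ → R) (r : R) (f : Finset σ → R) : kd X (r • f) = r • kd X f := by
  funext T
  simp only [kd, Pi.smul_apply, smul_eq_mul]
  rw [Finset.mul_sum]
  exact Finset.sum_congr rfl fun v _ => by ring

lemma kd_zero (X : σ → R) : kd X (0 : Finset σ → R) = 0 := by
  funext T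
  simp [kd]

lemma we_add (v : σ) (f g : Finset σ → R) : we v (f + g) = we v f + we v g := by
  funext T
  simp only [we, Pi.add_apply]
  split_ifs <;> ring

lemma we_sub (v : σ) (f g : Finset σ → R) : we v (f - g) = we v f - we v g := by
  funext T
  simp only [we, Pi.sub_apply]
  split_ifs <;> ring

lemma we_smul (v : σ) (r : R) (f : Finset σ → R) : we v (r • f) = r • we v f := by
  funext T
  simp only [we, Pi.smul_apply, smul_eq_mul]
  split_ifs <;> ring

lemma we_zero (v : σ) : we v (0 : Finset σ → R) = 0 := by
  funext T
  simp [we]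

lemma kd_kd (X : σ → R) (f : Finset σ → R) : kd X (kd X f) = 0 := by
  funext T
  show ∑ j ∈ Tᶜ, sg R j T * (X j * kd X f (insert j T)) = 0
  unfold kd
  simp_rw [Finset.mul_sum]
  rw [Finset.sum_sigma']
  refine Finset.sum_involution (fun x _ => ⟨x.2, x.1⟩) ?_ ?_ ?_ ?_
  · rintro ⟨j, i⟩ h
    simp only [Finset.mem_sigma, Finset.mem_compl, Finset.mem_insert, not_or] at h
    obtain ⟨hj, hij, hi⟩ := h
    have := sg_swap (R := R) hij hi hj
    simp only
    rw [Finset.insert_comm j i T]
    have e : sg R j T * (X j * (sg R i (insert j T) * (X i * f (insert i (insert j T))))) +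
        sg R i T * (X i * (sg R j (insert i T) * (X j * f (insert i (insert j T))))) =
        (sg R j T * sg R i (insert j T) + sg R i T * sg R j (insert i T)) *
          (X i * X j * f (insert i (insert j T))) := by ring
    rw [e, this, zero_mul]
  · rintro ⟨j, i⟩ h _ heq
    simp only [Finset.mem_sigma, Finset.mem_compl, Finset.mem_insert, not_or] at h
    have : i = j := by
      have := congrArg Sigma.fst heq
      simpa using this
    exact h.2.1 this
  · rintro ⟨j, i⟩ h
    simp only [Finset.mem_sigma, Finset.mem_compl, Finset.mem_insert, not_or] at h ⊢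
    exact ⟨h.2.2, fun hh => h.2.1 hh.symm, h.1⟩
  · rintro ⟨j, i⟩ h
    rfl

/-- `d (e_v ∧ f) = x_v f - e_v ∧ d f` -/
lemma kd_we (X : σ → R) (v : σ) (f : Finset σ → R) :
    kd X (we v f) = X v • f - we v (kd X f) := by
  funext T
  simp only [Pi.sub_apply, Pi.smul_apply, smul_eq_mul]
  rw [eq_sub_iff_add_eq]
  by_cases hv' : v ∈ T
  · have e1 : we v (kd X f) T = sg R v (T.erase v) * kd X f (T.erase v) := by
      unfold we; rw [if_pos hv']
    have e2 : kd X f (T.erase v) = sg R v (T.erase v) * (X v * f T) +
        ∑ j ∈ Tᶜ, sg R j (T.erase v) * (X j * f (insert j (T.erase v))) := by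
      unfold kd
      rw [show (T.erase v)ᶜ = insert v Tᶜ by rw [Finset.compl_erase]]
      rw [Finset.sum_insert (by simp [hv']), Finset.insert_erase hv']
    have e3 : kd X (we v f) T = ∑ j ∈ Tᶜ, sg R j T *
        (X j * (sg R v ((insert j T).erase v) * f ((insert j T).erase v))) := by
      unfold kd
      refine Finset.sum_congr rfl fun j hj => ?_
      unfold we
      rw [if_pos (by simp [hv'])]
    rw [e1, e2, e3, mul_add, ← mul_assoc, sg_mul_self, one_mul, Finset.mul_sum, add_comm, add_assoc,
      ← Finset.sum_add_distrib]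
    have : ∑ j ∈ Tᶜ, (sg R v (T.erase v) * (sg R j (T.erase v) * (X j * f (insert j (T.erase v)))) +
        sg R j T * (X j * (sg R v ((insert j T).erase v) * f ((insert j T).erase v)))) = 0 := by
      refine Finset.sum_eq_zero fun j hj => ?_
      have hj' : j ∉ T := by simpa using hj
      have hjv : j ≠ v := fun h => hj' (h ▸ hv')
      have e4 : (insert j T).erase v = insert j (T.erase v) :=
        Finset.erase_insert_of_ne hjv
      have hT : T = insert v (T.erase v) := (Finset.insert_erase hv').symm
      have h5 : j ∉ T.erase v := fun h => hj' (Finset.mem_of_mem_erase h)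
      have h6 : v ∉ T.erase v := Finset.notMem_erase _ _
      have e5 : sg R j T = sg R j (insert v (T.erase v)) := by rw [← hT]
      rw [e4, e5]
      have e6 : sg R v (T.erase v) * (sg R j (T.erase v) * (X j * f (insert j (T.erase v)))) +
          sg R j (insert v (T.erase v)) * (X j * (sg R v (insert j (T.erase v)) *
            f (insert j (T.erase v))))
          = (sg R v (T.erase v) * sg R j (T.erase v) +
          sg R j (insert v (T.erase v)) * sg R v (insert j (T.erase v))) *
            (X j * f (insert j (T.erase v))) := by ring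
      rw [e6, sg_swap' hjv.symm h6 h5, zero_mul]
    rw [this, add_zero]
  · have e1 : we v (kd X f) T = 0 := by unfold we; rw [if_neg hv']
    rw [e1, add_zero]
    unfold kd
    rw [Finset.sum_eq_single v]
    · unfold we
      rw [if_pos (Finset.mem_insert_self _ _), Finset.erase_insert hv']
      have : sg R v T * (X v * (sg R v T * f T)) = (sg R v T * sg R v T) * (X v * f T) := by ring
      rw [this, sg_mul_self, one_mul]
    · intro j hj hjv
      unfold we
      rw [if_neg, mul_zero, mul_zero]
      simp only [Finset.mem_insert, not_or]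
      exact ⟨fun h => hjv h.symm, hv'⟩
    · intro h; exact absurd (by simpa using hv') h

lemma map_kd {R' : Type*} [CommRing R'] (π : R →+* R') (X : σ → R) (f : Finset σ → R) :
    (fun T => π (kd X f T)) = kd (fun v => π (X v)) (fun T => π (f T)) := by
  funext T
  simp only [kd, map_sum, map_mul, map_sg]

lemma map_we {R' : Type*} [CommRing R'] (π : R →+* R') (v : σ) (f : Finset σ → R) :
    (fun T => π (we v f T)) = we v (fun T => π (f T)) := by
  funext T
  simp only [we]
  split_ifs
  · rw [map_mul, map_sg]
  · exact map_zero π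

/-! ### families -/

/-- shift of a family -/
def shift (g : ℕ → Finset σ → R) : ℕ → Finset σ → R
  | 0 => 0
  | q + 1 => g q

variable {ι : Type*} (x y : ι → σ)

/-- coefficients of the product with `e_{y_w} + s e_{x_w}` -/
def Eop (w : ι) (g : ℕ → Finset σ → R) (q : ℕ) : Finset σ → R :=
  we (y w) (g q) + we (x w) (shift g q)

/-- coefficients of the product of the `e_{y_w} + s e_{x_w}` over a list -/
def Lop : List ι → (Finset σ → R) → ℕ → Finset σ → R
  | [], f => fun q => if q = 0 then f else 0
  | w :: r, f => Eop x y w (Lop r f)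

variable (X : σ → R)

/-- coefficients of `∑ ± x_w ∏_{u ≠ w} (e_{y_u} + s e_{x_u})` -/
def Mop : List ι → (Finset σ → R) → ℕ → Finset σ → R
  | [], _ => fun _ => 0
  | w :: r, f => fun q => X (x w) • Lop x y r f q - Eop x y w (Mop r f) q

/-- coefficients of `∑ ± (y_w + s x_w) ∏_{u ≠ w} (e_{y_u} + s e_{x_u})` -/
def Nop : List ι → (Finset σ → R) → ℕ → Finset σ → R
  | [], _ => fun _ => 0
  | w :: r, f => fun q => X (y w) • Lop x y r f q + X (x w) • shift (Lop x y r f) q -
      Eop x y w (Nop r f) q

lemma kd_shift (g : ℕ → Finset σ → R) (q : ℕ) :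
    kd X (shift g q) = shift (fun q => kd X (g q)) q := by
  cases q with
  | zero => exact kd_zero X
  | succ q => rfl

lemma smul_shift (r : R) (g : ℕ → Finset σ → R) (q : ℕ) :
    r • shift g q = shift (fun q => r • g q) q := by
  cases q with
  | zero => exact smul_zero r
  | succ q => rfl

lemma kd_Eop (w : ι) (g : ℕ → Finset σ → R) (q : ℕ) :
    kd X (Eop x y w g q) = X (y w) • g q + X (x w) • shift g q -
      Eop x y w (fun q => kd X (g q)) q := by
  unfold Eop
  rw [kd_add, kd_we, kd_we, kd_shift]
  abel

lemma kd_Lop {f : Finset σ → R} (hf : kd X f = 0) (ws : List ι) (q : ℕ) :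
    kd X (Lop x y ws f q) = Nop x y X ws f q := by
  induction ws generalizing q with
  | nil =>
    simp only [Lop, Nop]
    split_ifs
    · exact hf
    · exact kd_zero X
  | cons w r ih =>
    simp only [Lop, Nop]
    rw [kd_Eop]
    congr 2
    funext q
    exact ih q

lemma Eop_smul (w : ι) (r : R) (g : ℕ → Finset σ → R) (q : ℕ) :
    Eop x y w (fun q => r • g q) q = r • Eop x y w g q := by
  unfold Eop
  rw [← smul_shift, we_smul, we_smul, smul_add]

lemma Eop_add (w : ι) (g h : ℕ → Finset σ → R) (q : ℕ) :
    Eop x y w (fun q => g q + h q) q = Eop x y w g q + Eop x y w h q := by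
  unfold Eop
  have : shift (fun q => g q + h q) q = shift g q + shift h q := by
    cases q with
    | zero => exact (add_zero (0 : Finset σ → R)).symm
    | succ q => rfl
  rw [this, we_add, we_add]
  abel

lemma shift_Eop (w : ι) (g : ℕ → Finset σ → R) (q : ℕ) :
    shift (Eop x y w g) q = Eop x y w (shift g) q := by
  cases q with
  | zero =>
    show (0 : Finset σ → R) = we (y w) 0 + we (x w) 0
    rw [we_zero, we_zero, add_zero]
  | succ q => rfl

lemma rel_ops (w : ι) (ws : List ι) (h : ∀ u ∈ ws, X (x w) * X (y u) = X (x u) * X (y w))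
    (f : Finset σ → R) (q : ℕ) :
    X (x w) • Nop x y X ws f q = X (y w) • Mop x y X ws f q + X (x w) • shift (Mop x y X ws f) q := by
  induction ws generalizing q with
  | nil =>
    simp only [Nop, Mop]
    have : shift (fun _ => (0 : Finset σ → R)) q = 0 := by cases q <;> rfl
    rw [this]
    simp
  | cons u r ih =>
    have hu := h u (by simp)
    have ih' := ih (fun u hu => h u (by simp [hu]))
    have e1 : shift (Mop x y X (u :: r) f) q =
        X (x u) • shift (Lop x y r f) q - Eop x y u (shift (Mop x y X r f)) q := by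
      rw [smul_shift, ← shift_Eop]
      cases q with
      | zero => exact (sub_zero (0 : Finset σ → R)).symm
      | succ q => rfl
    rw [e1]
    simp only [Nop, Mop]
    have e2 : X (x w) • Eop x y u (Nop x y X r f) q =
        X (y w) • Eop x y u (Mop x y X r f) q + X (x w) • Eop x y u (shift (Mop x y X r f)) q := by
      rw [← Eop_smul, ← Eop_smul, ← Eop_smul, ← Eop_add]
      congr 1
      funext q
      exact ih' q
    rw [smul_sub, e2, smul_add, smul_sub, smul_sub, smul_smul, smul_smul, smul_smul,
      hu, mul_comm (X (y w)) (X (x u))]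
    abel

/-- cycles are mapped to cycles -/
lemma kd_Mop (ws : List ι) (h : ws.Pairwise fun w u => X (x w) * X (y u) = X (x u) * X (y w))
    {f : Finset σ → R} (hf : kd X f = 0) (q : ℕ) : kd X (Mop x y X ws f q) = 0 := by
  induction ws generalizing q with
  | nil => exact kd_zero X
  | cons w r ih =>
    rw [List.pairwise_cons] at h
    simp only [Mop]
    rw [kd_sub, kd_smul, kd_Lop x y X hf, kd_Eop, rel_ops x y X w r h.1]
    have : (fun q => kd X (Mop x y X r f q)) = fun _ => 0 := by
      funext q
      exact ih h.2 q
    rw [this]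
    have e : Eop x y w (fun _ => (0 : Finset σ → R)) q = 0 := by
      unfold Eop
      have : shift (fun _ => (0 : Finset σ → R)) q = 0 := by cases q <;> rfl
      rw [this, we_zero, we_zero, add_zero]
    rw [e]
    abel

lemma map_Eop {R' : Type*} [CommRing R'] (π : R →+* R') (w : ι) (g : ℕ → Finset σ → R) (q : ℕ) :
    (fun T => π (Eop x y w g q T)) = Eop x y w (fun q T => π (g q T)) q := by
  unfold Eop
  have hs : (fun T => π (shift g q T)) = shift (fun q T => π (g q T)) q := by
    cases q with
    | zero => funext T; exact map_zero π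
    | succ q => rfl
  rw [← map_we, ← hs, ← map_we]
  funext T
  simp only [Pi.add_apply, map_add]

lemma map_Lop {R' : Type*} [CommRing R'] (π : R →+* R') (ws : List ι) (f : Finset σ → R) (q : ℕ) :
    (fun T => π (Lop x y ws f q T)) = Lop x y ws (fun T => π (f T)) q := by
  induction ws generalizing q with
  | nil =>
    funext T
    simp only [Lop]
    split_ifs
    · rfl
    · exact map_zero π
  | cons w r ih =>
    simp only [Lop]
    rw [map_Eop]
    congr 1
    funext q
    exact ih q

lemma map_Mop {R' : Type*} [CommRing R'] (π : R →+* R') (ws : List ι) (f : Finset σ → R) (q : ℕ) :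
    (fun T => π (Mop x y X ws f q T)) = Mop x y (fun v => π (X v)) ws (fun T => π (f T)) q := by
  induction ws generalizing q with
  | nil =>
    funext T
    simp [Mop]
  | cons w r ih =>
    simp only [Mop]
    have e : (fun q => Mop x y (fun v => π (X v)) r (fun T => π (f T)) q) =
        fun q T => π (Mop x y X r f q T) := by
      funext q
      exact (ih q).symm
    have e' : Mop x y (fun v => π (X v)) r (fun T => π (f T)) =
        fun q T => π (Mop x y X r f q T) := e
    rw [e', ← map_Eop, ← map_Lop]
    funext T
    simp only [Pi.sub_apply, Pi.smul_apply, smul_eq_mul, map_sub, map_mul]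

end Kos

end Pool.Agent.TH47.BE
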