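import Mathlib

/-!
Binomial edge ideals of graphs with a closed labelling: standard monomials and the initial ideal.
-/

set_option autoImplicit false
set_option linter.unusedSectionVars false

namespace Pool.Agent.TH47.BE

open Finset MvPolynomial

variable {n : ℕ}

/-- the variable `x_i` -/
def xv (i : Fin n) : Fin n ⊕ₗ Fin n := toLex (Sum.inl i)

/-- the variable `y_i` -/
def yv (i : Fin n) : Fin n ⊕ₗ Fin n := toLex (Sum.inr i)

lemma xv_inj {i j : Fin n} : xv i = xv j ↔ i = j := by
  unfold xv
  rw [toLex_inj]
  exact Sum.inl_injective.eq_iff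

lemma yv_inj {i j : Fin n} : yv i = yv j ↔ i = j := by
  unfold yv
  rw [toLex_inj]
  exact Sum.inr_injective.eq_iff

lemma xv_ne_yv (i j : Fin n) : xv i ≠ yv j := by
  unfold xv yv
  rw [Ne, toLex_inj]
  exact Sum.inl_ne_inr

lemma var_cases (v : Fin n ⊕ₗ Fin n) : (∃ i, v = xv i) ∨ ∃ i, v = yv i := by
  rcases h : ofLex v with i | i
  · left; exact ⟨i, by rw [xv, ← h]; rfl⟩
  · right; exact ⟨i, by rw [yv, ← h]; rfl⟩

lemma xv_lt_yv (i j : Fin n) : xv i < yv j := Sum.Lex.inl_lt_inr i j

lemma xv_lt {i j : Fin n} : xv i < xv j ↔ i < j := by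
  unfold xv
  rw [Sum.Lex.toLex_lt_toLex]
  exact Sum.lex_inl_inl

lemma yv_lt {i j : Fin n} : yv i < yv j ↔ i < j := by
  unfold yv
  rw [Sum.Lex.toLex_lt_toLex]
  exact Sum.lex_inr_inr

/-- the labelling of `G` is closed -/
structure IsClosedLabelling (G : SimpleGraph (Fin n)) : Prop where
  up : ∀ i j k : Fin n, i < j → i < k → j ≠ k → G.Adj i j → G.Adj i k → G.Adj j k
  down : ∀ i j k : Fin n, i < k → j < k → i ≠ j → G.Adj i k → G.Adj j k → G.Adj i j

/-- the graph induced on the support of `c` -/
def hg (G : SimpleGraph (Fin n)) (c : Fin n → ℕ) : SimpleGraph (Fin n) where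
  Adj i j := G.Adj i j ∧ c i ≠ 0 ∧ c j ≠ 0
  symm := ⟨fun _ _ h => ⟨h.1.symm, h.2.2, h.2.1⟩⟩
  loopless := ⟨fun i h => G.loopless.irrefl i h.1⟩

/-- increasing steps -/
def Up (G : SimpleGraph (Fin n)) (c : Fin n → ℕ) (u v : Fin n) : Prop := u < v ∧ (hg G c).Adj u v

lemma step_up {G : SimpleGraph (Fin n)} (hG : IsClosedLabelling G) (c : Fin n → ℕ) {i j : Fin n}
    (h : Relation.TransGen (Up G c) i j) : ∀ k, (hg G c).Adj j k →
      i = k ∨ Relation.TransGen (Up G c) i k ∨ Relation.TransGen (Up G c) k i := by
  induction h with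
  | single h1 =>
    rename_i j
    intro k hk
    by_cases hik : i = k
    · exact Or.inl hik
    rcases lt_trichotomy j k with hjk | hjk | hjk
    · exact Or.inr (Or.inl ((Relation.TransGen.single h1).tail ⟨hjk, hk⟩))
    · exact absurd hjk hk.ne
    · have h2 : G.Adj i k := hG.down i k j h1.1 hjk hik h1.2.1 hk.1.symm
      have h3 : (hg G c).Adj i k := ⟨h2, h1.2.2.1, hk.2.2⟩
      rcases lt_or_gt_of_ne hik with h4 | h4
      · exact Or.inr (Or.inl (Relation.TransGen.single ⟨h4, h3⟩))
      · exact Or.inr (Or.inr (Relation.TransGen.single ⟨h4, h3.symm⟩))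
  | tail h1 h2 ih =>
    rename_i v j
    intro k hk
    rcases lt_trichotomy j k with hjk | hjk | hjk
    · exact Or.inr (Or.inl ((h1.tail h2).tail ⟨hjk, hk⟩))
    · exact absurd hjk hk.ne
    · by_cases hvk : v = k
      · subst hvk
        exact Or.inr (Or.inl h1)
      · have h3 : G.Adj v k := hG.down v k j h2.1 hjk hvk h2.2.1 hk.1.symm
        exact ih k ⟨h3, h2.2.2.1, hk.2.2⟩

lemma step_down {G : SimpleGraph (Fin n)} (hG : IsClosedLabelling G) (c : Fin n → ℕ) {i j : Fin n}
    (h : Relation.TransGen (Up G c) j i) : ∀ k, (hg G c).Adj j k →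
      i = k ∨ Relation.TransGen (Up G c) i k ∨ Relation.TransGen (Up G c) k i := by
  induction h using Relation.TransGen.head_induction_on with
  | single h1 =>
    rename_i j
    intro k hk
    by_cases hik : i = k
    · exact Or.inl hik
    rcases lt_trichotomy j k with hjk | hjk | hjk
    · have h2 : G.Adj i k := hG.up j i k h1.1 hjk hik h1.2.1 hk.1
      have h3 : (hg G c).Adj i k := ⟨h2, h1.2.2.2, hk.2.2⟩
      rcases lt_or_gt_of_ne hik with h4 | h4
      · exact Or.inr (Or.inl (Relation.TransGen.single ⟨h4, h3⟩))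
      · exact Or.inr (Or.inr (Relation.TransGen.single ⟨h4, h3.symm⟩))
    · exact absurd hjk hk.ne
    · exact Or.inr (Or.inr ((Relation.TransGen.single h1).head ⟨hjk, hk.symm⟩))
  | head h1 h2 ih =>
    rename_i j v
    intro k hk
    rcases lt_trichotomy j k with hjk | hjk | hjk
    · by_cases hvk : v = k
      · subst hvk
        exact Or.inr (Or.inr h2)
      · have h3 : G.Adj v k := hG.up j v k h1.1 hjk hvk h1.2.1 hk.1
        exact ih k ⟨h3, h1.2.2.2, hk.2.2⟩
    · exact absurd hjk hk.ne
    · exact Or.inr (Or.inr ((Relation.TransGen.head h1 h2).head ⟨hjk, hk.symm⟩))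

lemma mono_path {G : SimpleGraph (Fin n)} (hG : IsClosedLabelling G) (c : Fin n → ℕ) {i j : Fin n}
    (h : (hg G c).Reachable i j) :
      i = j ∨ Relation.TransGen (Up G c) i j ∨ Relation.TransGen (Up G c) j i := by
  rw [SimpleGraph.reachable_iff_reflTransGen] at h
  induction h with
  | refl => exact Or.inl rfl
  | tail h1 h2 ih =>
    rename_i j k
    rcases ih with rfl | h3 | h3
    · rcases lt_or_gt_of_ne h2.ne with h4 | h4
      · exact Or.inr (Or.inl (Relation.TransGen.single ⟨h4, h2⟩))
      · exact Or.inr (Or.inr (Relation.TransGen.single ⟨h4, h2.symm⟩))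
    · exact step_up hG c h3 k h2
    · exact step_down hG c h3 k h2

lemma up_lt {G : SimpleGraph (Fin n)} {c : Fin n → ℕ} {i j : Fin n}
    (h : Relation.TransGen (Up G c) i j) : i < j := by
  induction h with
  | single h => exact h.1
  | tail _ h ih => exact ih.trans h.1

/-- coarse degree -/
def cdeg (u : (Fin n ⊕ₗ Fin n) →₀ ℕ) (i : Fin n) : ℕ := u (xv i) + u (yv i)

/-- nonstandard exponents -/
def NS (G : SimpleGraph (Fin n)) (u : (Fin n ⊕ₗ Fin n) →₀ ℕ) : Prop :=
  ∃ i j : Fin n, i < j ∧ G.Adj i j ∧ u (xv i) ≠ 0 ∧ u (yv j) ≠ 0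

/-- weight -/
def wt (u : (Fin n ⊕ₗ Fin n) →₀ ℕ) : ℕ := ∑ i : Fin n, i.val * u (yv i)

/-- exponents in the same class modulo the binomials -/
def Eqv (G : SimpleGraph (Fin n)) (u u' : (Fin n ⊕ₗ Fin n) →₀ ℕ) : Prop :=
  (∀ i, cdeg u i = cdeg u' i) ∧
    open Classical in
    ∀ C : (hg G (cdeg u)).ConnectedComponent,
      ∑ i ∈ univ.filter (fun i => (hg G (cdeg u)).connectedComponentMk i = C), u (yv i) =
      ∑ i ∈ univ.filter (fun i => (hg G (cdeg u)).connectedComponentMk i = C), u' (yv i)

lemma std_path {G : SimpleGraph (Fin n)} {u : (Fin n ⊕ₗ Fin n) →₀ ℕ} (hu : ¬ NS G u) {i j : Fin n}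
    (h : Relation.TransGen (Up G (cdeg u)) i j) (hi : u (xv i) ≠ 0) : u (yv j) = 0 := by
  induction h with
  | single h1 =>
    rename_i j
    by_contra hj
    exact hu ⟨i, j, h1.1, h1.2.1, hi, hj⟩
  | tail h1 h2 ih =>
    rename_i v j
    by_contra hj
    have h3 : cdeg u v ≠ 0 := h2.2.2.1
    unfold cdeg at h3
    have h4 : u (xv v) ≠ 0 := by omega
    exact hu ⟨v, j, h2.1, h2.2.1, h4, hj⟩

lemma ext_of {u u' : (Fin n ⊕ₗ Fin n) →₀ ℕ} (h1 : ∀ i, cdeg u i = cdeg u' i)
    (h2 : ∀ i, u (yv i) = u' (yv i)) : u = u' := by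
  ext v
  rcases var_cases v with ⟨i, rfl⟩ | ⟨i, rfl⟩
  · have := h1 i
    unfold cdeg at this
    have := h2 i
    omega
  · exact h2 i

/-- the standard exponent is the smallest one of its class -/
lemma std_min {G : SimpleGraph (Fin n)} (hG : IsClosedLabelling G)
    {u u' : (Fin n ⊕ₗ Fin n) →₀ ℕ} (hu : ¬ NS G u) (he : Eqv G u u') (hne : u' ≠ u) :
    wt u < wt u' ∧ toLex u < toLex u' := by
  classical
  obtain ⟨hc, hs⟩ := he
  set H := hg G (cdeg u) with hH
  let b : Fin n → ℤ := fun i => u (yv i)
  let b' : Fin n → ℤ := fun i => u' (yv i)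
  have hsum : ∀ C : H.ConnectedComponent,
      ∑ i ∈ univ.filter (fun i => H.connectedComponentMk i = C), (b' i - b i) = 0 := by
    intro C
    rw [Finset.sum_sub_distrib, sub_eq_zero]
    have := hs C
    have h2 := congrArg (fun m : ℕ => (m : ℤ)) this
    simp only [Nat.cast_sum] at h2
    exact h2.symm
  -- a surplus of `u'` forces an `x` in `u`
  have hup : ∀ i, b i < b' i → u (xv i) ≠ 0 := by
    intro i hi
    have h1 := hc i
    unfold cdeg at h1
    have h2 : ((u (yv i) : ℕ) : ℤ) < ((u' (yv i) : ℕ) : ℤ) := hi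
    have h3 : u (yv i) < u' (yv i) := by exact_mod_cast h2
    omega
  have hdn : ∀ i, b' i < b i → u (yv i) ≠ 0 := by
    intro i hi
    have h2 : ((u' (yv i) : ℕ) : ℤ) < ((u (yv i) : ℕ) : ℤ) := hi
    have h3 : u' (yv i) < u (yv i) := by exact_mod_cast h2
    omega
  have hsep : ∀ i j, H.connectedComponentMk i = H.connectedComponentMk j → b i < b' i →
      b' j < b j → j < i := by
    intro i j hij hi hj
    by_contra hcon
    push Not at hcon
    have hne' : i ≠ j := by
      rintro rfl
      exact absurd hi (not_lt.mpr hj.le)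
    have hlt : i < j := lt_of_le_of_ne hcon hne'
    have hreach : H.Reachable i j := SimpleGraph.ConnectedComponent.exact hij
    rcases mono_path hG (cdeg u) hreach with h1 | h1 | h1
    · exact hne' h1
    · exact hdn j hj (std_path hu h1 (hup i hi))
    · have : j < i := up_lt h1
      exact absurd hlt (not_lt.mpr this.le)
  -- there is a position where they differ
  have hdiff : ∃ i, b i ≠ b' i := by
    by_contra hcon
    push Not at hcon
    apply hne
    refine ext_of (fun i => (hc i).symm) fun i => ?_
    have := hcon i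
    have h2 : (u (yv i) : ℤ) = u' (yv i) := this
    exact_mod_cast h2.symm
  constructor
  · -- weights
    let τ : H.ConnectedComponent → ℤ := fun C =>
      if h : ∃ i, H.connectedComponentMk i = C ∧ b i < b' i then
        ((((univ.filter (fun i => H.connectedComponentMk i = C ∧ b i < b' i)).min' (by
          obtain ⟨i, hi⟩ := h
          exact ⟨i, by simpa using hi⟩) : Fin n)) : ℕ) else 0
    have hτ : ∀ i : Fin n, (((i : ℕ) : ℤ) - τ (H.connectedComponentMk i)) * (b' i - b i) ≥ 0 ∧
        (b' i < b i → (((i : ℕ) : ℤ) - τ (H.connectedComponentMk i)) * (b' i - b i) > 0) := by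
      intro i
      by_cases h : ∃ k, H.connectedComponentMk k = H.connectedComponentMk i ∧ b k < b' k
      · have hτi : τ (H.connectedComponentMk i) =
            ((((univ.filter (fun k => H.connectedComponentMk k = H.connectedComponentMk i ∧
              b k < b' k)).min' (by
                obtain ⟨k, hk⟩ := h
                exact ⟨k, by simpa using hk⟩) : Fin n)) : ℕ) := by
          simp only [τ]
          rw [dif_pos h]
        set m := (univ.filter (fun k => H.connectedComponentMk k = H.connectedComponentMk i ∧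
              b k < b' k)).min' (by
                obtain ⟨k, hk⟩ := h
                exact ⟨k, by simpa using hk⟩) with hm
        have hmm := Finset.min'_mem (univ.filter (fun k =>
          H.connectedComponentMk k = H.connectedComponentMk i ∧ b k < b' k)) (by
                obtain ⟨k, hk⟩ := h
                exact ⟨k, by simpa using hk⟩)
        rw [← hm] at hmm
        simp only [Finset.mem_filter, Finset.mem_univ, true_and] at hmm
        rw [hτi]
        rcases lt_trichotomy (b i) (b' i) with h1 | h1 | h1
        · refine ⟨?_, fun h2 => absurd h1 (not_lt.mpr h2.le)⟩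
          have h2 : m ≤ i := Finset.min'_le _ _ (by simp [h1])
          have h3 : ((m : ℕ) : ℤ) ≤ ((i : ℕ) : ℤ) := by exact_mod_cast h2
          exact mul_nonneg (by linarith) (by linarith)
        · rw [h1]; simp
        · have h2 : i < m := hsep m i hmm.1 hmm.2 h1
          have h3 : ((i : ℕ) : ℤ) < ((m : ℕ) : ℤ) := by exact_mod_cast h2
          have h4 : (((i : ℕ) : ℤ) - ((m : ℕ) : ℤ)) * (b' i - b i) > 0 :=
            mul_pos_of_neg_of_neg (by linarith) (by linarith)
          exact ⟨h4.le, fun _ => h4⟩
      · -- then all differences on the component vanish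
        push Not at h
        have hz := hsum (H.connectedComponentMk i)
        have h2 : ∀ k ∈ univ.filter (fun k => H.connectedComponentMk k = H.connectedComponentMk i),
            b' k - b k ≤ 0 := by
          intro k hk
          simp only [Finset.mem_filter, Finset.mem_univ, true_and] at hk
          have := h k hk
          linarith
        have h3 := (Finset.sum_eq_zero_iff_of_nonpos h2).mp hz i (by simp)
        refine ⟨by rw [h3]; simp, fun h4 => by linarith⟩
    have key : ∑ i : Fin n, ((i : ℕ) : ℤ) * (b' i - b i) =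
        ∑ i : Fin n, (((i : ℕ) : ℤ) - τ (H.connectedComponentMk i)) * (b' i - b i) := by
      have h1 : ∑ i : Fin n, τ (H.connectedComponentMk i) * (b' i - b i) = 0 := by
        rw [← Finset.sum_fiberwise univ (fun i => H.connectedComponentMk i)
          (fun i => τ (H.connectedComponentMk i) * (b' i - b i))]
        refine Finset.sum_eq_zero fun C _ => ?_
        have h2 : ∑ i ∈ univ.filter (fun i => H.connectedComponentMk i = C),
            τ (H.connectedComponentMk i) * (b' i - b i) =
            ∑ i ∈ univ.filter (fun i => H.connectedComponentMk i = C), τ C * (b' i - b i) := by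
          refine Finset.sum_congr rfl fun i hi => ?_
          simp only [Finset.mem_filter, Finset.mem_univ, true_and] at hi
          rw [hi]
        rw [h2, ← Finset.mul_sum, hsum C, mul_zero]
      have h3 : ∑ i : Fin n, (((i : ℕ) : ℤ) - τ (H.connectedComponentMk i)) * (b' i - b i) =
          ∑ i : Fin n, ((i : ℕ) : ℤ) * (b' i - b i) -
          ∑ i : Fin n, τ (H.connectedComponentMk i) * (b' i - b i) := by
        rw [← Finset.sum_sub_distrib]
        exact Finset.sum_congr rfl fun i _ => by ring
      rw [h3, h1, sub_zero]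
    -- a strict term
    obtain ⟨i, hi⟩ := hdiff
    have hneg : ∃ j, b' j < b j := by
      by_contra hcon
      push Not at hcon
      have h2 : ∀ k ∈ univ.filter (fun k => H.connectedComponentMk k = H.connectedComponentMk i),
          0 ≤ b' k - b k := by
        intro k _
        have := hcon k
        linarith
      have h3 := (Finset.sum_eq_zero_iff_of_nonneg h2).mp (hsum _) i (by simp)
      apply hi
      linarith
    obtain ⟨j, hj⟩ := hneg
    have hpos : 0 < ∑ i : Fin n, (((i : ℕ) : ℤ) - τ (H.connectedComponentMk i)) * (b' i - b i) :=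
      Finset.sum_pos' (fun i _ => (hτ i).1) ⟨j, Finset.mem_univ _, (hτ j).2 hj⟩
    rw [← key] at hpos
    have h5 : ((wt u' : ℕ) : ℤ) - wt u = ∑ i : Fin n, ((i : ℕ) : ℤ) * (b' i - b i) := by
      unfold wt
      push_cast
      rw [← Finset.sum_sub_distrib]
      exact Finset.sum_congr rfl fun i _ => by simp only [b, b']; ring
    have h6 : ((wt u : ℕ) : ℤ) < wt u' := by linarith
    exact_mod_cast h6
  · -- lexicographic order
    have hne2 : (univ.filter (fun i => b i ≠ b' i)).Nonempty := by
      obtain ⟨i, hi⟩ := hdiff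
      exact ⟨i, by simpa using hi⟩
    set i0 := (univ.filter (fun i => b i ≠ b' i)).min' hne2 with hi0
    have hi0m := Finset.min'_mem _ hne2
    rw [← hi0] at hi0m
    simp only [Finset.mem_filter, Finset.mem_univ, true_and] at hi0m
    have hbelow : ∀ k, k < i0 → b k = b' k := by
      intro k hk
      by_contra hcon
      have := Finset.min'_le (univ.filter (fun i => b i ≠ b' i)) k (by simpa using hcon)
      rw [← hi0] at this
      exact absurd hk (not_lt.mpr this)
    have hlt : b' i0 < b i0 := by
      by_contra hcon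
      push Not at hcon
      have h1 : b i0 < b' i0 := lt_of_le_of_ne hcon hi0m
      -- the component must contain a deficit, which is smaller
      have h2 : ∃ j, H.connectedComponentMk j = H.connectedComponentMk i0 ∧ b' j < b j := by
        by_contra hcon2
        push Not at hcon2
        have h3 : ∀ k ∈ univ.filter (fun k =>
            H.connectedComponentMk k = H.connectedComponentMk i0), 0 ≤ b' k - b k := by
          intro k hk
          simp only [Finset.mem_filter, Finset.mem_univ, true_and] at hk
          have := hcon2 k hk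
          linarith
        have h4 := (Finset.sum_eq_zero_iff_of_nonneg h3).mp (hsum _) i0 (by simp)
        linarith
      obtain ⟨j, hj1, hj2⟩ := h2
      have h5 : j < i0 := hsep i0 j hj1.symm h1 hj2
      have h6 := hbelow j h5
      linarith
    rw [Finsupp.Lex.lt_iff]
    refine ⟨xv i0, ?_, ?_⟩
    · intro v hv
      rcases var_cases v with ⟨k, rfl⟩ | ⟨k, rfl⟩
      · rw [xv_lt] at hv
        have h1 := hbelow k hv
        have h2 : (u (yv k) : ℤ) = u' (yv k) := h1
        have h3 : u (yv k) = u' (yv k) := by exact_mod_cast h2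
        have h4 := hc k
        unfold cdeg at h4
        simp only [ofLex_toLex]
        omega
      · exact absurd hv (not_lt.mpr (xv_lt_yv i0 k).le)
    · have h2 : (u' (yv i0) : ℤ) < u (yv i0) := hlt
      have h3 : u' (yv i0) < u (yv i0) := by exact_mod_cast h2
      have h4 := hc i0
      unfold cdeg at h4
      simp only [ofLex_toLex]
      omega

end Pool.Agent.TH47.BE
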