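import Mathlib
import Pool.Agent.TH47.BE.Std

/-!
The binomial edge ideal of a graph with a closed labelling and its initial ideal.
-/

set_option autoImplicit false
set_option linter.unusedSectionVars false

namespace Pool.Agent.TH47.BE

open Finset MvPolynomial

variable {n : ℕ} (K : Type*) [Field K]

/-- the binomial edge ideal -/
noncomputable def JG (G : SimpleGraph (Fin n)) : Ideal (MvPolynomial (Fin n ⊕ₗ Fin n) K) :=
  Ideal.span {f | ∃ i j : Fin n, i < j ∧ G.Adj i j ∧ f = X (xv i) * X (yv j) - X (xv j) * X (yv i)}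

/-- the initial ideal with respect to the lexicographic order -/
noncomputable def inIdeal {σ : Type*} [LinearOrder σ] [WellFoundedGT σ]
    (I : Ideal (MvPolynomial σ K)) : Ideal (MvPolynomial σ K) :=
  Ideal.span {f | ∃ g ∈ I, g ≠ 0 ∧ f = monomial (MonomialOrder.lex.degree g) 1}

/-- the monomial ideal of the `x_i y_j`, `i < j` adjacent -/
noncomputable def I0 (G : SimpleGraph (Fin n)) : Ideal (MvPolynomial (Fin n ⊕ₗ Fin n) K) :=
  Ideal.span ((fun s => monomial s (1 : K)) '' {s | ∃ i j : Fin n, i < j ∧ G.Adj i j ∧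
    s = Finsupp.single (xv i) 1 + Finsupp.single (yv j) 1})

variable {K}

/-- coefficients of a sum of two units -/
lemma pair_le {i j : Fin n} {u : (Fin n ⊕ₗ Fin n) →₀ ℕ} :
    Finsupp.single (xv i) 1 + Finsupp.single (yv j) 1 ≤ u ↔ u (xv i) ≠ 0 ∧ u (yv j) ≠ 0 := by
  classical
  constructor
  · intro h
    have h1 := h (xv i)
    have h2 := h (yv j)
    simp only [Finsupp.add_apply, Finsupp.single_apply, if_true, if_neg (xv_ne_yv i j),
      if_neg (xv_ne_yv i j).symm] at h1 h2
    omega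
  · rintro ⟨h1, h2⟩ v
    simp only [Finsupp.add_apply, Finsupp.single_apply]
    by_cases hv : xv i = v
    · subst hv
      rw [if_pos rfl, if_neg (xv_ne_yv i j).symm]
      omega
    · by_cases hv2 : yv j = v
      · subst hv2
        rw [if_neg hv, if_pos rfl]
        omega
      · rw [if_neg hv, if_neg hv2]
        omega

lemma mem_I0 {G : SimpleGraph (Fin n)} {p : MvPolynomial (Fin n ⊕ₗ Fin n) K} :
    p ∈ I0 K G ↔ ∀ u, coeff u p ≠ 0 → NS G u := by
  unfold I0
  rw [mem_ideal_span_monomial_image]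
  constructor
  · intro h u hu
    obtain ⟨s, ⟨i, j, hij, hadj, rfl⟩, hs⟩ := h u (mem_support_iff.mpr hu)
    obtain ⟨h1, h2⟩ := pair_le.mp hs
    exact ⟨i, j, hij, hadj, h1, h2⟩
  · intro h u hu
    obtain ⟨i, j, hij, hadj, h1, h2⟩ := h u (mem_support_iff.mp hu)
    exact ⟨_, ⟨i, j, hij, hadj, rfl⟩, pair_le.mpr ⟨h1, h2⟩⟩

/-- swapping `x_i y_j` for `x_j y_i` -/
lemma cdeg_pair (m : (Fin n ⊕ₗ Fin n) →₀ ℕ) (i j k : Fin n) :
    cdeg (m + (Finsupp.single (xv i) 1 + Finsupp.single (yv j) 1)) k =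
      cdeg m k + ((if i = k then 1 else 0) + (if j = k then 1 else 0)) := by
  classical
  unfold cdeg
  simp only [Finsupp.add_apply, Finsupp.single_apply, xv_inj, yv_inj,
    if_neg (xv_ne_yv i k), if_neg (xv_ne_yv k j).symm]
  ring

lemma yv_pair (m : (Fin n ⊕ₗ Fin n) →₀ ℕ) (i j k : Fin n) :
    (m + (Finsupp.single (xv i) 1 + Finsupp.single (yv j) 1) : (Fin n ⊕ₗ Fin n) →₀ ℕ) (yv k) =
      m (yv k) + (if j = k then 1 else 0) := by
  classical
  simp only [Finsupp.add_apply, Finsupp.single_apply, yv_inj, if_neg (xv_ne_yv i k)]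
  ring

lemma xv_pair (m : (Fin n ⊕ₗ Fin n) →₀ ℕ) (i j k : Fin n) :
    (m + (Finsupp.single (xv i) 1 + Finsupp.single (yv j) 1) : (Fin n ⊕ₗ Fin n) →₀ ℕ) (xv k) =
      m (xv k) + (if i = k then 1 else 0) := by
  classical
  simp only [Finsupp.add_apply, Finsupp.single_apply, xv_inj, if_neg (xv_ne_yv k j).symm]
  ring

lemma eqv_pair {G : SimpleGraph (Fin n)} (u m : (Fin n ⊕ₗ Fin n) →₀ ℕ) {i j : Fin n}
    (hadj : G.Adj i j)
    (h : Eqv G u (m + (Finsupp.single (xv i) 1 + Finsupp.single (yv j) 1))) :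
    Eqv G u (m + (Finsupp.single (xv j) 1 + Finsupp.single (yv i) 1)) := by
  classical
  obtain ⟨h1, h2⟩ := h
  refine ⟨fun k => ?_, fun C => ?_⟩
  · rw [h1 k, cdeg_pair, cdeg_pair]
    ring
  · have e := h2 C
    rw [e]
    simp only [yv_pair]
    rw [Finset.sum_add_distrib, Finset.sum_add_distrib]
    congr 1
    rw [Finset.sum_ite_eq, Finset.sum_ite_eq]
    have hreach : (hg G (cdeg u)).connectedComponentMk i = (hg G (cdeg u)).connectedComponentMk j := by
      apply SimpleGraph.ConnectedComponent.sound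
      apply SimpleGraph.Adj.reachable
      refine ⟨hadj, ?_, ?_⟩
      · rw [h1 i, cdeg_pair]
        simp
      · rw [h1 j, cdeg_pair]
        simp
    simp only [Finset.mem_filter, Finset.mem_univ, true_and, hreach]

open Classical in
/-- the functional which sums the coefficients of a class -/
noncomputable def Phi (G : SimpleGraph (Fin n)) (u : (Fin n ⊕ₗ Fin n) →₀ ℕ) :
    MvPolynomial (Fin n ⊕ₗ Fin n) K →ₗ[K] K :=
  (basisMonomials (Fin n ⊕ₗ Fin n) K).constr K (fun u' => if Eqv G u u' then (1 : K) else 0)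

open Classical in
lemma Phi_monomial (G : SimpleGraph (Fin n)) (u u' : (Fin n ⊕ₗ Fin n) →₀ ℕ) (a : K) :
    Phi G u (monomial u' a) = if Eqv G u u' then a else 0 := by
  have h : (monomial u' a : MvPolynomial (Fin n ⊕ₗ Fin n) K) =
      a • basisMonomials (Fin n ⊕ₗ Fin n) K u' := by
    rw [coe_basisMonomials, smul_monomial, smul_eq_mul, mul_one]
  rw [h, map_smul]
  unfold Phi
  rw [Module.Basis.constr_basis]
  split_ifs <;> simp

open Classical in
lemma Phi_apply (G : SimpleGraph (Fin n)) (u : (Fin n ⊕ₗ Fin n) →₀ ℕ)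
    (g : MvPolynomial (Fin n ⊕ₗ Fin n) K) :
    Phi G u g = ∑ u' ∈ g.support, if Eqv G u u' then coeff u' g else 0 := by
  conv_lhs => rw [g.as_sum]
  rw [map_sum]
  exact Finset.sum_congr rfl fun u' _ => Phi_monomial G u u' _

lemma X_mul_X (v w : Fin n ⊕ₗ Fin n) : (X v * X w : MvPolynomial (Fin n ⊕ₗ Fin n) K) =
    monomial (Finsupp.single v 1 + Finsupp.single w 1) 1 := by
  rw [X, X, monomial_mul, one_mul]

lemma Phi_mul (G : SimpleGraph (Fin n)) (u : (Fin n ⊕ₗ Fin n) →₀ ℕ) {i j : Fin n}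
    (hadj : G.Adj i j) (p : MvPolynomial (Fin n ⊕ₗ Fin n) K) :
    Phi G u (p * (X (xv i) * X (yv j) - X (xv j) * X (yv i))) = 0 := by
  classical
  rw [p.as_sum, Finset.sum_mul, map_sum]
  refine Finset.sum_eq_zero fun m _ => ?_
  rw [mul_sub, map_sub, X_mul_X, X_mul_X, monomial_mul, monomial_mul, Phi_monomial, Phi_monomial,
    mul_one]
  by_cases h : Eqv G u (m + (Finsupp.single (xv i) 1 + Finsupp.single (yv j) 1))
  · rw [if_pos h, if_pos (eqv_pair u m hadj h), sub_self]
  · rw [if_neg h, if_neg, sub_self]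
    intro h'
    exact h (eqv_pair u m hadj.symm h')

lemma Phi_JG (G : SimpleGraph (Fin n)) (u : (Fin n ⊕ₗ Fin n) →₀ ℕ)
    {g : MvPolynomial (Fin n ⊕ₗ Fin n) K} (hg : g ∈ JG K G) : Phi G u g = 0 := by
  suffices h : ∀ p : MvPolynomial (Fin n ⊕ₗ Fin n) K, Phi G u (p * g) = 0 by
    simpa using h 1
  unfold JG at hg
  induction hg using Submodule.span_induction with
  | mem f hf =>
    obtain ⟨i, j, _, hadj, rfl⟩ := hf
    exact Phi_mul G u hadj
  | zero => intro p; simp
  | add a b _ _ ha hb => intro p; rw [mul_add, map_add, ha p, hb p, add_zero]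
  | smul a f _ hf => intro p; rw [smul_eq_mul, ← mul_assoc]; exact hf _

/-- a standard monomial of an element of `J_G` is not the smallest of its class in the support -/
lemma exists_eqv {G : SimpleGraph (Fin n)} {g : MvPolynomial (Fin n ⊕ₗ Fin n) K} (hg : g ∈ JG K G)
    {u : (Fin n ⊕ₗ Fin n) →₀ ℕ} (hu : coeff u g ≠ 0) :
    ∃ u', coeff u' g ≠ 0 ∧ Eqv G u u' ∧ u' ≠ u := by
  classical
  by_contra hcon
  push Not at hcon
  have h := Phi_JG G u hg
  rw [Phi_apply, Finset.sum_eq_single u] at h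
  · rw [if_pos ⟨fun _ => rfl, fun _ => rfl⟩] at h
    exact hu h
  · intro u' hu' hne
    rw [if_neg]
    intro he
    exact hne (hcon u' (mem_support_iff.mp hu') he)
  · intro h1
    rw [if_pos ⟨fun _ => rfl, fun _ => rfl⟩]
    exact notMem_support_iff.mp h1

/-- (P1) -/
lemma top_mem {G : SimpleGraph (Fin n)} (hG : IsClosedLabelling G)
    {g : MvPolynomial (Fin n ⊕ₗ Fin n) K} (hg : g ∈ JG K G)
    {u : (Fin n ⊕ₗ Fin n) →₀ ℕ} (hu : coeff u g ≠ 0)
    (hmax : ∀ u', coeff u' g ≠ 0 → wt u' ≤ wt u) : NS G u := by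
  by_contra hns
  obtain ⟨u', h1, h2, h3⟩ := exists_eqv hg hu
  have := (std_min hG hns h2 h3).1
  exact absurd (hmax u' h1) (not_le.mpr this)

lemma wt_pair (m : (Fin n ⊕ₗ Fin n) →₀ ℕ) (i j : Fin n) :
    wt (m + (Finsupp.single (xv i) 1 + Finsupp.single (yv j) 1)) = wt m + j.val := by
  unfold wt
  simp only [yv_pair, mul_add, Finset.sum_add_distrib]
  simp

lemma binom_mem {G : SimpleGraph (Fin n)} (m : (Fin n ⊕ₗ Fin n) →₀ ℕ) {i j : Fin n} (hij : i < j)
    (hadj : G.Adj i j) :
    monomial (m + (Finsupp.single (xv i) 1 + Finsupp.single (yv j) 1)) (1 : K) -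
      monomial (m + (Finsupp.single (xv j) 1 + Finsupp.single (yv i) 1)) (1 : K) ∈ JG K G := by
  have : monomial (m + (Finsupp.single (xv i) 1 + Finsupp.single (yv j) 1)) (1 : K) -
      monomial (m + (Finsupp.single (xv j) 1 + Finsupp.single (yv i) 1)) (1 : K) =
      monomial m 1 * (X (xv i) * X (yv j) - X (xv j) * X (yv i)) := by
    rw [mul_sub, X_mul_X, X_mul_X, monomial_mul, monomial_mul, mul_one]
  rw [this]
  exact Ideal.mul_mem_left _ _ (Ideal.subset_span ⟨i, j, hij, hadj, rfl⟩)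

/-- (P2) -/
lemma exists_lift {G : SimpleGraph (Fin n)} {u : (Fin n ⊕ₗ Fin n) →₀ ℕ} (hu : NS G u) :
    ∃ u' : (Fin n ⊕ₗ Fin n) →₀ ℕ, wt u' < wt u ∧ u'.degree = u.degree ∧
      monomial u (1 : K) - monomial u' (1 : K) ∈ JG K G := by
  obtain ⟨i, j, hij, hadj, h1, h2⟩ := hu
  have hle := pair_le.mpr ⟨h1, h2⟩
  obtain ⟨m, rfl⟩ := exists_add_of_le hle
  rw [add_comm]
  refine ⟨m + (Finsupp.single (xv j) 1 + Finsupp.single (yv i) 1), ?_, ?_, binom_mem m hij hadj⟩
  · rw [wt_pair, wt_pair]
    have : i.val < j.val := hij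
    omega
  · simp [map_add]

lemma inIdeal_JG {G : SimpleGraph (Fin n)} (hG : IsClosedLabelling G) :
    inIdeal K (JG K G) = I0 K G := by
  classical
  apply le_antisymm
  · unfold inIdeal
    rw [Ideal.span_le]
    rintro f ⟨g, hg, hg0, rfl⟩
    rw [SetLike.mem_coe, mem_I0]
    intro u hu
    rw [coeff_monomial] at hu
    split_ifs at hu with h
    · subst h
      by_contra hns
      have hc : coeff (MonomialOrder.lex.degree g) g ≠ 0 := by
        have := MonomialOrder.leadingCoeff_ne_zero_iff (m := MonomialOrder.lex) |>.mpr hg0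
        exact this
      obtain ⟨u', h1, h2, h3⟩ := exists_eqv hg hc
      have h4 := (std_min hG hns h2 h3).2
      have h5 := MonomialOrder.le_degree (m := MonomialOrder.lex) (mem_support_iff.mpr h1)
      rw [MonomialOrder.lex_le_iff] at h5
      exact absurd h5 (not_le.mpr h4)
    · exact absurd rfl hu
  · unfold I0
    rw [Ideal.span_le]
    rintro f ⟨s, ⟨i, j, hij, hadj, rfl⟩, rfl⟩
    apply Ideal.subset_span
    have hmem := binom_mem (K := K) 0 hij hadj
    rw [zero_add, zero_add] at hmem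
    set a := Finsupp.single (xv i) 1 + Finsupp.single (yv j) 1 with ha
    set b := Finsupp.single (xv j) 1 + Finsupp.single (yv i) 1 with hb
    have hlt : toLex b < toLex a := by
      rw [Finsupp.Lex.lt_iff]
      refine ⟨xv i, ?_, ?_⟩
      · intro v hv
        rcases var_cases v with ⟨k, rfl⟩ | ⟨k, rfl⟩
        · rw [xv_lt] at hv
          simp only [ha, hb, ofLex_toLex, Finsupp.add_apply, Finsupp.single_apply, xv_inj,
            if_neg (xv_ne_yv k j).symm, if_neg (xv_ne_yv k i).symm]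
          rw [if_neg hv.ne', if_neg (hv.trans hij).ne']
        · exact absurd hv (not_lt.mpr (xv_lt_yv i k).le)
      · simp only [ha, hb, ofLex_toLex, Finsupp.add_apply, Finsupp.single_apply, xv_inj,
          if_neg (xv_ne_yv i j).symm, if_neg (xv_ne_yv i i).symm, if_true]
        rw [if_neg hij.ne']
        norm_num
    have hne : b ≠ a := fun h => absurd hlt (by rw [h]; exact lt_irrefl _)
    have hca : coeff a (monomial a (1 : K) - monomial b (1 : K)) = 1 := by
      rw [coeff_sub, coeff_monomial, coeff_monomial, if_pos rfl, if_neg hne, sub_zero]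
    have hg0 : monomial a (1 : K) - monomial b (1 : K) ≠ 0 := by
      intro h
      rw [h, coeff_zero] at hca
      exact zero_ne_one hca
    refine ⟨_, hmem, hg0, ?_⟩
    have hdeg : MonomialOrder.lex.degree (monomial a (1 : K) - monomial b (1 : K)) = a := by
      have h1 : a ∈ (monomial a (1 : K) - monomial b (1 : K)).support := by
        rw [mem_support_iff, hca]; exact one_ne_zero
      have h2 := MonomialOrder.le_degree (m := MonomialOrder.lex) h1
      have h3 : MonomialOrder.lex.degree (monomial a (1 : K) - monomial b (1 : K)) ∈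
          (monomial a (1 : K) - monomial b (1 : K)).support :=
        MonomialOrder.degree_mem_support hg0
      rw [mem_support_iff, coeff_sub, coeff_monomial, coeff_monomial] at h3
      by_cases h4 : a = MonomialOrder.lex.degree (monomial a (1 : K) - monomial b (1 : K))
      · exact h4.symm
      · by_cases h5 : b = MonomialOrder.lex.degree (monomial a (1 : K) - monomial b (1 : K))
        · rw [← h5, MonomialOrder.lex_le_iff] at h2
          exact absurd h2 (not_le.mpr hlt)
        · rw [if_neg h4, if_neg h5, sub_zero] at h3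
          exact absurd rfl h3
    rw [hdeg]

end Pool.Agent.TH47.BE
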