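import Mathlib
import Pool.Agent.TH47.BE.Kos
import Pool.Agent.TH47.BE.Poly

/-!
Supports of Koszul chains with polynomial coefficients, and the leading part of the operators
`Lop`, `Mop`.
-/

set_option autoImplicit false
set_option linter.unusedSectionVars false

namespace Pool.Agent.TH47.BE

open Finset MvPolynomial

section General

variable {σ : Type*} [Fintype σ] [LinearOrder σ] {K : Type*} [Field K]

/-- exponent vector of the squarefree monomial of `T` -/
noncomputable def ind (T : Finset σ) : σ →₀ ℕ := ∑ v ∈ T, Finsupp.single v 1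

lemma ind_apply (T : Finset σ) (v : σ) : ind T v = if v ∈ T then 1 else 0 := by
  unfold ind
  rw [Finsupp.finsetSum_apply]
  simp only [Finsupp.single_apply]
  rw [Finset.sum_ite_eq' T v]

lemma ind_insert {v : σ} {T : Finset σ} (hv : v ∉ T) :
    ind (insert v T) = ind T + Finsupp.single v 1 := by
  unfold ind
  rw [Finset.sum_insert hv, add_comm]

lemma ind_erase {v : σ} {T : Finset σ} (hv : v ∈ T) :
    ind T = ind (T.erase v) + Finsupp.single v 1 := by
  rw [← ind_insert (Finset.notMem_erase v T), Finset.insert_erase hv]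

lemma degree_ind (T : Finset σ) : (ind T).degree = T.card := by
  unfold ind
  rw [map_sum]
  simp

lemma ind_le {T : Finset σ} {b : σ →₀ ℕ} : ind T ≤ b ↔ ∀ v ∈ T, b v ≠ 0 := by
  constructor
  · intro h v hv
    have := h v
    rw [ind_apply, if_pos hv] at this
    omega
  · intro h v
    rw [ind_apply]
    split_ifs with hv
    · have := h v hv
      omega
    · omega

/-- support condition for chains, in terms of the number of elements and the multidegree -/
def SpQ (Q : ℕ → (σ →₀ ℕ) → Prop) (f : Finset σ → MvPolynomial σ K) : Prop :=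
  ∀ T u, coeff u (f T) ≠ 0 → Q T.card (ind T + u)

variable {Q Q' : ℕ → (σ →₀ ℕ) → Prop} {f g : Finset σ → MvPolynomial σ K}

lemma SpQ.mono (h : ∀ i b, Q i b → Q' i b) (hf : SpQ Q f) : SpQ Q' f :=
  fun T u hu => h _ _ (hf T u hu)

lemma SpQ.zero : SpQ Q (0 : Finset σ → MvPolynomial σ K) := by
  intro T u hu
  simp at hu

lemma SpQ.add (hf : SpQ Q f) (hg : SpQ Q g) : SpQ Q (f + g) := by
  intro T u hu
  rw [Pi.add_apply, coeff_add] at hu
  by_cases h : coeff u (f T) = 0
  · rw [h, zero_add] at hu
    exact hg T u hu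
  · exact hf T u h

lemma SpQ.neg (hf : SpQ Q f) : SpQ Q (-f) := by
  intro T u hu
  rw [Pi.neg_apply, coeff_neg, neg_ne_zero] at hu
  exact hf T u hu

lemma SpQ.sub (hf : SpQ Q f) (hg : SpQ Q g) : SpQ Q (f - g) := by
  rw [sub_eq_add_neg]
  exact hf.add hg.neg

lemma coeff_sg_mul (v : σ) (T : Finset σ) (p : MvPolynomial σ K) (u : σ →₀ ℕ) :
    coeff u (sg (MvPolynomial σ K) v T * p) = sg K v T * coeff u p := by
  unfold sg
  have : ((-1 : MvPolynomial σ K)) ^ (T.filter (· < v)).card =
      C ((-1 : K) ^ (T.filter (· < v)).card) := by simp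
  rw [this, coeff_C_mul]

lemma SpQ.we (v : σ) (h : ∀ i b, Q i b → Q' (i + 1) (b + Finsupp.single v 1)) (hf : SpQ Q f) :
    SpQ Q' (we v f) := by
  intro T u hu
  unfold BE.we at hu
  split_ifs at hu with hv
  · rw [coeff_sg_mul] at hu
    have h1 := h _ _ (hf (T.erase v) u (right_ne_zero_of_mul hu))
    rw [Finset.card_erase_add_one hv] at h1
    rw [ind_erase hv]
    rwa [add_right_comm] at h1
  · simp at hu

lemma SpQ.X (v : σ) (h : ∀ i b, Q i b → Q' i (b + Finsupp.single v 1)) (hf : SpQ Q f) :
    SpQ Q' ((MvPolynomial.X v : MvPolynomial σ K) • f) := by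
  classical
  intro T u hu
  rw [Pi.smul_apply, smul_eq_mul, coeff_X_mul'] at hu
  split_ifs at hu with hv
  · have h1 := h _ _ (hf T _ hu)
    have h2 : u - Finsupp.single v 1 + Finsupp.single v 1 = u := by
      apply tsub_add_cancel_of_le
      rw [Finsupp.single_le_iff]
      have := Finsupp.mem_support_iff.mp hv
      omega
    rwa [add_assoc, h2] at h1
  · exact absurd rfl hu

lemma SpQ.kd (h : ∀ i b, Q (i + 1) b → Q' i b) (hf : SpQ Q f) :
    SpQ Q' (kd (fun v => (MvPolynomial.X v : MvPolynomial σ K)) f) := by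
  classical
  intro T u hu
  unfold BE.kd at hu
  rw [coeff_sum] at hu
  obtain ⟨v, hv, hv2⟩ := Finset.exists_ne_zero_of_sum_ne_zero hu
  rw [coeff_sg_mul] at hv2
  have h3 := right_ne_zero_of_mul hv2
  rw [coeff_X_mul'] at h3
  split_ifs at h3 with h4
  · have hvT : v ∉ T := by simpa using hv
    have h5 := hf (insert v T) _ h3
    rw [Finset.card_insert_of_notMem hvT, ind_insert hvT] at h5
    have h2 : Finsupp.single v 1 + (u - Finsupp.single v 1) = u := by
      apply add_tsub_cancel_of_le
      rw [Finsupp.single_le_iff]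
      have := Finsupp.mem_support_iff.mp h4
      omega
    rw [add_assoc, h2] at h5
    exact h _ _ h5
  · exact absurd rfl h3

lemma SpQ.smulK (a : K) (hf : SpQ Q f) : SpQ Q (a • f) := by
  intro T u hu
  rw [Pi.smul_apply, coeff_smul, smul_eq_mul] at hu
  exact hf T u (right_ne_zero_of_mul hu)

/-! ### multihomogeneous chains -/

/-- the chain of multidegree `b` with coefficients `lam` -/
noncomputable def mk (b : σ →₀ ℕ) (lam : Finset σ → K) (T : Finset σ) : MvPolynomial σ K :=
  monomial (b - ind T) (lam T)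

/-- support condition -/
def Supp (b : σ →₀ ℕ) (lam : Finset σ → K) : Prop := ∀ T, lam T ≠ 0 → ind T ≤ b

lemma mk_add (b : σ →₀ ℕ) (l m : Finset σ → K) : mk b (l + m) = mk b l + mk b m := by
  funext T
  simp [mk]

lemma mk_sub (b : σ →₀ ℕ) (l m : Finset σ → K) : mk b (l - m) = mk b l - mk b m := by
  funext T
  simp [mk]

lemma mk_zero (b : σ →₀ ℕ) : mk b (0 : Finset σ → K) = 0 := by
  funext T
  simp [mk]

lemma sg_C (v : σ) (T : Finset σ) : sg (MvPolynomial σ K) v T = C (sg K v T) := by
  unfold sg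
  simp

lemma mk_we (b : σ →₀ ℕ) (v : σ) (l : Finset σ → K) :
    we v (mk b l) = mk (b + Finsupp.single v 1) (we v l) := by
  funext T
  by_cases hv : v ∈ T
  · have e1 : we v (mk b l) T = sg _ v (T.erase v) * mk b l (T.erase v) := if_pos hv
    have e2 : we v l T = sg K v (T.erase v) * l (T.erase v) := if_pos hv
    rw [e1, mk, mk, e2, sg_C, C_mul_monomial]
    congr 1
    conv_rhs => rw [ind_erase hv]
    rw [add_tsub_add_eq_tsub_right]
  · have e1 : we v (mk b l) T = 0 := if_neg hv
    have e2 : we v l T = 0 := if_neg hv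
    rw [e1, mk, e2, map_zero]

lemma mk_X {b : σ →₀ ℕ} (v : σ) {l : Finset σ → K} (hl : Supp b l) :
    (MvPolynomial.X v : MvPolynomial σ K) • mk b l = mk (b + Finsupp.single v 1) l := by
  funext T
  rw [Pi.smul_apply, smul_eq_mul]
  unfold mk
  by_cases h : l T = 0
  · rw [h]; simp
  · show monomial (Finsupp.single v 1) 1 * monomial (b - ind T) (l T) = _
    rw [monomial_mul, one_mul]
    congr 1
    rw [add_comm, tsub_add_eq_add_tsub (hl T h)]

lemma mk_kd {b : σ →₀ ℕ} {l : Finset σ → K} (hl : Supp b l) :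
    kd (fun v => (MvPolynomial.X v : MvPolynomial σ K)) (mk b l) = mk b (kd (fun _ => 1) l) := by
  funext T
  unfold kd mk
  rw [map_sum]
  refine Finset.sum_congr rfl fun v hv => ?_
  have hvT : v ∉ T := by simpa using hv
  by_cases h : l (insert v T) = 0
  · rw [h]; simp
  · have h1 := hl _ h
    rw [ind_insert hvT] at h1 ⊢
    show sg (MvPolynomial σ K) v T * (monomial (Finsupp.single v 1) 1 * monomial _ (l (insert v T)))
      = _
    rw [sg_C, monomial_mul, C_mul_monomial, one_mul]
    congr 1
    rw [add_comm, ← tsub_tsub, tsub_add_cancel_of_le]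
    exact le_tsub_of_add_le_left h1

lemma Supp.we {b : σ →₀ ℕ} {v : σ} {l : Finset σ → K} (hl : Supp b l) :
    Supp (b + Finsupp.single v 1) (we v l) := by
  intro T hT
  unfold BE.we at hT
  split_ifs at hT with hv
  · have := hl _ (right_ne_zero_of_mul hT)
    rw [ind_erase hv]
    exact add_le_add_left this _
  · exact absurd rfl hT

lemma Supp.we' {b : σ →₀ ℕ} {v : σ} (hb : b v ≠ 0) {l : Finset σ → K} (hl : Supp b l) :
    Supp b (BE.we v l) := by
  intro T hT
  unfold BE.we at hT
  split_ifs at hT with hv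
  · have := hl _ (right_ne_zero_of_mul hT)
    rw [ind_le] at this ⊢
    intro w hw
    by_cases hwv : w = v
    · rw [hwv]; exact hb
    · exact this w (Finset.mem_erase.mpr ⟨hwv, hw⟩)
  · exact absurd rfl hT

lemma Supp.mono {b b' : σ →₀ ℕ} (h : b ≤ b') {l : Finset σ → K} (hl : Supp b l) : Supp b' l :=
  fun T hT => (hl T hT).trans h

lemma Supp.add {b : σ →₀ ℕ} {l m : Finset σ → K} (hl : Supp b l) (hm : Supp b m) :
    Supp b (l + m) := by
  intro T hT
  by_cases h : l T = 0
  · apply hm T
    intro h2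
    apply hT
    rw [Pi.add_apply, h, h2, add_zero]
  · exact hl T h

lemma Supp.sub {b : σ →₀ ℕ} {l m : Finset σ → K} (hl : Supp b l) (hm : Supp b m) :
    Supp b (l - m) := by
  intro T hT
  by_cases h : l T = 0
  · apply hm T
    intro h2
    apply hT
    rw [Pi.sub_apply, h, h2, sub_zero]
  · exact hl T h

lemma Supp.kd {b : σ →₀ ℕ} {l : Finset σ → K} (hl : Supp b l) :
    Supp b (BE.kd (fun _ => 1) l) := by
  intro T hT
  unfold BE.kd at hT
  obtain ⟨v, hv, hv2⟩ := Finset.exists_ne_zero_of_sum_ne_zero hT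
  have h1 : l (insert v T) ≠ 0 := fun h => hv2 (by rw [h]; simp)
  have h2 := hl _ h1
  rw [ind_le] at h2 ⊢
  exact fun w hw => h2 w (Finset.mem_insert_of_mem hw)

/-! ### leading operators -/

variable {R : Type*} [CommRing R] {ι : Type*}

/-- product of basis one-forms -/
def Wop (z : ι → σ) : List ι → (Finset σ → R) → Finset σ → R
  | [], f => f
  | w :: r, f => we (z w) (Wop z r f)

/-- `∑ ± x_w ∏_{u ≠ w} e_{x_u}` -/
def MXop (z : ι → σ) (X : σ → R) : List ι → (Finset σ → R) → Finset σ → R
  | [], _ => 0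
  | w :: r, f => X (z w) • Wop z r f - we (z w) (MXop z X r f)

/-- exponent of a list of variables -/
noncomputable def lsum (z : ι → σ) : List ι → σ →₀ ℕ
  | [] => 0
  | w :: r => lsum z r + Finsupp.single (z w) 1

lemma mk_Wop (z : ι → σ) (ws : List ι) (b : σ →₀ ℕ) (l : Finset σ → K) :
    Wop z ws (mk b l) = mk (b + lsum z ws) (Wop z ws l) := by
  induction ws with
  | nil => simp [Wop, lsum]
  | cons w r ih =>
    simp only [Wop, lsum]
    rw [ih, mk_we, add_assoc]

lemma Supp_Wop (z : ι → σ) (ws : List ι) {b : σ →₀ ℕ} {l : Finset σ → K} (hl : Supp b l) :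
    Supp (b + lsum z ws) (Wop z ws l) := by
  induction ws with
  | nil => simpa [Wop, lsum] using hl
  | cons w r ih =>
    simp only [Wop, lsum]
    rw [← add_assoc]
    exact ih.we

lemma mk_MXop (z : ι → σ) (ws : List ι) {b : σ →₀ ℕ} {l : Finset σ → K} (hl : Supp b l) :
    MXop z (fun v => (MvPolynomial.X v : MvPolynomial σ K)) ws (mk b l) =
      mk (b + lsum z ws) (MXop z (fun _ => (1 : K)) ws l) := by
  induction ws with
  | nil => simp only [MXop]; rw [mk_zero]
  | cons w r ih =>
    simp only [MXop, lsum]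
    rw [ih, mk_Wop, mk_X _ (Supp_Wop z r hl), mk_we, ← mk_sub, one_smul, add_assoc]

lemma Supp_MXop (z : ι → σ) (ws : List ι) {b : σ →₀ ℕ} {l : Finset σ → K} (hl : Supp b l) :
    Supp (b + lsum z ws) (MXop z (fun _ => (1 : K)) ws l) := by
  induction ws with
  | nil => intro T hT; exact absurd rfl hT
  | cons w r ih =>
    simp only [MXop, lsum, one_smul]
    rw [← add_assoc]
    refine Supp.sub ?_ ih.we
    exact (Supp_Wop z r hl).mono (by simp)

end General

/-! ### filtration by weight -/

section Filt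

variable {n : ℕ} {K : Type*} [Field K]

/-- all terms have weight less than `w` -/
def Flt (w : ℤ) (f : Finset (Fin n ⊕ₗ Fin n) → MvPolynomial (Fin n ⊕ₗ Fin n) K) : Prop :=
  SpQ (fun _ b => ((wt b : ℕ) : ℤ) < w) f

lemma wt_add (b c : (Fin n ⊕ₗ Fin n) →₀ ℕ) : wt (b + c) = wt b + wt c := by
  unfold wt
  rw [← Finset.sum_add_distrib]
  exact Finset.sum_congr rfl fun i _ => by rw [Finsupp.add_apply]; ring

lemma wt_x (i : Fin n) : wt (Finsupp.single (xv i) 1) = 0 := by
  unfold wt
  refine Finset.sum_eq_zero fun k _ => ?_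
  rw [Finsupp.single_apply, if_neg (xv_ne_yv i k), mul_zero]

lemma wt_y (i : Fin n) : wt (Finsupp.single (yv i) 1) = i.val := by
  unfold wt
  rw [Finset.sum_eq_single i]
  · simp
  · intro k _ hk
    rw [Finsupp.single_apply, if_neg, mul_zero]
    rw [yv_inj]
    exact fun h => hk h.symm
  · intro h; exact absurd (Finset.mem_univ _) h

variable {f g : Finset (Fin n ⊕ₗ Fin n) → MvPolynomial (Fin n ⊕ₗ Fin n) K} {w w' : ℤ}

lemma Flt.mono (h : w ≤ w') (hf : Flt w f) : Flt w' f :=
  SpQ.mono (fun _ _ hb => lt_of_lt_of_le hb h) hf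

lemma Flt.wex (i : Fin n) (hf : Flt w f) : Flt w (we (xv i) f) :=
  SpQ.we (xv i) (fun _ b hb => by rw [wt_add, wt_x]; simpa using hb) hf

lemma Flt.wey (i : Fin n) (hf : Flt w f) : Flt (w + i.val) (we (yv i) f) :=
  SpQ.we (yv i) (fun _ b hb => by rw [wt_add, wt_y]; push_cast; linarith) hf

lemma Flt.Xx (i : Fin n) (hf : Flt w f) :
    Flt w ((MvPolynomial.X (xv i) : MvPolynomial (Fin n ⊕ₗ Fin n) K) • f) :=
  SpQ.X (xv i) (fun _ b hb => by rw [wt_add, wt_x]; simpa using hb) hf

/-- sum of a list of positions -/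
def bsum : List (Fin n) → ℤ
  | [] => 0
  | b :: r => b.val + bsum r

lemma wt_lsum_x (ws : List (Fin n)) : wt (lsum xv ws : (Fin n ⊕ₗ Fin n) →₀ ℕ) = 0 := by
  induction ws with
  | nil => simp [lsum, wt]
  | cons a r ih => simp only [lsum]; rw [wt_add, ih, wt_x]

lemma wt_lsum_y (ws : List (Fin n)) :
    ((wt (lsum yv ws : (Fin n ⊕ₗ Fin n) →₀ ℕ) : ℕ) : ℤ) = bsum ws := by
  induction ws with
  | nil => simp [lsum, wt, bsum]
  | cons a r ih => simp only [lsum, bsum]; rw [wt_add, wt_y]; push_cast; rw [ih]; ring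

lemma Lbound0 (t : ℤ) (B : List (Fin n)) (hB : ∀ b ∈ B, t ≤ b.val) (hf : Flt w f) :
    ∀ (s : ℕ) (w' : ℤ), w + bsum B ≤ w' + s * t → Flt w' (Lop xv yv B f s) := by
  induction B with
  | nil =>
    intro s w' h
    simp only [Lop]
    split_ifs with hs
    · subst hs
      simp only [bsum] at h
      exact hf.mono (by push_cast at h; linarith)
    · exact SpQ.zero
  | cons b B ih =>
    intro s w' h
    have ih' := ih fun b hb => hB b (by simp [hb])
    have hb := hB b (by simp)
    simp only [bsum] at h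
    simp only [Lop, Eop]
    refine SpQ.add ?_ ?_
    · have := (ih' s (w' - b.val) (by linarith)).wey b
      simpa [Flt] using this
    · cases s with
      | zero =>
        show Flt w' (we (xv b) 0)
        rw [we_zero]
        exact SpQ.zero
      | succ s =>
        refine Flt.wex b (ih' s w' ?_)
        push_cast at h
        linarith

lemma Lbound (t : ℤ) (A B : List (Fin n)) (hA : ∀ a ∈ A, (a.val : ℤ) ≤ t)
    (hB : ∀ b ∈ B, t ≤ b.val) (hf : Flt w f) :
    ∀ (s : ℕ) (w' : ℤ), w + bsum B ≤ w' + s * t → Flt w' (Lop xv yv (A ++ B) f (A.length + s)) := by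
  induction A with
  | nil =>
    intro s w' h
    simpa using Lbound0 t B hB hf s w' h
  | cons a A ih =>
    intro s w' h
    have ih' := ih fun a ha => hA a (by simp [ha])
    have ha := hA a (by simp)
    have hlen : (a :: A).length + s = (A.length + s) + 1 := by simp; ring
    rw [hlen]
    simp only [List.cons_append, Lop, Eop]
    refine SpQ.add ?_ ?_
    · have := (ih' (s + 1) (w' - a.val) (by push_cast; linarith)).wey a
      rw [← add_assoc] at this
      simpa [Flt] using this
    · exact Flt.wex a (ih' s w' h)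

lemma Mbound0 (t : ℤ) (B : List (Fin n)) (hB : ∀ b ∈ B, t ≤ b.val) (hf : Flt w f) :
    ∀ (q : ℕ) (w' : ℤ), w + bsum B ≤ w' + (q + 1) * t →
      Flt w' (Mop xv yv (fun v => (MvPolynomial.X v : MvPolynomial (Fin n ⊕ₗ Fin n) K)) B f q) := by
  induction B with
  | nil =>
    intro q w' h
    exact SpQ.zero
  | cons b B ih =>
    intro q w' h
    have ih' := ih fun b hb => hB b (by simp [hb])
    have hb := hB b (by simp)
    simp only [bsum] at h
    simp only [Mop, Eop]
    refine SpQ.sub ?_ (SpQ.add ?_ ?_)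
    · refine Flt.Xx b (Lbound0 t B (fun b hb => hB b (by simp [hb])) hf q w' ?_)
      linarith
    · have := (ih' q (w' - b.val) (by linarith)).wey b
      simpa [Flt] using this
    · cases q with
      | zero =>
        show Flt w' (we (xv b) 0)
        rw [we_zero]
        exact SpQ.zero
      | succ q =>
        refine Flt.wex b (ih' q w' ?_)
        push_cast at h
        linarith

lemma Mbound (t : ℤ) (A B : List (Fin n)) (hA : ∀ a ∈ A, (a.val : ℤ) ≤ t)
    (hB : ∀ b ∈ B, t ≤ b.val) (hf : Flt w f) :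
    ∀ (s q : ℕ) (w' : ℤ), q + 1 = A.length + s → w + bsum B ≤ w' + s * t →
      Flt w' (Mop xv yv (fun v => (MvPolynomial.X v : MvPolynomial (Fin n ⊕ₗ Fin n) K))
        (A ++ B) f q) := by
  induction A with
  | nil =>
    intro s q w' hq h
    simp only [List.length_nil, zero_add] at hq
    subst hq
    simpa using Mbound0 t B hB hf q w' (by push_cast at h; linarith)
  | cons a A ih =>
    intro s q w' hq h
    have ih' := ih fun a ha => hA a (by simp [ha])
    have ha := hA a (by simp)
    simp only [List.length_cons] at hq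
    have hq' : q = A.length + s := by omega
    simp only [List.cons_append, Mop, Eop]
    refine SpQ.sub ?_ (SpQ.add ?_ ?_)
    · refine Flt.Xx a ?_
      rw [hq']
      exact Lbound t A B (fun a ha => hA a (by simp [ha])) hB hf s w' h
    · have := (ih' (s + 1) q (w' - a.val) (by omega) (by push_cast; linarith)).wey a
      simpa [Flt] using this
    · cases q with
      | zero =>
        show Flt w' (we (xv a) 0)
        rw [we_zero]
        exact SpQ.zero
      | succ q =>
        exact Flt.wex a (ih' s q w' (by omega) h)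

lemma Lop_zero (B : List (Fin n)) : Lop xv yv B f 0 = Wop yv B f := by
  induction B with
  | nil => simp [Lop, Wop]
  | cons b B ih =>
    simp only [Lop, Wop, Eop]
    rw [ih]
    show we (yv b) _ + we (xv b) 0 = _
    rw [we_zero, add_zero]

lemma Ltop (t : ℤ) (A B : List (Fin n)) (hA : ∀ a ∈ A, (a.val : ℤ) + 1 ≤ t)
    (hB : ∀ b ∈ B, t ≤ b.val) (hf : Flt (w + 1) f) :
    Flt (w + bsum B) (Lop xv yv (A ++ B) f A.length - Wop xv A (Wop yv B f)) := by
  induction A with
  | nil =>
    simp only [List.nil_append, List.length_nil, Wop]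
    rw [Lop_zero, sub_self]
    exact SpQ.zero
  | cons a A ih =>
    have ih' := ih fun a ha => hA a (by simp [ha])
    have ha := hA a (by simp)
    simp only [List.cons_append, List.length_cons, Lop, Eop, Wop]
    show Flt _ (we (yv a) (Lop xv yv (A ++ B) f (A.length + 1)) +
      we (xv a) (Lop xv yv (A ++ B) f A.length) - we (xv a) (Wop xv A (Wop yv B f)))
    rw [add_sub_assoc, ← we_sub]
    refine SpQ.add ?_ (Flt.wex a ih')
    have := (Lbound t A B (fun a ha => by have := hA a (by simp [ha]); linarith) hB hf 1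
      (w + bsum B - a.val) (by push_cast; linarith)).wey a
    simpa [Flt] using this

lemma Mtop (t : ℤ) (A B : List (Fin n)) (hA : ∀ a ∈ A, (a.val : ℤ) + 1 ≤ t)
    (hB : ∀ b ∈ B, t ≤ b.val) (hf : Flt (w + 1) f) (q : ℕ) (hq : A.length = q + 1) :
    Flt (w + bsum B)
      (Mop xv yv (fun v => (MvPolynomial.X v : MvPolynomial (Fin n ⊕ₗ Fin n) K)) (A ++ B) f q -
        MXop xv (fun v => (MvPolynomial.X v : MvPolynomial (Fin n ⊕ₗ Fin n) K)) A
          (Wop yv B f)) := by
  induction A generalizing q with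
  | nil => simp at hq
  | cons a A ih =>
    have hA' : ∀ a ∈ A, (a.val : ℤ) + 1 ≤ t := fun a ha => hA a (by simp [ha])
    have ih' := ih hA'
    have ha := hA a (by simp)
    simp only [List.length_cons] at hq
    have hq' : q = A.length := by omega
    subst hq'
    simp only [List.cons_append, Mop, Eop, MXop]
    have e : ∀ p1 p2 p3 p4 p5 : Finset (Fin n ⊕ₗ Fin n) → MvPolynomial (Fin n ⊕ₗ Fin n) K,
        p1 - (p2 + p3) - (p4 - p5) = (p1 - p4) - p2 - (p3 - p5) := by
      intro p1 p2 p3 p4 p5; abel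
    rw [e, ← smul_sub, ← we_sub]
    refine SpQ.sub (SpQ.sub ?_ ?_) (Flt.wex a ?_)
    · exact Flt.Xx a (Ltop t A B hA' hB hf)
    · have := (Mbound t A B (fun a ha => by have := hA' a ha; linarith) hB hf 1 A.length
        (w + bsum B - a.val) (by ring) (by push_cast; linarith)).wey a
      simpa [Flt] using this
    · cases A with
      | nil =>
        simp only [List.length_nil, MXop, sub_zero]
        exact SpQ.zero
      | cons a' A' =>
        exact ih' A'.length rfl

end Filt

end Pool.Agent.TH47.BE
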