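import Mathlib
import Pool.Agent.TH47.BE.Kos

/-!
Graded Koszul homology (graded Betti numbers) and linear algebra.
-/

set_option autoImplicit false
set_option linter.unusedSectionVars false

namespace Pool.Agent.TH47.BE

open Finset MvPolynomial

/-! ### filtered vector spaces -/

section Filtered

variable {K E : Type*} [Field K] [AddCommGroup E] [Module K E]

lemma finrank_split (S F : Submodule K E) [FiniteDimensional K S] :
    Module.finrank K S = Module.finrank K (S ⊓ F : Submodule K E) +
      Module.finrank K (S.map F.mkQ) := by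
  have h1 := LinearMap.finrank_range_add_finrank_ker (F.mkQ.comp S.subtype)
  have h2 : LinearMap.range (F.mkQ.comp S.subtype) = S.map F.mkQ := by
    rw [LinearMap.range_comp, Submodule.range_subtype]
  have h3 : LinearMap.ker (F.mkQ.comp S.subtype) = F.comap S.subtype := by
    rw [LinearMap.ker_comp, Submodule.ker_mkQ]
  have h4 : Module.finrank K (F.comap S.subtype) = Module.finrank K (S ⊓ F : Submodule K E) := by
    rw [← Submodule.map_comap_subtype S F]
    exact (LinearEquiv.finrank_eq (Submodule.equivMapOfInjective _ S.injective_subtype _))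
  rw [h2, h3, h4] at h1
  omega

lemma finrank_eq_of_filt (F : ℕ → Submodule K E) (U U0 : Submodule K E)
    [FiniteDimensional K U] [FiniteDimensional K U0] (N : ℕ) (hU : U ≤ F N) (hU0 : U0 ≤ F N)
    (h0 : F 0 = ⊥) (hmono : ∀ w, F w ≤ F (w + 1))
    (H1 : ∀ w, ∀ f ∈ U, f ∈ F (w + 1) → ∃ g ∈ U0, g ∈ F (w + 1) ∧ f - g ∈ F w)
    (H2 : ∀ w, ∀ g ∈ U0, g ∈ F (w + 1) → ∃ f ∈ U, f ∈ F (w + 1) ∧ f - g ∈ F w) :
    Module.finrank K U = Module.finrank K U0 := by
  have key : ∀ w, Module.finrank K (U ⊓ F w : Submodule K E) =
      Module.finrank K (U0 ⊓ F w : Submodule K E) := by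
    intro w
    induction w with
    | zero => rw [h0, inf_bot_eq, inf_bot_eq]
    | succ w ih =>
      have : FiniteDimensional K (U ⊓ F (w + 1) : Submodule K E) :=
        Submodule.finiteDimensional_of_le inf_le_left
      have : FiniteDimensional K (U0 ⊓ F (w + 1) : Submodule K E) :=
        Submodule.finiteDimensional_of_le inf_le_left
      have hmap : (U ⊓ F (w + 1)).map (F w).mkQ = (U0 ⊓ F (w + 1)).map (F w).mkQ := by
        ext x
        simp only [Submodule.mem_map, Submodule.mem_inf]
        constructor
        · rintro ⟨f, ⟨hf1, hf2⟩, rfl⟩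
          obtain ⟨g, hg1, hg2, hg3⟩ := H1 w f hf1 hf2
          refine ⟨g, ⟨hg1, hg2⟩, ?_⟩
          rw [Submodule.mkQ_apply, Submodule.mkQ_apply, eq_comm, Submodule.Quotient.eq]
          exact hg3
        · rintro ⟨f, ⟨hf1, hf2⟩, rfl⟩
          obtain ⟨g, hg1, hg2, hg3⟩ := H2 w f hf1 hf2
          refine ⟨g, ⟨hg1, hg2⟩, ?_⟩
          rw [Submodule.mkQ_apply, Submodule.mkQ_apply, Submodule.Quotient.eq]
          exact hg3
      rw [finrank_split (U ⊓ F (w + 1)) (F w), finrank_split (U0 ⊓ F (w + 1)) (F w)]
      rw [inf_assoc, inf_assoc, inf_eq_right.mpr (hmono w), ih, hmap]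
  have := key N
  rwa [inf_eq_left.mpr hU, inf_eq_left.mpr hU0] at this

end Filtered

/-! ### graded Betti numbers -/

section Betti

variable {σ : Type*} [Fintype σ] [LinearOrder σ] (K : Type*) [Field K]

/-- The Koszul differential of `x_v`, `v ∈ σ`, on the chains `Finset σ → K[x_v]`:
`f = ∑_T f_T e_T` is mapped to `∑_T (∑_{v ∉ T} (-1)^{#{l ∈ T | l < v}} x_v f_{T ∪ v}) e_T`. -/
noncomputable def koszulD (f : Finset σ → MvPolynomial σ K) (T : Finset σ) : MvPolynomial σ K :=
  ∑ v ∈ Tᶜ, (-1) ^ (T.filter (· < v)).card * (X v * f (insert v T))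

/-- Koszul chains of homological degree `i` and internal degree `j`: combinations of the
`x^u e_T` with `#T = i` and `#T + |u| = j`. -/
def chains (i j : ℕ) : Submodule K (Finset σ → MvPolynomial σ K) where
  carrier := {f | ∀ T u, coeff u (f T) ≠ 0 → T.card = i ∧ T.card + u.degree = j}
  add_mem' := by
    intro f g hf hg T u hu
    rw [Pi.add_apply, coeff_add] at hu
    by_cases h : coeff u (f T) = 0
    · rw [h, zero_add] at hu
      exact hg T u hu
    · exact hf T u h
  zero_mem' := by
    intro T u hu
    simp at hu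
  smul_mem' := by
    intro a f hf T u hu
    rw [Pi.smul_apply, coeff_smul, smul_eq_mul] at hu
    exact hf T u (right_ne_zero_of_mul hu)

variable {K}

lemma koszulD_eq_kd (f : Finset σ → MvPolynomial σ K) :
    koszulD K f = kd (fun v => (X v : MvPolynomial σ K)) f := rfl

lemma koszulD_smul (a : K) (f : Finset σ → MvPolynomial σ K) :
    koszulD K (a • f) = a • koszulD K f := by
  funext T
  simp only [koszulD, Pi.smul_apply]
  rw [Finset.smul_sum]
  exact Finset.sum_congr rfl fun v _ => by rw [mul_smul_comm, mul_smul_comm]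

variable (K) in
/-- the differential as a linear map -/
noncomputable def koszulL : (Finset σ → MvPolynomial σ K) →ₗ[K] (Finset σ → MvPolynomial σ K) where
  toFun := koszulD K
  map_add' f g := by rw [koszulD_eq_kd, kd_add]; rfl
  map_smul' a f := koszulD_smul a f

lemma koszulL_apply (f : Finset σ → MvPolynomial σ K) : koszulL K f = koszulD K f := rfl

/-- families with values in an ideal -/
def valued (I : Ideal (MvPolynomial σ K)) : Submodule K (Finset σ → MvPolynomial σ K) where
  carrier := {f | ∀ T, f T ∈ I}
  add_mem' := fun hf hg T => Ideal.add_mem _ (hf T) (hg T)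
  zero_mem' := fun T => Ideal.zero_mem _
  smul_mem' := by
    intro a f hf T
    rw [Pi.smul_apply, smul_eq_C_mul]
    exact Ideal.mul_mem_left _ _ (hf T)

lemma mem_valued {I : Ideal (MvPolynomial σ K)} {f : Finset σ → MvPolynomial σ K} :
    f ∈ valued I ↔ ∀ T, f T ∈ I := Iff.rfl

/-- The cycles of degree `(i, j)` of the Koszul complex of `S ⧸ I` (lifted to `S`). -/
noncomputable def cycles (I : Ideal (MvPolynomial σ K)) (i j : ℕ) :
    Submodule K (Finset σ → MvPolynomial σ K) :=
  chains K i j ⊓ (valued I).comap (koszulL K)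

/-- The boundaries of degree `(i, j)` of the Koszul complex of `S ⧸ I` (lifted to `S`). -/
noncomputable def boundaries (I : Ideal (MvPolynomial σ K)) (i j : ℕ) :
    Submodule K (Finset σ → MvPolynomial σ K) :=
  chains K i j ⊓ ((chains K (i + 1) j).map (koszulL K) ⊔ valued I)

lemma mem_cycles {I : Ideal (MvPolynomial σ K)} {i j : ℕ} {f : Finset σ → MvPolynomial σ K} :
    f ∈ cycles I i j ↔ f ∈ chains K i j ∧ ∀ T, koszulD K f T ∈ I := Iff.rfl

lemma mem_boundaries {I : Ideal (MvPolynomial σ K)} {i j : ℕ}
    {f : Finset σ → MvPolynomial σ K} :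
    f ∈ boundaries I i j ↔ f ∈ chains K i j ∧
      ∃ g ∈ chains K (i + 1) j, ∀ T, f T - koszulD K g T ∈ I := by
  unfold boundaries
  rw [Submodule.mem_inf]
  refine and_congr_right fun _ => ?_
  rw [Submodule.mem_sup]
  constructor
  · rintro ⟨y, ⟨g, hg, rfl⟩, z, hz, rfl⟩
    refine ⟨g, hg, fun T => ?_⟩
    rw [Pi.add_apply, koszulL_apply, add_sub_cancel_left]
    exact hz T
  · rintro ⟨g, hg, h⟩
    refine ⟨koszulL K g, ⟨g, hg, rfl⟩, f - koszulD K g, h, ?_⟩
    rw [koszulL_apply]
    abel

/-- The graded Betti number `β_{i,j}(S/I) = dim_K Tor_i^S(S/I, K)_j`, as the dimension of the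
Koszul homology of `S/I` in homological degree `i` and internal degree `j`. -/
noncomputable def betti (I : Ideal (MvPolynomial σ K)) (i j : ℕ) : ℕ :=
  Module.finrank K (cycles I i j ⧸ (boundaries I i j).submoduleOf (cycles I i j))

lemma boundaries_le (I : Ideal (MvPolynomial σ K)) (i j : ℕ) :
    boundaries I i j ≤ cycles I i j := by
  intro f hf
  rw [mem_boundaries] at hf
  obtain ⟨h1, g, hg, h⟩ := hf
  refine mem_cycles.mpr ⟨h1, fun T => ?_⟩
  have h2 : koszulD K f T = koszulD K (f - koszulD K g) T := by
    rw [koszulD_eq_kd, koszulD_eq_kd, koszulD_eq_kd, kd_sub, kd_kd, sub_zero]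
  rw [h2]
  unfold koszulD
  exact Ideal.sum_mem _ fun v _ => Ideal.mul_mem_left _ _ (Ideal.mul_mem_left _ _ (h _))

lemma koszulD_chains {i j : ℕ} {g : Finset σ → MvPolynomial σ K} (hg : g ∈ chains K (i + 1) j) :
    koszulD K g ∈ chains K i j := by
  classical
  intro T u hu
  unfold koszulD at hu
  rw [coeff_sum] at hu
  obtain ⟨v, hv, hv2⟩ := Finset.exists_ne_zero_of_sum_ne_zero hu
  have e : ((-1 : MvPolynomial σ K)) ^ (T.filter (· < v)).card =
      C ((-1 : K) ^ (T.filter (· < v)).card) := by simp
  rw [e, coeff_C_mul] at hv2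
  have h3 := right_ne_zero_of_mul hv2
  rw [coeff_X_mul'] at h3
  split_ifs at h3 with h4
  · have hvT : v ∉ T := by simpa using hv
    obtain ⟨h5, h6⟩ := hg (insert v T) _ h3
    rw [Finset.card_insert_of_notMem hvT] at h5 h6
    have h2 : Finsupp.single v 1 + (u - Finsupp.single v 1) = u := by
      apply add_tsub_cancel_of_le
      rw [Finsupp.single_le_iff]
      have := Finsupp.mem_support_iff.mp h4
      omega
    have h7 := congrArg Finsupp.degree h2
    rw [map_add, Finsupp.degree_single] at h7
    constructor <;> omega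
  · exact absurd rfl h3

/-- the Betti numbers in terms of the dimensions of spaces of cycles -/
lemma betti_formula (I : Ideal (MvPolynomial σ K)) (i j : ℕ)
    [FiniteDimensional K (chains K i j : Submodule K (Finset σ → MvPolynomial σ K))]
    [FiniteDimensional K (chains K (i + 1) j : Submodule K (Finset σ → MvPolynomial σ K))] :
    betti I i j + Module.finrank K
        (chains K (i + 1) j : Submodule K (Finset σ → MvPolynomial σ K)) +
      Module.finrank K (chains K i j ⊓ valued I : Submodule K (Finset σ → MvPolynomial σ K)) =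
    Module.finrank K (cycles I i j) + Module.finrank K (cycles I (i + 1) j) := by
  have : FiniteDimensional K (cycles I i j) := Submodule.finiteDimensional_of_le inf_le_left
  have : FiniteDimensional K (boundaries I i j) := Submodule.finiteDimensional_of_le inf_le_left
  have h1 : betti I i j + Module.finrank K (boundaries I i j) = Module.finrank K (cycles I i j) := by
    unfold betti
    rw [← Submodule.finrank_quotient_add_finrank ((boundaries I i j).submoduleOf (cycles I i j))]
    congr 1
    exact (LinearEquiv.finrank_eq (Submodule.submoduleOfEquivOfLe (boundaries_le I i j))).symm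
  have h2 := finrank_split (boundaries I i j) (valued I)
  have h3 : boundaries I i j ⊓ valued I = chains K i j ⊓ valued I := by
    apply le_antisymm
    · exact inf_le_inf_right _ inf_le_left
    · refine le_inf ?_ inf_le_right
      exact inf_le_inf_left _ le_sup_right
  have h4 : (boundaries I i j).map (valued I).mkQ =
      (chains K (i + 1) j).map ((valued I).mkQ.comp (koszulL K)) := by
    ext x
    simp only [Submodule.mem_map]
    constructor
    · rintro ⟨f, hf, rfl⟩
      obtain ⟨h5, g, hg, h6⟩ := mem_boundaries.mp hf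
      refine ⟨g, hg, ?_⟩
      rw [LinearMap.comp_apply, Submodule.mkQ_apply, Submodule.mkQ_apply, eq_comm,
        Submodule.Quotient.eq]
      exact h6
    · rintro ⟨g, hg, rfl⟩
      refine ⟨koszulD K g, mem_boundaries.mpr ⟨koszulD_chains hg, g, hg, fun T => ?_⟩, rfl⟩
      rw [sub_self]
      exact Ideal.zero_mem _
  have h5 := LinearMap.finrank_range_add_finrank_ker
    (((valued I).mkQ.comp (koszulL K)).comp (chains K (i + 1) j).subtype)
  have h6 : LinearMap.range (((valued I).mkQ.comp (koszulL K)).comp
      (chains K (i + 1) j).subtype) =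
      (chains K (i + 1) j).map ((valued I).mkQ.comp (koszulL K)) := by
    rw [LinearMap.range_comp, Submodule.range_subtype]
  have h7 : LinearMap.ker (((valued I).mkQ.comp (koszulL K)).comp
      (chains K (i + 1) j).subtype) =
      ((valued I).comap (koszulL K)).comap (chains K (i + 1) j).subtype := by
    rw [LinearMap.ker_comp, LinearMap.ker_comp, Submodule.ker_mkQ]
  have h8 : Module.finrank K (((valued I).comap (koszulL K)).comap (chains K (i + 1) j).subtype) =
      Module.finrank K (cycles I (i + 1) j) := by
    unfold cycles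
    rw [← Submodule.map_comap_subtype (chains K (i + 1) j)]
    exact LinearEquiv.finrank_eq
      (Submodule.equivMapOfInjective _ (chains K (i + 1) j).injective_subtype _)
  rw [h6, h7, h8, ← h4] at h5
  rw [h3] at h2
  omega

end Betti

end Pool.Agent.TH47.BE
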