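import Mathlib
import Pool.Agent.TH47.BE.Chain

/-!
Lifting of homology classes of the initial ideal.
-/

set_option autoImplicit false
set_option linter.unusedSectionVars false

namespace Pool.Agent.TH47.BE

open Finset MvPolynomial

/-! ### contractions -/

section Contr

variable {σ : Type*} [Fintype σ] [LinearOrder σ] {R : Type*} [CommRing R]

/-- contraction -/
def cv (v : σ) (f : Finset σ → R) (T : Finset σ) : R :=
  if v ∈ T then 0 else sg R v T * f (insert v T)

lemma we_cv (v : σ) (f : Finset σ → R) (T : Finset σ) :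
    we v (cv v f) T = if v ∈ T then f T else 0 := by
  unfold we
  split_ifs with h
  · unfold cv
    rw [if_neg (Finset.notMem_erase v T), Finset.insert_erase h, ← mul_assoc, sg_mul_self, one_mul]
  · rfl

lemma kd_cv (X : σ → R) (v : σ) (f : Finset σ → R) (T : Finset σ) :
    kd X (cv v f) T = - cv v (kd X f) T := by
  by_cases hv : v ∈ T
  · have e : cv v (kd X f) T = 0 := if_pos hv
    rw [e, neg_zero]
    unfold kd
    refine Finset.sum_eq_zero fun w _ => ?_
    have : cv v f (insert w T) = 0 := if_pos (Finset.mem_insert_of_mem hv)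
    rw [this, mul_zero, mul_zero]
  · have e : cv v (kd X f) T = sg R v T * kd X f (insert v T) := if_neg hv
    rw [e]
    unfold kd
    rw [Finset.mul_sum, ← Finset.sum_neg_distrib]
    have h1 : Tᶜ = insert v (insert v T)ᶜ := by
      ext w
      simp only [Finset.mem_compl, Finset.mem_insert]
      by_cases hw : w = v
      · subst hw; simp [hv]
      · simp [hw]
    conv_lhs => rw [h1]
    rw [Finset.sum_insert (by simp)]
    have h2 : cv v f (insert v T) = 0 := if_pos (Finset.mem_insert_self v T)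
    rw [h2, mul_zero, mul_zero, zero_add]
    refine Finset.sum_congr rfl fun w hw => ?_
    simp only [Finset.mem_compl, Finset.mem_insert, not_or] at hw
    have h3 : cv v f (insert w T) = sg R v (insert w T) * f (insert v (insert w T)) :=
      if_neg (by simp only [Finset.mem_insert, not_or]; exact ⟨fun h => hw.1 h.symm, hv⟩)
    rw [h3, Finset.insert_comm v w T]
    have := sg_swap (R := R) hw.1 hw.2 hv
    have e2 : sg R w T * (X w * (sg R v (insert w T) * f (insert w (insert v T)))) +
        sg R v T * (sg R w (insert v T) * (X w * f (insert w (insert v T)))) =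
        (sg R v T * sg R w (insert v T) + sg R w T * sg R v (insert w T)) *
          (X w * f (insert w (insert v T))) := by ring
    rw [this, zero_mul] at e2
    exact eq_neg_of_add_eq_zero_left e2

/-- iterated contraction -/
def Cop : List σ → (Finset σ → R) → Finset σ → R
  | [], f => f
  | w :: r, f => Cop r (cv w f)

lemma cv_van {s w : σ} {f : Finset σ → R} (hf : ∀ S, s ∈ S → f S = 0) :
    ∀ S, s ∈ S → cv w f S = 0 := by
  intro S hS
  unfold cv
  split_ifs
  · rfl
  · rw [hf _ (Finset.mem_insert_of_mem hS), mul_zero]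

lemma Cop_van {s : σ} (ws : List σ) {f : Finset σ → R} (hf : ∀ S, s ∈ S → f S = 0) :
    ∀ S, s ∈ S → Cop ws f S = 0 := by
  induction ws generalizing f with
  | nil => exact hf
  | cons w r ih => exact ih (cv_van hf)

lemma Cop_van' (ws : List σ) (f : Finset σ → R) (s : σ) (hs : s ∈ ws) :
    ∀ S, s ∈ S → Cop ws f S = 0 := by
  induction ws generalizing f with
  | nil => simp at hs
  | cons w r ih =>
    rw [List.mem_cons] at hs
    rcases hs with rfl | hs
    · exact Cop_van r fun S hS => if_pos hS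
    · exact ih _ hs

/-- values of iterated contractions are values, up to a factor -/
lemma Cop_val (ws : List σ) (f : Finset σ → R) (S : Finset σ) :
    ∃ a : R, Cop ws f S = a * f (S ∪ ws.toFinset) := by
  induction ws generalizing f with
  | nil => exact ⟨1, by simp [Cop]⟩
  | cons w r ih =>
    obtain ⟨a, ha⟩ := ih (cv w f)
    simp only [Cop]
    rw [ha]
    unfold cv
    split_ifs
    · exact ⟨0, by simp⟩
    · refine ⟨a * sg R w (S ∪ r.toFinset), ?_⟩
      rw [mul_assoc, List.toFinset_cons, Finset.union_insert]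

lemma cv_neg (w : σ) (f : Finset σ → R) : cv w (-f) = - cv w f := by
  funext T
  simp only [cv, Pi.neg_apply]
  split_ifs <;> ring

lemma Cop_neg (ws : List σ) (f : Finset σ → R) : Cop ws (-f) = - Cop ws f := by
  induction ws generalizing f with
  | nil => rfl
  | cons w r ih => simp only [Cop]; rw [cv_neg, ih]

lemma kd_Cop (X : σ → R) (ws : List σ) (f : Finset σ → R) (T : Finset σ) :
    ∃ a : R, kd X (Cop ws f) T = a * Cop ws (kd X f) T := by
  induction ws generalizing f with
  | nil => exact ⟨1, by simp [Cop]⟩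
  | cons w r ih =>
    obtain ⟨a, ha⟩ := ih (cv w f)
    simp only [Cop]
    rw [ha]
    have : kd X (cv w f) = - cv w (kd X f) := by
      funext T
      exact kd_cv X w f T
    rw [this, Cop_neg]
    exact ⟨-a, by rw [Pi.neg_apply]; ring⟩

lemma Wop_Cop (ws : List σ) (hws : ws.Nodup) (f : Finset σ → R) (T : Finset σ) :
    Wop id ws (Cop ws f) T = if ∀ w ∈ ws, w ∈ T then f T else 0 := by
  induction ws generalizing f T with
  | nil => simp [Wop, Cop]
  | cons w r ih =>
    rw [List.nodup_cons] at hws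
    simp only [Wop, Cop, id]
    have h1 : Wop id r (Cop r (cv w f)) = fun T => if ∀ w ∈ r, w ∈ T then cv w f T else 0 := by
      funext T
      exact ih hws.2 (cv w f) T
    rw [h1]
    by_cases hw : w ∈ T
    · have h2 : we w (fun T => if ∀ w ∈ r, w ∈ T then cv w f T else 0) T =
          sg R w (T.erase w) * (if ∀ w' ∈ r, w' ∈ T.erase w then cv w f (T.erase w) else 0) :=
        if_pos hw
      rw [h2]
      have h3 : (∀ w' ∈ r, w' ∈ T.erase w) ↔ ∀ w' ∈ w :: r, w' ∈ T := by
        simp only [List.mem_cons, forall_eq_or_imp, Finset.mem_erase]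
        constructor
        · exact fun h => ⟨hw, fun a ha => (h a ha).2⟩
        · exact fun h a ha => ⟨fun haw => hws.1 (haw ▸ ha), h.2 a ha⟩
      by_cases h4 : ∀ w' ∈ w :: r, w' ∈ T
      · rw [if_pos (h3.mpr h4), if_pos h4]
        have h5 := we_cv (R := R) w f T
        rw [if_pos hw] at h5
        have h6 : we w (cv w f) T = sg R w (T.erase w) * cv w f (T.erase w) := if_pos hw
        rw [← h6, h5]
      · rw [if_neg (fun h => h4 (h3.mp h)), if_neg h4, mul_zero]
    · have h2 : we w (fun T => if ∀ w ∈ r, w ∈ T then cv w f T else 0) T = 0 := if_neg hw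
      rw [h2, if_neg]
      intro h
      exact hw (h w (by simp))

lemma Wop_id_append (ws vs : List σ) (f : Finset σ → R) :
    Wop id (ws ++ vs) f = Wop id ws (Wop id vs f) := by
  induction ws with
  | nil => rfl
  | cons w r ih => simp only [List.cons_append, Wop]; rw [ih]

lemma Wop_map {ι : Type*} (z : ι → σ) (ws : List ι) (f : Finset σ → R) :
    Wop z ws f = Wop id (ws.map z) f := by
  induction ws with
  | nil => rfl
  | cons w r ih => simp only [List.map_cons, Wop]; rw [ih]; rfl

lemma Wop_van {ι : Type*} {z : ι → σ} {s : σ} (ws : List ι) (hs : ∀ w ∈ ws, z w ≠ s)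
    {f : Finset σ → R} (hf : ∀ S, s ∈ S → f S = 0) : ∀ S, s ∈ S → Wop z ws f S = 0 := by
  induction ws with
  | nil => exact hf
  | cons w r ih =>
    intro S hS
    simp only [Wop]
    unfold we
    split_ifs
    · rw [ih (fun w hw => hs w (by simp [hw])), mul_zero]
      exact Finset.mem_erase.mpr ⟨(hs w (by simp)).symm, hS⟩
    · rfl

lemma MXop_van {ι : Type*} {z : ι → σ} (X : σ → R) (ws : List ι) (hws : (ws.map z).Nodup)
    {f : Finset σ → R} (hf : ∀ w ∈ ws, ∀ S, z w ∈ S → f S = 0) (S : Finset σ)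
    (hS : ∀ w ∈ ws, z w ∈ S) : MXop z X ws f S = 0 := by
  induction ws generalizing S with
  | nil => rfl
  | cons w r ih =>
    rw [List.map_cons, List.nodup_cons] at hws
    simp only [MXop]
    rw [Pi.sub_apply, Pi.smul_apply]
    rw [Wop_van r (s := z w) _ (hf w (by simp)) S (hS w (by simp)), smul_zero, zero_sub, neg_eq_zero]
    · unfold we
      rw [if_pos (hS w (by simp)), ih hws.2 (fun w hw => hf w (by simp [hw])), mul_zero]
      intro u hu
      refine Finset.mem_erase.mpr ⟨?_, hS u (by simp [hu])⟩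
      intro h
      exact hws.1 (h ▸ List.mem_map_of_mem hu)
    · intro u hu h
      exact hws.1 (h ▸ List.mem_map_of_mem hu)

lemma Wop_sub {ι : Type*} (z : ι → σ) (ws : List ι) (f g : Finset σ → R) :
    Wop z ws (f - g) = Wop z ws f - Wop z ws g := by
  induction ws with
  | nil => rfl
  | cons w r ih => simp only [Wop]; rw [ih, we_sub]

lemma MXop_sub {ι : Type*} (z : ι → σ) (X : σ → R) (ws : List ι) (f g : Finset σ → R) :
    MXop z X ws (f - g) = MXop z X ws f - MXop z X ws g := by
  induction ws with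
  | nil => simp only [MXop]; exact (sub_zero _).symm
  | cons w r ih =>
    simp only [MXop]
    rw [ih, Wop_sub, smul_sub, we_sub]
    abel

/-- cardinality of the support -/
def CardS (i : ℕ) (f : Finset σ → R) : Prop := ∀ T, f T ≠ 0 → T.card = i

lemma CardS.we {i : ℕ} {f : Finset σ → R} (hf : CardS i f) (v : σ) : CardS (i + 1) (we v f) := by
  intro T hT
  unfold BE.we at hT
  split_ifs at hT with hv
  · rw [← hf _ (right_ne_zero_of_mul hT), Finset.card_erase_add_one hv]
  · exact absurd rfl hT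

lemma CardS.kd {i : ℕ} {f : Finset σ → R} (hf : CardS i f) (X : σ → R) {T : Finset σ}
    (hT : kd X f T ≠ 0) : T.card + 1 = i := by
  unfold BE.kd at hT
  obtain ⟨v, hv, hv2⟩ := Finset.exists_ne_zero_of_sum_ne_zero hT
  have hvT : v ∉ T := by simpa using hv
  rw [← hf _ (right_ne_zero_of_mul (right_ne_zero_of_mul hv2)),
    Finset.card_insert_of_notMem hvT]

lemma CardS.we_kd {i : ℕ} {f : Finset σ → R} (hf : CardS i f) (X : σ → R) (v : σ) :
    CardS i (BE.we v (BE.kd X f)) := by
  intro T hT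
  unfold BE.we at hT
  split_ifs at hT with hv
  · rw [← hf.kd X (right_ne_zero_of_mul hT), Finset.card_erase_add_one hv]
  · exact absurd rfl hT

lemma CardS.sub {i : ℕ} {f g : Finset σ → R} (hf : CardS i f) (hg : CardS i g) :
    CardS i (f - g) := by
  intro T hT
  by_cases h : f T = 0
  · apply hg T
    intro h2
    apply hT
    rw [Pi.sub_apply, h, h2, sub_zero]
  · exact hf T h

end Contr

section Lifts

variable {n : ℕ} {K : Type*} [Field K]

/-- the cycle with leading part `lam` in multidegree `b` lifts to a cycle modulo `J_G` -/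
def Lift (G : SimpleGraph (Fin n)) (b : (Fin n ⊕ₗ Fin n) →₀ ℕ) (i : ℕ)
    (lam : Finset (Fin n ⊕ₗ Fin n) → K) : Prop :=
  ∃ f : Finset (Fin n ⊕ₗ Fin n) → MvPolynomial (Fin n ⊕ₗ Fin n) K,
    SpQ (fun i' b' => i' = i ∧ b'.degree = b.degree) f ∧
    (∀ T, kd (fun v => (MvPolynomial.X v : MvPolynomial (Fin n ⊕ₗ Fin n) K)) f T ∈ JG K G) ∧
    Flt (wt b) (f - mk b lam)

variable {G : SimpleGraph (Fin n)} {b : (Fin n ⊕ₗ Fin n) →₀ ℕ} {i : ℕ}
  {lam mu : Finset (Fin n ⊕ₗ Fin n) → K}

lemma Lift.add (h1 : Lift G b i lam) (h2 : Lift G b i mu) : Lift G b i (lam + mu) := by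
  obtain ⟨f, hf1, hf2, hf3⟩ := h1
  obtain ⟨g, hg1, hg2, hg3⟩ := h2
  refine ⟨f + g, hf1.add hg1, fun T => ?_, ?_⟩
  · rw [kd_add]
    exact Ideal.add_mem _ (hf2 T) (hg2 T)
  · rw [mk_add, add_sub_add_comm]
    exact hf3.add hg3

lemma Lift.sub (h1 : Lift G b i lam) (h2 : Lift G b i mu) : Lift G b i (lam - mu) := by
  obtain ⟨f, hf1, hf2, hf3⟩ := h1
  obtain ⟨g, hg1, hg2, hg3⟩ := h2
  refine ⟨f - g, hf1.sub hg1, fun T => ?_, ?_⟩
  · rw [kd_sub]
    exact Ideal.sub_mem _ (hf2 T) (hg2 T)
  · rw [mk_sub, sub_sub_sub_comm]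
    exact hf3.sub hg3

/-- chains supported on nonstandard monomials lift to chains with values in `J_G` -/
lemma lift_ns' (hS : Supp b lam) (hc : CardS i lam)
    (h : ∀ T, lam T ≠ 0 → NS G (b - ind T)) :
    ∃ f : Finset (Fin n ⊕ₗ Fin n) → MvPolynomial (Fin n ⊕ₗ Fin n) K,
    SpQ (fun i' b' => i' = i ∧ b'.degree = b.degree) f ∧
    (∀ T, f T ∈ JG K G) ∧ Flt (wt b) (f - mk b lam) := by
  classical
  have h1 : ∀ T, ∃ u' : (Fin n ⊕ₗ Fin n) →₀ ℕ, lam T ≠ 0 →
      wt u' < wt (b - ind T) ∧ u'.degree = (b - ind T).degree ∧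
      monomial (b - ind T) (1 : K) - monomial u' (1 : K) ∈ JG K G := by
    intro T
    by_cases hT : lam T = 0
    · exact ⟨0, fun h => absurd hT h⟩
    · obtain ⟨u', hu⟩ := exists_lift (K := K) (h T hT)
      exact ⟨u', fun _ => hu⟩
  choose u' hu' using h1
  have hle : ∀ T, lam T ≠ 0 → ind T + (b - ind T) = b := fun T hT => add_tsub_cancel_of_le (hS T hT)
  have hwt : ∀ T, lam T ≠ 0 → wt (ind T + u' T) < wt b := by
    intro T hT
    have h1 := (hu' T hT).1
    have h2 := congrArg wt (hle T hT)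
    rw [wt_add] at h2 ⊢
    omega
  refine ⟨fun T => monomial (b - ind T) (lam T) - monomial (u' T) (lam T), ?_, ?_, ?_⟩
  · intro T u hu
    change coeff u (monomial (b - ind T) (lam T) - monomial (u' T) (lam T)) ≠ 0 at hu
    have hT : lam T ≠ 0 := by
      rintro h0
      rw [h0] at hu
      simp at hu
    refine ⟨hc T hT, ?_⟩
    rw [coeff_sub, coeff_monomial, coeff_monomial] at hu
    by_cases h1 : b - ind T = u
    · rw [← h1, hle T hT]
    · by_cases h2 : u' T = u
      · rw [← h2, map_add, (hu' T hT).2.1, ← map_add, hle T hT]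
      · rw [if_neg h1, if_neg h2, sub_zero] at hu
        exact absurd rfl hu
  · intro T
    change monomial (b - ind T) (lam T) - monomial (u' T) (lam T) ∈ JG K G
    by_cases hT : lam T = 0
    · rw [hT, map_zero, map_zero, sub_zero]
      exact Ideal.zero_mem _
    · have h1 := (hu' _ hT).2.2
      have h2 : monomial (b - ind T) (lam T) -
          monomial (u' T) (lam T) = C (lam T) *
          (monomial (b - ind T) (1 : K) - monomial (u' T) (1 : K)) := by
        rw [mul_sub, C_mul_monomial, C_mul_monomial, mul_one]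
      rw [h2]
      exact Ideal.mul_mem_left _ _ h1
  · intro T u hu
    have h1 : ((fun T => monomial (b - ind T) (lam T) - monomial (u' T) (lam T)) - mk b lam) T =
        - monomial (u' T) (lam T) := by
      simp only [Pi.sub_apply, mk]
      ring
    rw [h1, coeff_neg, neg_ne_zero, coeff_monomial] at hu
    split_ifs at hu with h2
    · rw [← h2]
      exact_mod_cast hwt T hu
    · exact absurd rfl hu

/-- chains supported on nonstandard monomials lift -/
lemma lift_ns (hS : Supp b lam) (hc : CardS i lam)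
    (h : ∀ T, lam T ≠ 0 → NS G (b - ind T)) : Lift G b i lam := by
  obtain ⟨f, h1, h2, h3⟩ := lift_ns' hS hc h
  refine ⟨f, h1, fun T => ?_, h3⟩
  unfold kd
  exact Ideal.sum_mem _ fun v _ => Ideal.mul_mem_left _ _ (Ideal.mul_mem_left _ _ (h2 _))

/-- boundaries lift -/
lemma lift_kd (hS : Supp b mu) (hc : CardS (i + 1) mu) : Lift G b i (kd (fun _ => 1) mu) := by
  refine ⟨kd (fun v => (MvPolynomial.X v : MvPolynomial (Fin n ⊕ₗ Fin n) K)) (mk b mu), ?_, ?_, ?_⟩
  · rw [mk_kd hS]
    intro T u hu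
    have h1 : kd (fun _ => (1 : K)) mu T ≠ 0 := by
      intro h0
      rw [mk, h0] at hu
      simp at hu
    have h2 := hc.kd _ h1
    refine ⟨by omega, ?_⟩
    rw [mk, coeff_monomial] at hu
    split_ifs at hu with h3
    · rw [← h3, add_tsub_cancel_of_le (hS.kd T h1)]
    · exact absurd rfl hu
  · intro T
    rw [kd_kd]
    exact Ideal.zero_mem _
  · rw [mk_kd hS, sub_self]
    exact SpQ.zero

lemma Flt_mk (hS : Supp b lam) : Flt (wt b + 1) (mk b lam) := by
  intro T u hu
  rw [mk, coeff_monomial] at hu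
  split_ifs at hu with h3
  · rw [← h3, add_tsub_cancel_of_le (hS T hu)]
    exact lt_add_one _
  · exact absurd rfl hu

lemma Flt_of_lift {f : Finset (Fin n ⊕ₗ Fin n) → MvPolynomial (Fin n ⊕ₗ Fin n) K}
    (hS : Supp b lam) (hf : Flt (wt b) (f - mk b lam)) : Flt (wt b + 1) f := by
  have h : f = (f - mk b lam) + mk b lam := by abel
  rw [h]
  exact SpQ.add (Flt.mono (lt_add_one _).le hf) (Flt_mk hS)

/-- leading parts of cycles are cycles -/
lemma coc_of_lift (hG : IsClosedLabelling G) (h : Lift G b i lam) (hS : Supp b lam)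
    (T : Finset (Fin n ⊕ₗ Fin n)) (hT : ind T ≤ b) (hst : ¬ NS G (b - ind T)) :
    kd (fun _ => 1) lam T = 0 := by
  obtain ⟨f, -, hf2, hf3⟩ := h
  by_contra hne
  apply hst
  set Xf := fun v => (MvPolynomial.X v : MvPolynomial (Fin n ⊕ₗ Fin n) K) with hXf
  have hf4 := Flt_of_lift hS hf3
  have h1 : SpQ (fun _ b' => ((wt b' : ℕ) : ℤ) < wt b + 1) (kd Xf f) :=
    SpQ.kd (fun _ _ h => h) hf4
  have h2 : SpQ (fun _ b' => ((wt b' : ℕ) : ℤ) < wt b) (kd Xf (f - mk b lam)) :=
    SpQ.kd (fun _ _ h => h) hf3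
  have hwb : wt (ind T + (b - ind T)) = wt b := by rw [add_tsub_cancel_of_le hT]
  refine top_mem hG (hf2 T) (u := b - ind T) ?_ ?_
  · have e : kd Xf f T = kd Xf (f - mk b lam) T + kd Xf (mk b lam) T := by
      rw [kd_sub, Pi.sub_apply]; ring
    rw [e, coeff_add, mk_kd hS, mk, coeff_monomial, if_pos rfl]
    have : coeff (b - ind T) (kd Xf (f - mk b lam) T) = 0 := by
      by_contra hc
      have h3 : ((wt (ind T + (b - ind T)) : ℕ) : ℤ) < wt b := h2 T _ hc
      rw [hwb] at h3
      exact lt_irrefl _ h3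
    rw [this, zero_add]
    exact hne
  · intro u' hu'
    have h3 : ((wt (ind T + u') : ℕ) : ℤ) < wt b + 1 := h1 T u' hu'
    rw [wt_add] at h3 hwb
    have h4 : wt (ind T) + wt u' < wt b + 1 := by exact_mod_cast h3
    omega

/-! ### products with the cycles of a clique -/

lemma SpQ_Lop {i0 d0 : ℕ} {f : Finset (Fin n ⊕ₗ Fin n) → MvPolynomial (Fin n ⊕ₗ Fin n) K}
    (hf : SpQ (fun i' b' => i' = i0 ∧ b'.degree = d0) f) (ws : List (Fin n)) (q : ℕ) :
    SpQ (fun i' b' => i' = i0 + ws.length ∧ b'.degree = d0 + ws.length) (Lop xv yv ws f q) := by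
  induction ws generalizing q with
  | nil =>
    simp only [Lop, List.length_nil, add_zero]
    split_ifs
    · exact hf
    · exact SpQ.zero
  | cons w r ih =>
    simp only [Lop, Eop, List.length_cons]
    have hstep : ∀ (v : Fin n ⊕ₗ Fin n) (i' : ℕ) (b' : (Fin n ⊕ₗ Fin n) →₀ ℕ),
        (i' = i0 + r.length ∧ b'.degree = d0 + r.length) →
        (i' + 1 = i0 + (r.length + 1) ∧
          (b' + Finsupp.single v 1).degree = d0 + (r.length + 1)) := by
      rintro v i' b' ⟨h1, h2⟩
      refine ⟨by omega, ?_⟩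
      rw [map_add, h2, Finsupp.degree_single]
      ring
    refine SpQ.add (SpQ.we _ (hstep _) (ih q)) ?_
    cases q with
    | zero =>
      show SpQ _ (we (xv w) 0)
      rw [we_zero]
      exact SpQ.zero
    | succ q => exact SpQ.we _ (hstep _) (ih q)

lemma SpQ_Mop {i0 d0 : ℕ} {f : Finset (Fin n ⊕ₗ Fin n) → MvPolynomial (Fin n ⊕ₗ Fin n) K}
    (hf : SpQ (fun i' b' => i' = i0 ∧ b'.degree = d0) f) (ws : List (Fin n)) (q : ℕ) :
    SpQ (fun i' b' => i' + 1 = i0 + ws.length ∧ b'.degree = d0 + ws.length)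
      (Mop xv yv (fun v => (MvPolynomial.X v : MvPolynomial (Fin n ⊕ₗ Fin n) K)) ws f q) := by
  induction ws generalizing q with
  | nil => exact SpQ.zero
  | cons w r ih =>
    simp only [Mop, Eop, List.length_cons]
    have hstep : ∀ (v : Fin n ⊕ₗ Fin n) (i' : ℕ) (b' : (Fin n ⊕ₗ Fin n) →₀ ℕ),
        (i' + 1 = i0 + r.length ∧ b'.degree = d0 + r.length) →
        (i' + 1 + 1 = i0 + (r.length + 1) ∧
          (b' + Finsupp.single v 1).degree = d0 + (r.length + 1)) := by
      rintro v i' b' ⟨h1, h2⟩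
      refine ⟨by omega, ?_⟩
      rw [map_add, h2, Finsupp.degree_single]
      ring
    refine SpQ.sub ?_ (SpQ.add (SpQ.we _ (hstep _) (ih q)) ?_)
    · refine SpQ.X _ ?_ (SpQ_Lop hf r q)
      rintro i' b' ⟨h1, h2⟩
      refine ⟨by omega, ?_⟩
      rw [map_add, h2, Finsupp.degree_single]
      ring
    · cases q with
      | zero =>
        show SpQ _ (we (xv w) 0)
        rw [we_zero]
        exact SpQ.zero
      | succ q => exact SpQ.we _ (hstep _) (ih q)

lemma Flt_Wop {w : ℤ} {f : Finset (Fin n ⊕ₗ Fin n) → MvPolynomial (Fin n ⊕ₗ Fin n) K}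
    (hf : Flt w f) (B : List (Fin n)) : Flt (w + bsum B) (Wop yv B f) := by
  induction B with
  | nil => simpa [Wop, bsum] using hf
  | cons b r ih =>
    simp only [Wop, bsum]
    have := ih.wey b
    rwa [add_assoc, add_comm (bsum r)] at this

lemma Flt_Wopx {w : ℤ} {f : Finset (Fin n ⊕ₗ Fin n) → MvPolynomial (Fin n ⊕ₗ Fin n) K}
    (hf : Flt w f) (A : List (Fin n)) : Flt w (Wop xv A f) := by
  induction A with
  | nil => exact hf
  | cons b r ih => exact ih.wex b

lemma Flt_MXop {w : ℤ} {f : Finset (Fin n ⊕ₗ Fin n) → MvPolynomial (Fin n ⊕ₗ Fin n) K}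
    (hf : Flt w f) (A : List (Fin n)) :
    Flt w (MXop xv (fun v => (MvPolynomial.X v : MvPolynomial (Fin n ⊕ₗ Fin n) K)) A f) := by
  induction A with
  | nil => exact SpQ.zero
  | cons b r ih => exact SpQ.sub ((Flt_Wopx hf r).Xx b) (ih.wex b)

lemma rel_mem {u w : Fin n} (h : G.Adj w u) :
    (X (xv w) * X (yv u) - X (xv u) * X (yv w) : MvPolynomial (Fin n ⊕ₗ Fin n) K) ∈ JG K G := by
  rcases lt_or_gt_of_ne h.ne with hlt | hlt
  · exact Ideal.subset_span ⟨w, u, hlt, h, rfl⟩
  · have h1 : (X (xv u) * X (yv w) - X (xv w) * X (yv u) : MvPolynomial (Fin n ⊕ₗ Fin n) K) ∈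
        JG K G := Ideal.subset_span ⟨u, w, hlt, h.symm, rfl⟩
    have h2 := Ideal.neg_mem_iff _ |>.mpr h1
    rwa [neg_sub] at h2

lemma lift_prod {b₂ : (Fin n ⊕ₗ Fin n) →₀ ℕ} {i₂ : ℕ} {c : Finset (Fin n ⊕ₗ Fin n) → K}
    (A : List (Fin n)) (j : Fin n) (B : List (Fin n)) (hcl : ((j :: A) ++ B).Pairwise G.Adj)
    (hA : ∀ a ∈ A, a < j) (hB : ∀ b ∈ B, j < b) (hL : Lift G b₂ i₂ c) (hS : Supp b₂ c) :
    Lift G (b₂ + lsum yv B + lsum xv (j :: A)) (i₂ + A.length + B.length)
      (MXop xv (fun _ => (1 : K)) (j :: A) (Wop yv B c)) := by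
  obtain ⟨f, hf1, hf2, hf3⟩ := hL
  set Xf := fun v => (MvPolynomial.X v : MvPolynomial (Fin n ⊕ₗ Fin n) K) with hXf
  refine ⟨Mop xv yv Xf ((j :: A) ++ B) f A.length, ?_, ?_, ?_⟩
  · refine SpQ.mono ?_ (SpQ_Mop hf1 ((j :: A) ++ B) A.length)
    rintro i' b' ⟨h1, h2⟩
    have hl : ((j :: A) ++ B).length = A.length + 1 + B.length := by
      simp only [List.length_append, List.length_cons]
    rw [hl] at h1 h2
    refine ⟨by omega, ?_⟩
    rw [h2, map_add, map_add]
    have h3 : ∀ (z : Fin n → Fin n ⊕ₗ Fin n) (l : List (Fin n)), (lsum z l).degree = l.length := by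
      intro z l
      induction l with
      | nil => simp [lsum]
      | cons a r ih => simp only [lsum, List.length_cons]; rw [map_add, ih, Finsupp.degree_single]
    rw [h3, h3, List.length_cons]
    ring
  · intro T
    set π := Ideal.Quotient.mk (JG K G) with hπ
    have h1 : kd (fun v => π (Xf v)) (fun T => π (f T)) = 0 := by
      rw [← map_kd]
      funext T
      exact Ideal.Quotient.eq_zero_iff_mem.mpr (hf2 T)
    have h2 : kd (fun v => π (Xf v)) (fun T => π (Mop xv yv Xf ((j :: A) ++ B) f A.length T)) =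
        0 := by
      rw [map_Mop]
      refine kd_Mop xv yv _ _ ?_ h1 _
      refine hcl.imp ?_
      intro w u hwu
      rw [← map_mul, ← map_mul]
      exact Ideal.Quotient.eq.mpr (rel_mem hwu)
    rw [← map_kd] at h2
    exact Ideal.Quotient.eq_zero_iff_mem.mp (congrFun h2 T)
  · have hw : ((wt (b₂ + lsum yv B + lsum xv (j :: A)) : ℕ) : ℤ) = wt b₂ + bsum B := by
      rw [wt_add, wt_add, wt_lsum_x, add_zero]
      push_cast
      rw [wt_lsum_y]
    rw [hw]
    have h1 := Mtop ((j.val : ℤ) + 1) (j :: A) B (w := wt b₂) (f := f) ?_ ?_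
      (Flt_of_lift hS hf3) A.length rfl
    · have h2 := Flt_MXop (Flt_Wop hf3 B) (j :: A)
      rw [Wop_sub, MXop_sub, mk_Wop, mk_MXop _ _ (Supp_Wop yv B hS)] at h2
      have h3 := SpQ.add h1 h2
      rw [sub_add_sub_cancel] at h3
      exact h3
    · intro a ha
      rw [List.mem_cons] at ha
      rcases ha with rfl | ha
      · exact le_refl _
      · have := hA a ha
        have : a.val < j.val := this
        push_cast
        omega
    · intro b hb
      have := hB b hb
      have : j.val < b.val := this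
      push_cast
      omega

end Lifts

end Pool.Agent.TH47.BE
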