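import Mathlib
import Pool.Agent.TH47.BE.Lift

/-!
All homology classes of the initial ideal lift.
-/

set_option autoImplicit false
set_option linter.unusedSectionVars false

namespace Pool.Agent.TH47.BE

open Finset MvPolynomial

attribute [local instance 5000] LinearOrder.toDecidableEq

section Card

variable {σ : Type*} [Fintype σ] [LinearOrder σ] {R : Type*} [CommRing R] {ι : Type*}

lemma CardS.Wop {i : ℕ} {f : Finset σ → R} (hf : CardS i f) (z : ι → σ) (ws : List ι) :
    CardS (i + ws.length) (Wop z ws f) := by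
  induction ws with
  | nil => exact hf
  | cons w r ih => exact ih.we _

lemma CardS.MXop {i : ℕ} {f : Finset σ → R} (hf : CardS i f) (z : ι → σ) (X : σ → R)
    (ws : List ι) (T : Finset σ) (hT : MXop z X ws f T ≠ 0) : T.card + 1 = i + ws.length := by
  induction ws generalizing T with
  | nil => exact absurd rfl hT
  | cons w r ih =>
    simp only [BE.MXop] at hT
    rw [Pi.sub_apply, Pi.smul_apply] at hT
    by_cases h : BE.Wop z r f T = 0
    · rw [h, smul_zero, zero_sub, neg_ne_zero] at hT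
      unfold BE.we at hT
      split_ifs at hT with hv
      · have := ih _ (right_ne_zero_of_mul hT)
        rw [Finset.card_erase_add_one hv] at this
        rw [this, List.length_cons]
        ring
      · exact absurd rfl hT
    · rw [hf.Wop z r T h, List.length_cons]
      ring

lemma kd_ne {X : σ → R} {f : Finset σ → R} {T : Finset σ} (h : kd X f T ≠ 0) :
    ∃ v, v ∉ T ∧ f (insert v T) ≠ 0 := by
  unfold kd at h
  obtain ⟨v, hv, hv2⟩ := Finset.exists_ne_zero_of_sum_ne_zero h
  exact ⟨v, by simpa using hv, right_ne_zero_of_mul (right_ne_zero_of_mul hv2)⟩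

lemma kd_congr {X : σ → R} {f g : Finset σ → R} {T : Finset σ}
    (h : ∀ v, v ∉ T → f (insert v T) = g (insert v T)) : kd X f T = kd X g T := by
  unfold kd
  refine Finset.sum_congr rfl fun v hv => ?_
  rw [h v (by simpa using hv)]

end Card

variable {n : ℕ} {K : Type*} [Field K]

/-- cocycles in multidegree `b` -/
structure Coc (G : SimpleGraph (Fin n)) (b : (Fin n ⊕ₗ Fin n) →₀ ℕ) (i : ℕ)
    (lam : Finset (Fin n ⊕ₗ Fin n) → K) : Prop where
  supp : Supp b lam
  card : CardS i lam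
  kd : ∀ T, ind T ≤ b → ¬ NS G (b - ind T) → kd (fun _ => (1 : K)) lam T = 0

variable {G : SimpleGraph (Fin n)} {b : (Fin n ⊕ₗ Fin n) →₀ ℕ} {i : ℕ}
  {lam mu : Finset (Fin n ⊕ₗ Fin n) → K}

lemma Coc.sub (h1 : Coc G b i lam) (h2 : Coc G b i mu) : Coc G b i (lam - mu) := by
  refine ⟨h1.supp.sub h2.supp, h1.card.sub h2.card, fun T hT hst => ?_⟩
  rw [kd_sub, Pi.sub_apply, h1.kd T hT hst, h2.kd T hT hst, sub_zero]

lemma NS_mono {u u' : (Fin n ⊕ₗ Fin n) →₀ ℕ} (h : u ≤ u') (hu : NS G u) : NS G u' := by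
  obtain ⟨i, j, hij, hadj, h1, h2⟩ := hu
  refine ⟨i, j, hij, hadj, ?_, ?_⟩
  · have := h (xv i); omega
  · have := h (yv j); omega

lemma ind_mono {S T : Finset (Fin n ⊕ₗ Fin n)} (h : S ⊆ T) : ind S ≤ ind T := by
  rw [ind_le]
  intro v hv
  rw [ind_apply, if_pos (h hv)]
  exact one_ne_zero

open Classical in
/-- restriction to the standard part -/
noncomputable def rst (G : SimpleGraph (Fin n)) (b : (Fin n ⊕ₗ Fin n) →₀ ℕ)
    (lam : Finset (Fin n ⊕ₗ Fin n) → K) (T : Finset (Fin n ⊕ₗ Fin n)) : K :=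
  if NS G (b - ind T) then 0 else lam T

lemma rst_coc (h : Coc G b i lam) : Coc G b i (rst G b lam) := by
  classical
  have hne : ∀ T, rst G b lam T ≠ 0 → lam T ≠ 0 := by
    intro T hT
    unfold rst at hT
    split_ifs at hT
    · exact absurd rfl hT
    · exact hT
  refine ⟨fun T hT => h.supp T (hne T hT), fun T hT => h.card T (hne T hT), fun T hT hst => ?_⟩
  rw [← h.kd T hT hst]
  refine kd_congr fun v hv => ?_
  unfold rst
  rw [if_neg]
  intro hns
  apply hst
  exact NS_mono (tsub_le_tsub_left (ind_mono (Finset.subset_insert v T)) b) hns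

lemma lift_of_rst (h : Coc G b i lam) (hl : Lift G b i (rst G b lam)) : Lift G b i lam := by
  classical
  have h1 : Lift G b i (lam - rst G b lam) := by
    refine lift_ns (h.supp.sub (rst_coc h).supp) (h.card.sub (rst_coc h).card) ?_
    intro T hT
    by_contra hst
    apply hT
    rw [Pi.sub_apply, rst, if_neg hst, sub_self]
  have h2 := h1.add hl
  rwa [sub_add_cancel] at h2

lemma coc_kd {mu : Finset (Fin n ⊕ₗ Fin n) → K} (hS : Supp b mu) (hc : CardS (i + 1) mu) :
    Coc G b i (kd (fun _ => (1 : K)) mu) := by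
  refine ⟨hS.kd, fun T hT => ?_, fun T _ _ => ?_⟩
  · have := hc.kd _ hT
    omega
  · rw [kd_kd]; rfl

/-- a variable which can be split off -/
lemma lift_removable (h : Coc G b i lam) (v : Fin n ⊕ₗ Fin n) (hv : b v ≠ 0)
    (hr : ∀ T, v ∉ T → ind T ≤ b → NS G (b - ind T) → NS G (b - ind T - Finsupp.single v 1)) :
    Lift G b i lam := by
  have e : lam = kd (fun _ => (1 : K)) (we v lam) + we v (kd (fun _ => (1 : K)) lam) := by
    rw [kd_we, one_smul]
    abel
  rw [e]
  refine Lift.add (lift_kd (h.supp.we' hv) (h.card.we v)) ?_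
  refine lift_ns (h.supp.kd.we' hv) (h.card.we_kd _ v) ?_
  intro T hT
  unfold we at hT
  split_ifs at hT with hvT
  · have h1 := right_ne_zero_of_mul hT
    have h2 := h.supp.kd _ h1
    have h3 : NS G (b - ind (T.erase v)) := by
      by_contra hst
      exact h1 (h.kd _ h2 hst)
    have h4 := hr _ (Finset.notMem_erase v T) h2 h3
    rwa [tsub_tsub, ← ind_erase hvT] at h4
  · exact absurd rfl hT

lemma NS_ind {W T : Finset (Fin n ⊕ₗ Fin n)} : NS G (ind W - ind T) ↔
    ∃ i j : Fin n, i < j ∧ G.Adj i j ∧ (xv i ∈ W ∧ xv i ∉ T) ∧ (yv j ∈ W ∧ yv j ∉ T) := by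
  have key : ∀ v, (ind W - ind T) v ≠ 0 ↔ (v ∈ W ∧ v ∉ T) := by
    intro v
    rw [Finsupp.tsub_apply, ind_apply, ind_apply]
    by_cases h1 : v ∈ W <;> by_cases h2 : v ∈ T <;> simp [h1, h2]
  unfold NS
  simp only [key]

lemma ind_le_ind {W T : Finset (Fin n ⊕ₗ Fin n)} : ind T ≤ ind W ↔ T ⊆ W := by
  rw [ind_le]
  constructor
  · intro h v hv
    have := h v hv
    rw [ind_apply] at this
    by_contra hcon
    rw [if_neg hcon] at this
    exact this rfl
  · intro h v hv
    rw [ind_apply, if_pos (h hv)]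
    exact one_ne_zero

lemma lsum_toList (z : Fin n → Fin n ⊕ₗ Fin n) (hz : Function.Injective z) (s : Finset (Fin n)) :
    lsum z s.toList = ind (s.image z) := by
  have h1 : ∀ l : List (Fin n), lsum z l = (l.map fun w => Finsupp.single (z w) 1).sum := by
    intro l
    induction l with
    | nil => simp [lsum]
    | cons a r ih => simp only [lsum, List.map_cons, List.sum_cons]; rw [ih, add_comm]
  rw [h1, Finset.sum_map_toList]
  unfold ind
  rw [Finset.sum_image (fun a _ b _ h => hz h)]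

lemma MXop_zero (A : List (Fin n)) (X : (Fin n ⊕ₗ Fin n) → K) :
    MXop xv X A (0 : Finset (Fin n ⊕ₗ Fin n) → K) = 0 := by
  have := MXop_sub xv X A (0 : Finset (Fin n ⊕ₗ Fin n) → K) 0
  rwa [sub_self, sub_self] at this

lemma Wop_zero (A : List (Fin n)) :
    Wop yv A (0 : Finset (Fin n ⊕ₗ Fin n) → K) = 0 := by
  have := Wop_sub yv A (0 : Finset (Fin n ⊕ₗ Fin n) → K) 0
  rwa [sub_self, sub_self] at this

lemma lift_zero : Lift G b i (0 : Finset (Fin n ⊕ₗ Fin n) → K) :=
  lift_ns (fun _ hT => absurd rfl hT) (fun _ hT => absurd rfl hT) (fun _ hT => absurd rfl hT)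

/-- the squarefree step -/
lemma lift_sqfree (hG : IsClosedLabelling G) {W : Finset (Fin n ⊕ₗ Fin n)}
    (h : Coc G (ind W) i lam) (b0 : Fin n) (hb0 : yv b0 ∈ W) (hmax : ∀ k, yv k ∈ W → k ≤ b0)
    (hA : ∃ a, xv a ∈ W ∧ a < b0 ∧ G.Adj a b0)
    (IH : ∀ (b' : (Fin n ⊕ₗ Fin n) →₀ ℕ) (i' : ℕ) (lam' : Finset (Fin n ⊕ₗ Fin n) → K),
      b'.degree < (ind W).degree → Coc G b' i' lam' → Lift G b' i' lam') :
    Lift G (ind W) i lam := by
  classical
  -- the vertices
  set As := univ.filter (fun a : Fin n => xv a ∈ W ∧ a < b0 ∧ G.Adj a b0) with hAs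
  have hAmem : ∀ a, a ∈ As ↔ (xv a ∈ W ∧ a < b0 ∧ G.Adj a b0) := by
    intro a; rw [hAs]; simp
  have hAne : As.Nonempty := by
    obtain ⟨a, ha⟩ := hA
    exact ⟨a, (hAmem a).mpr ha⟩
  set j := As.max' hAne with hj
  have hjA : j ∈ As := Finset.max'_mem _ _
  have hjmax : ∀ a ∈ As, a ≤ j := fun a ha => Finset.le_max' _ _ ha
  clear_value j
  obtain ⟨hjW, hjb, hjadj⟩ := (hAmem j).mp hjA
  set Bs := univ.filter (fun k : Fin n => yv k ∈ W ∧ j < k ∧ G.Adj j k) with hBs
  have hBmem : ∀ a, a ∈ Bs ↔ (yv a ∈ W ∧ j < a ∧ G.Adj j a) := by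
    intro a; rw [hBs]; simp
  set A' := As.erase j with hA'
  have hA'mem : ∀ a, a ∈ A' ↔ (a ∈ As ∧ a ≠ j) := by
    intro a; rw [hA', Finset.mem_erase, and_comm]
  have hA'lt : ∀ a ∈ A', a < j := by
    intro a ha
    obtain ⟨h1, h2⟩ := (hA'mem a).mp ha
    exact lt_of_le_of_ne (hjmax a h1) h2
  -- adjacency between the parts
  have hkb : ∀ k ∈ Bs, k = b0 ∨ (k < b0 ∧ G.Adj k b0) := by
    intro k hk
    obtain ⟨h1, h2, h3⟩ := (hBmem k).mp hk
    by_cases hkb0 : k = b0
    · exact Or.inl hkb0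
    · right
      exact ⟨lt_of_le_of_ne (hmax k h1) hkb0, hG.up j k b0 h2 hjb hkb0 h3 hjadj⟩
  have hAB : ∀ a ∈ As, ∀ k ∈ Bs, G.Adj a k := by
    intro a ha k hk
    obtain ⟨h1, h2, h3⟩ := (hAmem a).mp ha
    obtain ⟨h4, h5, h6⟩ := (hBmem k).mp hk
    have hak : a < k := lt_of_le_of_lt (hjmax a ha) h5
    rcases hkb k hk with h7 | ⟨h7, h8⟩
    · rw [h7]; exact h3
    · exact hG.down a k b0 h2 h7 hak.ne h3 h8
  have hAA : ∀ a ∈ As, ∀ a' ∈ As, a ≠ a' → G.Adj a a' := by
    intro a ha a' ha' hne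
    obtain ⟨h1, h2, h3⟩ := (hAmem a).mp ha
    obtain ⟨h4, h5, h6⟩ := (hAmem a').mp ha'
    exact hG.down a a' b0 h2 h5 hne h3 h6
  have hBB : ∀ a ∈ Bs, ∀ a' ∈ Bs, a ≠ a' → G.Adj a a' := by
    intro a ha a' ha' hne
    obtain ⟨h1, h2, h3⟩ := (hBmem a).mp ha
    obtain ⟨h4, h5, h6⟩ := (hBmem a').mp ha'
    exact hG.up j a a' h2 h5 hne h3 h6
  -- lists
  set A := A'.toList with hAl
  set B := Bs.toList with hBl
  have hAlm : ∀ a, a ∈ A ↔ a ∈ A' := fun a => Finset.mem_toList
  have hBlm : ∀ a, a ∈ B ↔ a ∈ Bs := fun a => Finset.mem_toList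
  have hAnd : A.Nodup := Finset.nodup_toList _
  have hBnd : B.Nodup := Finset.nodup_toList _
  have hcl : ((j :: A) ++ B).Pairwise G.Adj := by
    have hnd : ((j :: A) ++ B).Nodup := by
      rw [List.nodup_append]
      refine ⟨?_, hBnd, ?_⟩
      · rw [List.nodup_cons]
        refine ⟨?_, hAnd⟩
        rw [hAlm, hA'mem]
        exact fun h => h.2 rfl
      · intro a ha k hk
        rw [List.mem_cons, hAlm] at ha
        rw [hBlm, hBmem] at hk
        rcases ha with rfl | ha
        · exact hk.2.1.ne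
        · exact ((hA'lt a ha).trans hk.2.1).ne
    refine hnd.imp_of_mem ?_
    intro a k ha hk hne
    have hm : ∀ a, a ∈ (j :: A) ++ B → a ∈ As ∨ a ∈ Bs := by
      intro a ha
      rw [List.mem_append, List.mem_cons, hAlm, hBlm] at ha
      rcases ha with (rfl | ha) | ha
      · exact Or.inl hjA
      · exact Or.inl ((hA'mem a).mp ha).1
      · exact Or.inr ha
    rcases hm a ha with h1 | h1 <;> rcases hm k hk with h2 | h2
    · exact hAA a h1 k h2 hne
    · exact hAB a h1 k h2
    · exact (hAB k h2 a h1).symm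
    · exact hBB a h1 k h2 hne
  have hxA : ∀ a ∈ As, xv a ∈ W := fun a ha => ((hAmem a).mp ha).1
  have hyB : ∀ k ∈ Bs, yv k ∈ W := fun k hk => ((hBmem k).mp hk).1
  -- step 1
  set f0 : Finset (Fin n ⊕ₗ Fin n) → K := fun T => if ∀ a ∈ As, xv a ∈ T then lam T else 0 with hf0
  have hf0ne : ∀ T, f0 T ≠ 0 → lam T ≠ 0 := by
    intro T hT
    simp only [hf0] at hT
    split_ifs at hT
    · exact hT
    · exact absurd rfl hT
  have hf0s : Supp (ind W) f0 := fun T hT => h.supp T (hf0ne T hT)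
  have hf0c : CardS i f0 := fun T hT => h.card T (hf0ne T hT)
  have hWy : ind W (yv b0) ≠ 0 := by rw [ind_apply, if_pos hb0]; exact one_ne_zero
  have hWj : ind W (xv j) ≠ 0 := by rw [ind_apply, if_pos hjW]; exact one_ne_zero
  have hmu_s : Supp (ind W) (we (yv b0) f0) := hf0s.we' hWy
  have hmu_c : CardS (i + 1) (we (yv b0) f0) := hf0c.we _
  set lam' := lam - kd (fun _ => (1 : K)) (we (yv b0) f0) with hlam'
  have hcoc' : Coc G (ind W) i lam' := h.sub (coc_kd hmu_s hmu_c)
  have hvan' : ∀ T, T ⊆ W → ¬ NS G (ind W - ind T) → (∀ a ∈ As, xv a ∈ T) → lam' T = 0 := by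
    intro T hTW hst hTA
    have e1 : lam' T = lam T - f0 T + we (yv b0) (kd (fun _ => (1 : K)) f0) T := by
      rw [hlam', kd_we, one_smul]
      simp only [Pi.sub_apply]
      ring
    have e2 : f0 T = lam T := if_pos hTA
    have e3 : we (yv b0) (kd (fun _ => (1 : K)) f0) T = 0 := by
      unfold we
      split_ifs with hy
      · have hsub : T.erase (yv b0) ⊆ W := (Finset.erase_subset _ _).trans hTW
        have hA2 : ∀ a ∈ As, xv a ∈ T.erase (yv b0) := fun a ha =>
          Finset.mem_erase.mpr ⟨xv_ne_yv a b0, hTA a ha⟩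
        have hst2 : ¬ NS G (ind W - ind (T.erase (yv b0))) := by
          rw [NS_ind]
          rintro ⟨p, q, hpq, hadj, ⟨h1, h2⟩, ⟨h3, h4⟩⟩
          by_cases hq : q = b0
          · subst hq
            exact h2 (hA2 p ((hAmem p).mpr ⟨h1, hpq, hadj⟩))
          · apply hst
            rw [NS_ind]
            refine ⟨p, q, hpq, hadj, ⟨h1, fun hh => h2 ?_⟩, ⟨h3, fun hh => h4 ?_⟩⟩
            · exact Finset.mem_erase.mpr ⟨xv_ne_yv p b0, hh⟩
            · exact Finset.mem_erase.mpr ⟨fun hh2 => hq (yv_inj.mp hh2), hh⟩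
        have h5 := h.kd _ (ind_le_ind.mpr hsub) hst2
        have h6 : kd (fun _ => (1 : K)) f0 (T.erase (yv b0)) =
            kd (fun _ => (1 : K)) lam (T.erase (yv b0)) := by
          refine kd_congr fun v _ => ?_
          exact if_pos fun a ha => Finset.mem_insert_of_mem (hA2 a ha)
        rw [h6, h5, mul_zero]
      · rfl
    rw [e1, e2, e3]
    ring
  -- it is enough to lift the standard part of `lam'`
  suffices hgoal : Lift G (ind W) i (rst G (ind W) lam') by
    have h1 := lift_of_rst hcoc' hgoal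
    have h2 := h1.add (lift_kd hmu_s hmu_c)
    rwa [hlam', sub_add_cancel] at h2
  set lam1 := rst G (ind W) lam' with hlam1
  have hcoc1 : Coc G (ind W) i lam1 := rst_coc hcoc'
  have hsub1 : ∀ T, lam1 T ≠ 0 → T ⊆ W := fun T hT => ind_le_ind.mp (hcoc1.supp T hT)
  have hst1 : ∀ T, lam1 T ≠ 0 → ¬ NS G (ind W - ind T) := by
    intro T hT hns
    exact hT (if_pos hns)
  have hvan1 : ∀ T, (∀ a ∈ As, xv a ∈ T) → lam1 T = 0 := by
    intro T hTA
    by_contra hne
    apply hne
    rw [hlam1, rst, if_neg (hst1 T hne)]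
    exact hvan' T (hsub1 T hne) (hst1 T hne) hTA
  clear_value lam1
  clear hvan' hcoc' hmu_s hmu_c hf0c hf0s hf0ne
  -- step 2
  set l1 : Finset (Fin n ⊕ₗ Fin n) → K := fun T => if xv j ∈ T then 0 else lam1 T with hl1
  set ws := A.map xv ++ B.map yv with hws
  have hwsm : ∀ v, v ∈ ws ↔ ((∃ a ∈ A', xv a = v) ∨ ∃ k ∈ Bs, yv k = v) := by
    intro v
    rw [hws, List.mem_append, List.mem_map, List.mem_map]
    simp only [hAlm, hBlm]
  have hwsnd : ws.Nodup := by
    rw [hws, List.nodup_append]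
    refine ⟨hAnd.map fun a b h => xv_inj.mp h, hBnd.map fun a b h => yv_inj.mp h, ?_⟩
    intro a ha k hk
    rw [List.mem_map] at ha hk
    obtain ⟨a', _, rfl⟩ := ha
    obtain ⟨k', _, rfl⟩ := hk
    exact xv_ne_yv a' k'
  have hwsW : ∀ v ∈ ws, v ∈ W := by
    intro v hv
    rcases (hwsm v).mp hv with ⟨a, ha, rfl⟩ | ⟨k, hk, rfl⟩
    · exact hxA a ((hA'mem a).mp ha).1
    · exact hyB k hk
  have hjws : xv j ∉ ws := by
    rw [hwsm]
    rintro (⟨a, ha, h1⟩ | ⟨k, _, h1⟩)
    · exact ((hA'mem a).mp ha).2 (xv_inj.mp h1)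
    · exact xv_ne_yv j k h1.symm
  have hl1ne : ∀ T, l1 T ≠ 0 → xv j ∉ T ∧ lam1 T ≠ 0 := by
    intro T hT
    simp only [hl1] at hT
    split_ifs at hT with h1
    · exact absurd rfl hT
    · exact ⟨h1, hT⟩
  set c := Cop ws l1 with hc
  have hcne : ∀ S, c S ≠ 0 → xv j ∉ S ∧ (∀ s ∈ ws, s ∉ S) ∧ lam1 (S ∪ ws.toFinset) ≠ 0 := by
    intro S hS
    refine ⟨fun h1 => hS ?_, fun s hs h1 => hS ?_, ?_⟩
    · exact Cop_van ws (s := xv j) (fun S hS => if_pos hS) S h1
    · exact Cop_van' ws l1 s hs S h1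
    · obtain ⟨a, ha⟩ := Cop_val ws l1 S
      rw [← hc] at ha
      rw [ha] at hS
      exact (hl1ne _ (right_ne_zero_of_mul hS)).2
  set W2 := W.filter (fun v => v ≠ xv j ∧ v ∉ ws) with hW2
  have hW2m : ∀ v, v ∈ W2 ↔ (v ∈ W ∧ v ≠ xv j ∧ v ∉ ws) := by
    intro v; rw [hW2, Finset.mem_filter]
  have hcW2 : ∀ S, c S ≠ 0 → S ⊆ W2 := by
    intro S hS v hv
    obtain ⟨h1, h2, h3⟩ := hcne S hS
    rw [hW2m]
    refine ⟨hsub1 _ h3 (Finset.mem_union_left _ hv), ?_, fun hv2 => h2 v hv2 hv⟩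
    rintro rfl
    exact h1 hv
  have hcsupp : Supp (ind W2) c := fun S hS => ind_le_ind.mpr (hcW2 S hS)
  have hccard : ∀ S, c S ≠ 0 → S.card + ws.length = i := by
    intro S hS
    obtain ⟨h1, h2, h3⟩ := hcne S hS
    have h4 := hcoc1.card _ h3
    rw [Finset.card_union_of_disjoint, List.toFinset_card_of_nodup hwsnd] at h4
    · exact h4
    · rw [Finset.disjoint_left]
      intro v hv hv2
      exact h2 v (List.mem_toFinset.mp hv2) hv
  -- the standard sets
  have hstd : ∀ T, ¬ NS G (ind W - ind T) → xv j ∉ T → ∀ k ∈ Bs, yv k ∈ T := by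
    intro T hst hjT k hk
    by_contra hkT
    apply hst
    rw [NS_ind]
    obtain ⟨h1, h2, h3⟩ := (hBmem k).mp hk
    exact ⟨j, k, h2, h3, ⟨hjW, hjT⟩, ⟨h1, hkT⟩⟩
  have hckd : ∀ S, ind S ≤ ind W2 → ¬ NS G (ind W2 - ind S) →
      kd (fun _ => (1 : K)) c S = 0 := by
    intro S hS hst
    rw [ind_le_ind] at hS
    obtain ⟨a, ha⟩ := kd_Cop (fun _ => (1 : K)) ws l1 S
    obtain ⟨a', ha'⟩ := Cop_val ws (kd (fun _ => (1 : K)) l1) S
    rw [hc, ha, ha']
    have hTW : S ∪ ws.toFinset ⊆ W := by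
      intro v hv
      rw [Finset.mem_union, List.mem_toFinset] at hv
      rcases hv with hv | hv
      · exact ((hW2m v).mp (hS hv)).1
      · exact hwsW v hv
    have hjT : xv j ∉ S ∪ ws.toFinset := by
      rw [Finset.mem_union, List.mem_toFinset]
      rintro (hv | hv)
      · exact ((hW2m _).mp (hS hv)).2.1 rfl
      · exact hjws hv
    have hstT : ¬ NS G (ind W - ind (S ∪ ws.toFinset)) := by
      rw [NS_ind]
      rintro ⟨p, q, hpq, hadj, ⟨h1, h2⟩, ⟨h3, h4⟩⟩
      rw [Finset.mem_union, List.mem_toFinset, not_or] at h2 h4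
      apply hst
      rw [NS_ind]
      have hqj : yv q ≠ xv j := fun h => xv_ne_yv j q h.symm
      have hpj : p ≠ j := by
        rintro rfl
        exact h4.2 ((hwsm _).mpr (Or.inr ⟨q, (hBmem q).mpr ⟨h3, hpq, hadj⟩, rfl⟩))
      refine ⟨p, q, hpq, hadj, ⟨(hW2m _).mpr ⟨h1, fun h => hpj (xv_inj.mp h), h2.2⟩, h2.1⟩,
        ⟨(hW2m _).mpr ⟨h3, hqj, h4.2⟩, h4.1⟩⟩
    have h1 := hcoc1.kd _ (ind_le_ind.mpr hTW) hstT
    have h2 : kd (fun _ => (1 : K)) l1 (S ∪ ws.toFinset) =
        kd (fun _ => (1 : K)) lam1 (S ∪ ws.toFinset) := by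
      refine kd_congr fun v hv => ?_
      by_cases hvj : v = xv j
      · have h3 : l1 (insert v (S ∪ ws.toFinset)) = 0 :=
          if_pos (by rw [hvj]; exact Finset.mem_insert_self _ _)
        have h4 : lam1 (insert v (S ∪ ws.toFinset)) = 0 := by
          refine hvan1 _ fun a ha => ?_
          by_cases haj : a = j
          · rw [haj, hvj]; exact Finset.mem_insert_self _ _
          · refine Finset.mem_insert_of_mem (Finset.mem_union_right _ (List.mem_toFinset.mpr ?_))
            exact (hwsm _).mpr (Or.inl ⟨a, (hA'mem a).mpr ⟨ha, haj⟩, rfl⟩)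
        rw [h3, h4]
      · refine if_neg ?_
        rw [Finset.mem_insert, not_or]
        exact ⟨fun h => hvj h.symm, hjT⟩
    rw [h2, h1]
    ring
  -- the multidegree
  have hW : ind W = ind W2 + lsum yv B + lsum xv (j :: A) := by
    have h1 : lsum xv (j :: A) = ind (As.image xv) := by
      simp only [lsum]
      rw [hAl, lsum_toList xv (fun a b h => xv_inj.mp h), ← ind_insert]
      · rw [hA', ← Finset.image_insert, Finset.insert_erase hjA]
      · rw [Finset.mem_image]
        rintro ⟨a, ha, h1⟩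
        exact ((hA'mem a).mp ha).2 (xv_inj.mp h1)
    rw [h1, hBl, lsum_toList yv (fun a b h => yv_inj.mp h)]
    have h2 : ∀ S T : Finset (Fin n ⊕ₗ Fin n), Disjoint S T → ind (S ∪ T) = ind S + ind T := by
      intro S T hST
      unfold ind
      exact Finset.sum_union hST
    rw [← h2, ← h2]
    · congr 1
      ext v
      simp only [Finset.mem_union, hW2m, hwsm, Finset.mem_image]
      constructor
      · intro hv
        by_cases h3 : ∃ k ∈ Bs, yv k = v
        · exact Or.inl (Or.inr h3)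
        by_cases h4 : ∃ a ∈ As, xv a = v
        · exact Or.inr h4
        refine Or.inl (Or.inl ⟨hv, ?_, ?_⟩)
        · rintro rfl
          exact h4 ⟨j, hjA, rfl⟩
        · rintro (⟨a, ha, h5⟩ | h5)
          · exact h4 ⟨a, ((hA'mem a).mp ha).1, h5⟩
          · exact h3 h5
      · rintro ((⟨hv, -, -⟩ | ⟨k, hk, rfl⟩) | ⟨a, ha, rfl⟩)
        · exact hv
        · exact hyB k hk
        · exact hxA a ha
    · rw [Finset.disjoint_left]
      intro v hv hv2
      rw [Finset.mem_image] at hv2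
      obtain ⟨a, ha, rfl⟩ := hv2
      rw [Finset.mem_union, hW2m, Finset.mem_image] at hv
      rcases hv with ⟨-, h3, h4⟩ | ⟨k, -, h3⟩
      · by_cases haj : a = j
        · exact h3 (by rw [haj])
        · exact h4 ((hwsm _).mpr (Or.inl ⟨a, (hA'mem a).mpr ⟨ha, haj⟩, rfl⟩))
      · exact xv_ne_yv a k h3.symm
    · rw [Finset.disjoint_left]
      intro v hv hv2
      rw [Finset.mem_image] at hv2
      obtain ⟨k, hk, rfl⟩ := hv2
      rw [hW2m] at hv
      exact hv.2.2 ((hwsm _).mpr (Or.inr ⟨k, hk, rfl⟩))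
  -- the product
  set P := MXop xv (fun _ => (1 : K)) (j :: A) (Wop yv B c) with hP
  have hPsupp : Supp (ind W) P := by
    rw [hW]
    exact Supp_MXop xv (j :: A) (Supp_Wop yv B hcsupp)
  have hlen : ws.length = A.length + B.length := by
    rw [hws, List.length_append, List.length_map, List.length_map]
  have hPlift : Lift G (ind W) i P ∧ CardS i P := by
    by_cases hle : ws.length ≤ i
    · obtain ⟨i2, rfl⟩ := Nat.exists_eq_add_of_le hle
      have hcc : CardS i2 c := by
        intro S hS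
        have := hccard S hS
        omega
      have hcL : Lift G (ind W2) i2 c := by
        refine IH _ _ _ ?_ ⟨hcsupp, hcc, hckd⟩
        rw [degree_ind, degree_ind]
        refine Finset.card_lt_card ?_
        rw [Finset.ssubset_iff_of_subset (Finset.filter_subset _ _)]
        refine ⟨xv j, hjW, ?_⟩
        rw [hW2m]
        exact fun h => h.2.1 rfl
      have hlt : ∀ b ∈ B, j < b := fun b hb => ((hBmem b).mp ((hBlm b).mp hb)).2.1
      have hlt' : ∀ a ∈ A, a < j := fun a ha => hA'lt a ((hAlm a).mp ha)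
      have h1 := lift_prod A j B hcl hlt' hlt hcL hcsupp
      rw [← hW, ← hP] at h1
      have h2 : i2 + A.length + B.length = ws.length + i2 := by rw [hlen]; ring
      rw [h2] at h1
      refine ⟨h1, ?_⟩
      intro T hT
      have h3 := (hcc.Wop yv B).MXop xv (fun _ => (1 : K)) (j :: A) T hT
      rw [List.length_cons] at h3
      omega
    · have hc0 : c = 0 := by
        funext S
        by_contra hS
        have := hccard S hS
        omega
      have hP0 : P = 0 := by
        rw [hP, hc0, Wop_zero, MXop_zero]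
      rw [hP0]
      exact ⟨lift_zero, fun T hT => absurd rfl hT⟩
  obtain ⟨hPlift, hPcard⟩ := hPlift
  have hPcoc : Coc G (ind W) i P := ⟨hPsupp, hPcard, coc_of_lift hG hPlift hPsupp⟩
  have hWopc : ∀ T, Wop xv A (Wop yv B c) T = if ∀ w ∈ ws, w ∈ T then l1 T else 0 := by
    intro T
    rw [Wop_map xv, Wop_map yv, ← Wop_id_append, ← hws, hc]
    convert Wop_Cop ws hwsnd l1 T
  have hPe : ∀ T, P T = Wop xv A (Wop yv B c) T -
      we (xv j) (MXop xv (fun _ => (1 : K)) A (Wop yv B c)) T := by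
    intro T
    rw [hP]
    simp only [MXop]
    rw [Pi.sub_apply, one_smul]
  have hP1 : ∀ T, T ⊆ W → ¬ NS G (ind W - ind T) → xv j ∉ T → (∀ a ∈ A', xv a ∈ T) →
      P T = lam1 T := by
    intro T hTW hst hjT hTA
    rw [hPe, hWopc, if_pos]
    · have h1 : we (xv j) (MXop xv (fun _ => (1 : K)) A (Wop yv B c)) T = 0 := if_neg hjT
      rw [h1, sub_zero]
      exact if_neg hjT
    · intro w hw
      rcases (hwsm w).mp hw with ⟨a, ha, rfl⟩ | ⟨k, hk, rfl⟩
      · exact hTA a ha
      · exact hstd T hst hjT k hk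
  have hP2 : ∀ T, (∀ a ∈ As, xv a ∈ T) → P T = 0 := by
    intro T hTA
    have hjT : xv j ∈ T := hTA j hjA
    have h1 : l1 T = 0 := if_pos hjT
    rw [hPe, hWopc, h1, ite_self, zero_sub, neg_eq_zero]
    unfold we
    rw [if_pos hjT, MXop_van, mul_zero]
    · exact hAnd.map fun a b h => xv_inj.mp h
    · intro a ha S hS
      refine Wop_van B (s := xv a) (fun w _ h => xv_ne_yv a w h.symm) ?_ S hS
      rw [hc]
      exact Cop_van' ws l1 _ ((hwsm _).mpr (Or.inl ⟨a, (hAlm a).mp ha, rfl⟩))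
    · intro a ha
      have ha' := (hA'mem a).mp ((hAlm a).mp ha)
      exact Finset.mem_erase.mpr ⟨fun h => ha'.2 (xv_inj.mp h), hTA a ha'.1⟩
  -- step 3
  suffices hgoal : Lift G (ind W) i (rst G (ind W) (lam1 - P)) by
    have h1 := lift_of_rst (hcoc1.sub hPcoc) hgoal
    have h2 := h1.add hPlift
    rwa [sub_add_cancel] at h2
  set lam2 := rst G (ind W) (lam1 - P) with hlam2
  have hcoc2 : Coc G (ind W) i lam2 := rst_coc (hcoc1.sub hPcoc)
  have hsub2 : ∀ T, lam2 T ≠ 0 → T ⊆ W := fun T hT => ind_le_ind.mp (hcoc2.supp T hT)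
  have hst2 : ∀ T, lam2 T ≠ 0 → ¬ NS G (ind W - ind T) := by
    intro T hT hns
    exact hT (if_pos hns)
  have hvan2 : ∀ T, (∀ a ∈ A', xv a ∈ T) → lam2 T = 0 := by
    intro T hTA
    by_contra hne
    apply hne
    rw [hlam2, rst, if_neg (hst2 T hne), Pi.sub_apply]
    by_cases hjT : xv j ∈ T
    · have hTA' : ∀ a ∈ As, xv a ∈ T := by
        intro a ha
        by_cases haj : a = j
        · rw [haj]; exact hjT
        · exact hTA a ((hA'mem a).mpr ⟨ha, haj⟩)
      rw [hvan1 T hTA', hP2 T hTA', sub_zero]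
    · rw [hP1 T (hsub2 T hne) (hst2 T hne) hjT hTA, sub_self]
  have e : lam2 = kd (fun _ => (1 : K)) (we (xv j) lam2) +
      we (xv j) (kd (fun _ => (1 : K)) lam2) := by
    rw [kd_we, one_smul]
    abel
  rw [e]
  refine Lift.add (lift_kd (hcoc2.supp.we' hWj) (hcoc2.card.we (xv j))) ?_
  refine lift_ns (hcoc2.supp.kd.we' hWj) (hcoc2.card.we_kd _ (xv j)) ?_
  intro T hT
  unfold we at hT
  split_ifs at hT with hjT
  · have h1 := right_ne_zero_of_mul hT
    have h2 := hcoc2.supp.kd _ h1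
    by_contra hst
    have h3 : NS G (ind W - ind (T.erase (xv j))) := by
      by_contra hst'
      exact h1 (hcoc2.kd _ h2 hst')
    rw [NS_ind] at h3
    obtain ⟨p, q, hpq, hadj, ⟨h4, h5⟩, ⟨h6, h7⟩⟩ := h3
    have h7' : yv q ∉ T := fun hh =>
      h7 (Finset.mem_erase.mpr ⟨fun h => xv_ne_yv j q h.symm, hh⟩)
    have hpj : p = j := by
      by_contra hpj
      apply hst
      rw [NS_ind]
      refine ⟨p, q, hpq, hadj, ⟨h4, fun hh => h5 ?_⟩, ⟨h6, h7'⟩⟩
      exact Finset.mem_erase.mpr ⟨fun h => hpj (xv_inj.mp h), hh⟩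
    subst hpj
    have hqB : q ∈ Bs := (hBmem q).mpr ⟨h6, hpq, hadj⟩
    obtain ⟨v, hv, hv2⟩ := kd_ne h1
    have h8 := hst2 _ hv2
    have h9 : ∃ a ∈ A', xv a ∉ insert v (T.erase (xv p)) := by
      by_contra hcon
      push Not at hcon
      exact hv2 (hvan2 _ hcon)
    obtain ⟨a, ha, ha2⟩ := h9
    have haA := ((hA'mem a).mp ha)
    have haW := hxA a haA.1
    have haq : G.Adj a q := hAB a haA.1 q hqB
    have halt : a < q := (hA'lt a ha).trans hpq
    have hq2 : yv q ∈ insert v (T.erase (xv p)) := by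
      by_contra hcon
      apply h8
      rw [NS_ind]
      exact ⟨a, q, halt, haq, ⟨haW, ha2⟩, ⟨h6, hcon⟩⟩
    apply hst
    rw [NS_ind]
    refine ⟨a, q, halt, haq, ⟨haW, ?_⟩, ⟨h6, h7'⟩⟩
    intro hh
    apply ha2
    refine Finset.mem_insert_of_mem (Finset.mem_erase.mpr ⟨?_, hh⟩)
    exact fun h => haA.2 (xv_inj.mp h)
  · exact absurd rfl hT

/-- all cocycles lift -/
theorem all_lift (hG : IsClosedLabelling G) (d : ℕ) : ∀ (b : (Fin n ⊕ₗ Fin n) →₀ ℕ) (i : ℕ)
    (lam : Finset (Fin n ⊕ₗ Fin n) → K), b.degree = d → Coc G b i lam → Lift G b i lam := by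
  classical
  induction d using Nat.strong_induction_on with
  | _ d ih =>
    intro b i lam hd h
    by_cases hr : ∃ v, b v ≠ 0 ∧ ∀ T, v ∉ T → ind T ≤ b → NS G (b - ind T) →
        NS G (b - ind T - Finsupp.single v 1)
    · obtain ⟨v, hv, hr⟩ := hr
      exact lift_removable h v hv hr
    · push Not at hr
      have hle : ∀ v, b v ≤ 1 := by
        intro v
        by_contra hcon
        push Not at hcon
        obtain ⟨T, hvT, hT, hns, hnn⟩ := hr v (by omega)
        apply hnn
        obtain ⟨p, q, hpq, hadj, h1, h2⟩ := hns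
        have key : ∀ w, (b - ind T) w ≠ 0 → (b - ind T - Finsupp.single v 1 :
            (Fin n ⊕ₗ Fin n) →₀ ℕ) w ≠ 0 := by
          intro w hw
          rw [Finsupp.tsub_apply, ind_apply] at hw
          rw [Finsupp.tsub_apply, Finsupp.tsub_apply, ind_apply, Finsupp.single_apply]
          by_cases hwv : v = w
          · subst hwv
            rw [if_neg hvT, if_pos rfl]
            omega
          · rw [if_neg hwv]
            exact hw
        exact ⟨p, q, hpq, hadj, key _ h1, key _ h2⟩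
      obtain ⟨W, rfl⟩ : ∃ W, b = ind W := by
        refine ⟨b.support, ?_⟩
        ext v
        rw [ind_apply]
        have := hle v
        split_ifs with hv
        · have := Finsupp.mem_support_iff.mp hv
          omega
        · exact Finsupp.notMem_support_iff.mp hv
      have hmemW : ∀ v, ind W v ≠ 0 ↔ v ∈ W := by
        intro v
        rw [ind_apply]
        by_cases hv : v ∈ W <;> simp [hv]
      -- nonremovable variables
      have hrx : ∀ a, xv a ∈ W → ∃ k, yv k ∈ W ∧ a < k ∧ G.Adj a k := by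
        intro a ha
        obtain ⟨T, hvT, hT, hns, hnn⟩ := hr (xv a) ((hmemW _).mpr ha)
        rw [tsub_tsub, ← ind_insert hvT, NS_ind] at hnn
        rw [NS_ind] at hns
        obtain ⟨p, q, hpq, hadj, ⟨h1, h2⟩, ⟨h3, h4⟩⟩ := hns
        by_cases hpa : p = a
        · subst hpa
          exact ⟨q, h3, hpq, hadj⟩
        · exfalso
          apply hnn
          refine ⟨p, q, hpq, hadj, ⟨h1, ?_⟩, ⟨h3, ?_⟩⟩
          · rw [Finset.mem_insert, not_or]
            exact ⟨fun h => hpa (xv_inj.mp h), h2⟩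
          · rw [Finset.mem_insert, not_or]
            exact ⟨fun h => xv_ne_yv a q h.symm, h4⟩
      have hry : ∀ k, yv k ∈ W → ∃ a, xv a ∈ W ∧ a < k ∧ G.Adj a k := by
        intro a ha
        obtain ⟨T, hvT, hT, hns, hnn⟩ := hr (yv a) ((hmemW _).mpr ha)
        rw [tsub_tsub, ← ind_insert hvT, NS_ind] at hnn
        rw [NS_ind] at hns
        obtain ⟨p, q, hpq, hadj, ⟨h1, h2⟩, ⟨h3, h4⟩⟩ := hns
        by_cases hqa : q = a
        · subst hqa
          exact ⟨p, h1, hpq, hadj⟩
        · exfalso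
          apply hnn
          refine ⟨p, q, hpq, hadj, ⟨h1, ?_⟩, ⟨h3, ?_⟩⟩
          · rw [Finset.mem_insert, not_or]
            exact ⟨fun h => xv_ne_yv p a h, h2⟩
          · rw [Finset.mem_insert, not_or]
            exact ⟨fun h => hqa (yv_inj.mp h), h4⟩
      rcases W.eq_empty_or_nonempty with hW0 | ⟨v, hv⟩
      · -- the base case
        subst hW0
        refine ⟨mk (ind ∅) lam, ?_, ?_, ?_⟩
        · intro T u hu
          rw [mk, coeff_monomial] at hu
          split_ifs at hu with h3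
          · refine ⟨h.card T hu, ?_⟩
            rw [← h3, add_tsub_cancel_of_le (h.supp T hu)]
          · exact absurd rfl hu
        · intro T
          rw [mk_kd h.supp, mk]
          have : kd (fun _ => (1 : K)) lam T = 0 := by
            by_contra hne
            obtain ⟨v, hv, hv2⟩ := kd_ne hne
            have h1 := ind_le_ind.mp (h.supp _ hv2)
            exact absurd (h1 (Finset.mem_insert_self v T)) (Finset.notMem_empty v)
          rw [this, map_zero]
          exact Ideal.zero_mem _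
        · rw [sub_self]
          exact SpQ.zero
      · have hy : ∃ k, yv k ∈ W := by
          rcases var_cases v with ⟨a, rfl⟩ | ⟨k, rfl⟩
          · obtain ⟨k, hk, -⟩ := hrx a hv
            exact ⟨k, hk⟩
          · exact ⟨k, hv⟩
        set Y := univ.filter (fun k : Fin n => yv k ∈ W) with hY
        have hYne : Y.Nonempty := by
          obtain ⟨k, hk⟩ := hy
          exact ⟨k, by rw [hY]; simpa using hk⟩
        have hb0 := Finset.max'_mem Y hYne
        have hb1 : yv (Y.max' hYne) ∈ W := (Finset.mem_filter.mp hb0).2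
        refine lift_sqfree hG h (Y.max' hYne) hb1 ?_ (hry _ hb1) ?_
        · intro k hk
          refine Finset.le_max' Y k ?_
          rw [hY]
          simpa using hk
        · intro b' i' lam' hlt hc
          rw [hd] at hlt
          exact ih _ hlt b' i' lam' rfl hc

end Pool.Agent.TH47.BE
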