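import Mathlib
import Pool.Agent.TH47.BE.Main
import Pool.Agent.TH47.BE.Lin

/-!
Comparison of the graded Betti numbers of `J_G` and its initial ideal.
-/

set_option autoImplicit false
set_option linter.unusedSectionVars false

namespace Pool.Agent.TH47.BE

open Finset MvPolynomial

attribute [local instance 5000] LinearOrder.toDecidableEq

section Pieces

variable {σ : Type*} [Fintype σ] [LinearOrder σ] {K : Type*} [Field K]

open Classical in
/-- the coefficients in multidegree `b` -/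
noncomputable def pc (b : σ →₀ ℕ) (f : Finset σ → MvPolynomial σ K) (T : Finset σ) : K :=
  if ind T ≤ b then coeff (b - ind T) (f T) else 0

lemma pc_supp (b : σ →₀ ℕ) (f : Finset σ → MvPolynomial σ K) : Supp b (pc b f) := by
  intro T hT
  unfold pc at hT
  split_ifs at hT with h
  · exact h
  · exact absurd rfl hT

lemma pc_of_le {b : σ →₀ ℕ} {T : Finset σ} (h : ind T ≤ b) (f : Finset σ → MvPolynomial σ K) :
    pc b f T = coeff (b - ind T) (f T) := if_pos h

lemma pc_add_self (T : Finset σ) (u : σ →₀ ℕ) (f : Finset σ → MvPolynomial σ K) :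
    pc (ind T + u) f T = coeff u (f T) := by
  rw [pc_of_le (le_add_of_nonneg_right zero_le), add_tsub_cancel_left]

lemma coeff_mk {b : σ →₀ ℕ} {l : Finset σ → K} (hl : Supp b l) (T : Finset σ) (u : σ →₀ ℕ) :
    coeff u (mk b l T) = if ind T + u = b then l T else 0 := by
  classical
  rw [mk, coeff_monomial]
  by_cases h : l T = 0
  · rw [h]; simp
  · have h1 := hl T h
    by_cases h2 : ind T + u = b
    · rw [if_pos h2, if_pos]
      rw [← h2, add_tsub_cancel_left]
    · rw [if_neg h2, if_neg]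
      intro h3
      apply h2
      rw [← h3, add_tsub_cancel_of_le h1]

lemma coeff_kd {b : σ →₀ ℕ} {T : Finset σ} (h : ind T ≤ b) (f : Finset σ → MvPolynomial σ K) :
    coeff (b - ind T) (kd (fun v => (X v : MvPolynomial σ K)) f T) =
      kd (fun _ => (1 : K)) (pc b f) T := by
  classical
  unfold kd
  rw [coeff_sum]
  refine Finset.sum_congr rfl fun v hv => ?_
  have hvT : v ∉ T := by simpa using hv
  rw [coeff_sg_mul, one_mul]
  congr 1
  rw [coeff_X_mul']
  have h1 : (v ∈ (b - ind T).support) ↔ ind (insert v T) ≤ b := by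
    rw [Finsupp.mem_support_iff, Finsupp.tsub_apply, ind_apply, if_neg hvT, tsub_zero, ind_le]
    rw [ind_le] at h
    constructor
    · intro h2 w hw
      rcases Finset.mem_insert.mp hw with rfl | hw
      · exact h2
      · exact h w hw
    · intro h2
      exact h2 v (Finset.mem_insert_self _ _)
  by_cases h2 : ind (insert v T) ≤ b
  · rw [if_pos (h1.mpr h2), pc_of_le h2, ind_insert hvT, tsub_tsub]
  · rw [if_neg (fun h3 => h2 (h1.mp h3)), pc, if_neg h2]

lemma mem_chains {i j : ℕ} {f : Finset σ → MvPolynomial σ K} :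
    f ∈ chains K i j ↔ SpQ (fun i' b => i' = i ∧ b.degree = j) f := by
  have key : ∀ (T : Finset σ) (u : σ →₀ ℕ), (ind T + u).degree = T.card + u.degree := by
    intro T u
    rw [map_add, degree_ind]
  constructor
  · intro h T u hu
    obtain ⟨h1, h2⟩ := h T u hu
    exact ⟨h1, by rw [key, h2]⟩
  · intro h T u hu
    obtain ⟨h1, h2⟩ := h T u hu
    exact ⟨h1, by rw [← key, h2]⟩

/-- the multidegrees of total degree `j` -/
noncomputable def Dg (σ : Type*) [Fintype σ] [LinearOrder σ] (j : ℕ) : Finset (σ →₀ ℕ) :=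
  Finset.finsuppAntidiag univ j

lemma mem_Dg {j : ℕ} {b : σ →₀ ℕ} : b ∈ Dg σ j ↔ b.degree = j := by
  unfold Dg
  rw [Finset.mem_finsuppAntidiag]
  constructor
  · rintro ⟨h, -⟩
    rw [← h, Finsupp.degree_eq_sum]
  · intro h
    refine ⟨?_, Finset.subset_univ _⟩
    rw [← h, Finsupp.degree_eq_sum]

lemma mk_mem_chains {i j : ℕ} {b : σ →₀ ℕ} (hb : b.degree = j) {l : Finset σ → K}
    (hl : Supp b l) (hc : CardS i l) : mk b l ∈ chains K i j := by
  rw [mem_chains]
  intro T u hu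
  rw [coeff_mk hl] at hu
  split_ifs at hu with h
  · exact ⟨hc T hu, by rw [h, hb]⟩
  · exact absurd rfl hu

lemma pc_card {i j : ℕ} {f : Finset σ → MvPolynomial σ K} (hf : f ∈ chains K i j)
    (b : σ →₀ ℕ) : CardS i (pc b f) := by
  intro T hT
  unfold pc at hT
  split_ifs at hT with h
  · exact (hf T _ hT).1
  · exact absurd rfl hT

lemma coeff_sum_pc (D : Finset (σ →₀ ℕ)) (f : Finset σ → MvPolynomial σ K) (T : Finset σ)
    (u : σ →₀ ℕ) : coeff u ((∑ b ∈ D, mk b (pc b f)) T) =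
      if ind T + u ∈ D then coeff u (f T) else 0 := by
  classical
  rw [Finset.sum_apply, coeff_sum]
  simp_rw [coeff_mk (pc_supp _ f)]
  rw [Finset.sum_ite_eq D (ind T + u)]
  by_cases h : ind T + u ∈ D
  · rw [if_pos h, if_pos h, pc_add_self]
  · rw [if_neg h, if_neg h]

instance chains_fd (i j : ℕ) :
    FiniteDimensional K (chains K i j : Submodule K (Finset σ → MvPolynomial σ K)) := by
  classical
  let L : (chains K i j : Submodule K (Finset σ → MvPolynomial σ K)) →ₗ[K]
      ((Dg σ j) → Finset σ → K) :=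
    { toFun := fun f b T => pc b.1 f.1 T
      map_add' := by
        intro f g
        funext b T
        simp only [pc, Pi.add_apply, Submodule.coe_add, coeff_add]
        split_ifs <;> simp
      map_smul' := by
        intro a f
        funext b T
        simp only [pc, Pi.smul_apply, Submodule.coe_smul, coeff_smul, RingHom.id_apply]
        split_ifs <;> simp }
  refine Module.Finite.of_injective L ?_
  rw [← LinearMap.ker_eq_bot, LinearMap.ker_eq_bot']
  rintro ⟨f, hf⟩ h
  rw [Submodule.mk_eq_zero]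
  funext T
  ext u
  rw [Pi.zero_apply, coeff_zero]
  by_contra hne
  have h1 := (mem_chains.mp hf T u hne).2
  have h2 := congrFun (congrFun h ⟨ind T + u, mem_Dg.mpr h1⟩) T
  have h3 : pc (ind T + u) f T = 0 := h2
  rw [pc_add_self] at h3
  exact hne h3

end Pieces

variable {n : ℕ} {K : Type*} [Field K]

variable (K) in
/-- the filtration by weight -/
def Fw (w : ℕ) : Submodule K (Finset (Fin n ⊕ₗ Fin n) → MvPolynomial (Fin n ⊕ₗ Fin n) K) where
  carrier := {f | Flt (w : ℤ) f}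
  add_mem' := by
    intro f g hf hg
    exact SpQ.add (Q := fun _ b => ((wt b : ℕ) : ℤ) < w) hf hg
  zero_mem' := SpQ.zero (Q := fun _ b => ((wt b : ℕ) : ℤ) < w)
  smul_mem' := by
    intro a f hf
    exact SpQ.smulK (Q := fun _ b => ((wt b : ℕ) : ℤ) < w) a hf

lemma mem_Fw {w : ℕ} {f : Finset (Fin n ⊕ₗ Fin n) → MvPolynomial (Fin n ⊕ₗ Fin n) K} :
    f ∈ Fw K w ↔ Flt (w : ℤ) f := Iff.rfl

lemma wt_le (b : (Fin n ⊕ₗ Fin n) →₀ ℕ) : wt b ≤ n * b.degree := by
  rw [Finsupp.degree_eq_sum, Finset.mul_sum]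
  unfold wt
  have h1 : ∑ i : Fin n, i.val * b (yv i) ≤ ∑ i : Fin n, n * b (yv i) :=
    Finset.sum_le_sum fun i _ => Nat.mul_le_mul_right _ i.2.le
  refine h1.trans ?_
  have h2 : ∑ i : Fin n, n * b (yv i) = ∑ v ∈ univ.image (yv : Fin n → Fin n ⊕ₗ Fin n), n * b v := by
    rw [Finset.sum_image (fun a _ b _ h => yv_inj.mp h)]
  rw [h2]
  exact Finset.sum_le_sum_of_subset (Finset.subset_univ _)

/-- comparison of two spaces of chains -/
lemma finrank_eq_of_pieces {j : ℕ} (i : ℕ)
    (U U0 : Submodule K (Finset (Fin n ⊕ₗ Fin n) → MvPolynomial (Fin n ⊕ₗ Fin n) K))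
    (hU : U ≤ chains K i j) (hU0 : U0 ≤ chains K i j)
    (ha : ∀ f ∈ U, ∀ b : (Fin n ⊕ₗ Fin n) →₀ ℕ, b.degree = j → Flt (wt b + 1) f →
      mk b (pc b f) ∈ U0)
    (ha0 : ∀ f ∈ U0, ∀ b : (Fin n ⊕ₗ Fin n) →₀ ℕ, b.degree = j → mk b (pc b f) ∈ U0)
    (hb : ∀ (b : (Fin n ⊕ₗ Fin n) →₀ ℕ) (l : Finset (Fin n ⊕ₗ Fin n) → K), b.degree = j →
      Supp b l → mk b l ∈ U0 → ∃ f ∈ U, Flt (wt b) (f - mk b l)) :
    Module.finrank K U = Module.finrank K U0 := by
  classical
  have : FiniteDimensional K U := Submodule.finiteDimensional_of_le hU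
  have : FiniteDimensional K U0 := Submodule.finiteDimensional_of_le hU0
  have hchN : (chains K i j : Submodule K (Finset (Fin n ⊕ₗ Fin n) →
      MvPolynomial (Fin n ⊕ₗ Fin n) K)) ≤ Fw K (n * j + 1) := by
    intro f hf T u hu
    have h1 := (mem_chains.mp hf T u hu).2
    have h2 := wt_le (ind T + u)
    rw [h1] at h2
    push_cast
    have : ((wt (ind T + u) : ℕ) : ℤ) ≤ n * j := by exact_mod_cast h2
    linarith
  -- decomposition modulo lower terms
  have hdec : ∀ (w : ℕ), ∀ f ∈ (chains K i j : Submodule K (Finset (Fin n ⊕ₗ Fin n) →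
      MvPolynomial (Fin n ⊕ₗ Fin n) K)), f ∈ Fw K (w + 1) →
      f - ∑ b ∈ (Dg (Fin n ⊕ₗ Fin n) j).filter (fun b => wt b = w), mk b (pc b f) ∈ Fw K w := by
    intro w f hf hfw T u hu
    rw [Pi.sub_apply, coeff_sub, coeff_sum_pc] at hu
    have hne : coeff u (f T) ≠ 0 := by
      intro h0
      rw [h0] at hu
      simp at hu
    have h1 := (mem_chains.mp hf T u hne).2
    have h2 : ((wt (ind T + u) : ℕ) : ℤ) < ((w + 1 : ℕ) : ℤ) := hfw T u hne
    by_contra hcon
    have h3 : ¬ ((wt (ind T + u) : ℕ) : ℤ) < (w : ℤ) := hcon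
    have h4 : wt (ind T + u) = w := by
      push_cast at h2
      have : ((wt (ind T + u) : ℕ) : ℤ) = w := by linarith
      exact_mod_cast this
    rw [if_pos (Finset.mem_filter.mpr ⟨mem_Dg.mpr h1, h4⟩), sub_self] at hu
    exact hu rfl
  have hmem : ∀ (w : ℕ) (b : (Fin n ⊕ₗ Fin n) →₀ ℕ),
      b ∈ (Dg (Fin n ⊕ₗ Fin n) j).filter (fun b => wt b = w) → b.degree = j ∧ wt b = w := by
    intro w b hb
    rw [Finset.mem_filter, mem_Dg] at hb
    exact hb
  refine finrank_eq_of_filt (Fw K) U U0 (n * j + 1) (hU.trans hchN) (hU0.trans hchN) ?_ ?_ ?_ ?_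
  · rw [eq_bot_iff]
    intro f hf
    rw [Submodule.mem_bot]
    funext T
    ext u
    rw [Pi.zero_apply, coeff_zero]
    by_contra hne
    have h1 : ((wt (ind T + u) : ℕ) : ℤ) < ((0 : ℕ) : ℤ) := hf T u hne
    push_cast at h1
    have h2 : (0 : ℤ) ≤ (wt (ind T + u) : ℕ) := Int.natCast_nonneg _
    linarith
  · intro w f hf
    exact Flt.mono (by push_cast; linarith) hf
  · intro w f hf hfw
    refine ⟨∑ b ∈ (Dg (Fin n ⊕ₗ Fin n) j).filter (fun b => wt b = w), mk b (pc b f), ?_, ?_,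
      hdec w f (hU hf) hfw⟩
    · refine Submodule.sum_mem _ fun b hb' => ?_
      obtain ⟨h1, h2⟩ := hmem w b hb'
      refine ha f hf b h1 ?_
      rw [h2]
      have := mem_Fw.mp hfw
      push_cast at this
      exact this
    · have h1 := Submodule.sub_mem _ hfw
        ((show Fw K w ≤ Fw K (w + 1) from fun f hf => Flt.mono (by push_cast; linarith) hf)
          (hdec w f (hU hf) hfw))
      rwa [sub_sub_cancel] at h1
  · intro w g hg hgw
    have h1 : ∀ b : (Fin n ⊕ₗ Fin n) →₀ ℕ, ∃ f, b ∈ (Dg (Fin n ⊕ₗ Fin n) j).filter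
        (fun b => wt b = w) → f ∈ U ∧ f - mk b (pc b g) ∈ Fw K w := by
      intro b
      by_cases hbm : b ∈ (Dg (Fin n ⊕ₗ Fin n) j).filter (fun b => wt b = w)
      · obtain ⟨h1, h2⟩ := hmem w b hbm
        obtain ⟨f, hf1, hf2⟩ := hb b (pc b g) h1 (pc_supp b g) (ha0 g hg b h1)
        refine ⟨f, fun _ => ⟨hf1, ?_⟩⟩
        rw [h2] at hf2
        exact hf2
      · exact ⟨0, fun h => absurd h hbm⟩
    choose fb hfb using h1
    have h2 : (∑ b ∈ (Dg (Fin n ⊕ₗ Fin n) j).filter (fun b => wt b = w), fb b) - g ∈ Fw K w := by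
      have h3 : ∑ b ∈ (Dg (Fin n ⊕ₗ Fin n) j).filter (fun b => wt b = w),
          (fb b - mk b (pc b g)) ∈ Fw K w :=
        Submodule.sum_mem _ fun b hb' => (hfb b hb').2
      have h4 := Submodule.sub_mem _ h3 (hdec w g (hU0 hg) hgw)
      rw [Finset.sum_sub_distrib] at h4
      have e : ∀ a b c : Finset (Fin n ⊕ₗ Fin n) → MvPolynomial (Fin n ⊕ₗ Fin n) K,
          a - b - (c - b) = a - c := by intro a b c; abel
      rwa [e] at h4
    refine ⟨_, Submodule.sum_mem _ fun b hb' => (hfb b hb').1, ?_, h2⟩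
    have h5 := Submodule.add_mem _
      ((show Fw K w ≤ Fw K (w + 1) from fun f hf => Flt.mono (by push_cast; linarith) hf) h2) hgw
    rwa [sub_add_cancel] at h5

variable {G : SimpleGraph (Fin n)}

/-- tops of elements of `J_G` -/
lemma top_coeff (hG : IsClosedLabelling G)
    {f : Finset (Fin n ⊕ₗ Fin n) → MvPolynomial (Fin n ⊕ₗ Fin n) K} {b : (Fin n ⊕ₗ Fin n) →₀ ℕ}
    (hf : Flt (wt b + 1) f) {T : Finset (Fin n ⊕ₗ Fin n)} (hT : ind T ≤ b) (hmem : f T ∈ JG K G)
    (hne : coeff (b - ind T) (f T) ≠ 0) : NS G (b - ind T) := by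
  refine top_mem hG hmem hne fun u' hu' => ?_
  have h3 : ((wt (ind T + u') : ℕ) : ℤ) < wt b + 1 := hf T u' hu'
  have hwb : wt (ind T + (b - ind T)) = wt b := by rw [add_tsub_cancel_of_le hT]
  rw [wt_add] at h3 hwb
  have h4 : wt (ind T) + wt u' < wt b + 1 := by exact_mod_cast h3
  omega

/-- the spaces of cycles -/
theorem finrank_cycles (hG : IsClosedLabelling G) (i j : ℕ) :
    Module.finrank K (cycles (JG K G) i j) = Module.finrank K (cycles (I0 K G) i j) := by
  have hpiece : ∀ (f : Finset (Fin n ⊕ₗ Fin n) → MvPolynomial (Fin n ⊕ₗ Fin n) K)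
      (b : (Fin n ⊕ₗ Fin n) →₀ ℕ), b.degree = j → f ∈ chains K i j →
      (∀ T, ind T ≤ b → kd (fun _ => (1 : K)) (pc b f) T ≠ 0 → NS G (b - ind T)) →
      mk b (pc b f) ∈ cycles (I0 K G) i j := by
    intro f b hb hf h
    refine mem_cycles.mpr ⟨mk_mem_chains hb (pc_supp b f) (pc_card hf b), fun T => ?_⟩
    rw [koszulD_eq_kd, mk_kd (pc_supp b f), mem_I0]
    intro u hu
    rw [mk, coeff_monomial] at hu
    split_ifs at hu with h1
    · rw [← h1]
      exact h T ((pc_supp b f).kd T hu) hu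
    · exact absurd rfl hu
  refine finrank_eq_of_pieces i _ _ inf_le_left inf_le_left ?_ ?_ ?_
  · intro f hf b hb hfl
    obtain ⟨hf1, hf2⟩ := mem_cycles.mp hf
    refine hpiece f b hb hf1 fun T hT hne => ?_
    rw [← coeff_kd hT] at hne
    exact top_coeff (f := kd (fun v => (X v : MvPolynomial (Fin n ⊕ₗ Fin n) K)) f) hG
      (SpQ.kd (fun _ _ h => h) hfl) hT (hf2 T) hne
  · intro f hf b hb
    obtain ⟨hf1, hf2⟩ := mem_cycles.mp hf
    refine hpiece f b hb hf1 fun T hT hne => ?_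
    rw [← coeff_kd hT] at hne
    exact mem_I0.mp (hf2 T) _ hne
  · intro b l hb hl hmem
    obtain ⟨h1, h2⟩ := mem_cycles.mp hmem
    have hco : ∀ T, l T ≠ 0 → coeff (b - ind T) (mk b l T) ≠ 0 := by
      intro T hT
      rw [mk, coeff_monomial, if_pos rfl]
      exact hT
    have hcoc : Coc G b i l := by
      refine ⟨hl, fun T hT => (h1 T _ (hco T hT)).1, fun T hT hst => ?_⟩
      by_contra hne
      apply hst
      have h3 := h2 T
      rw [koszulD_eq_kd, mk_kd hl, mem_I0] at h3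
      refine h3 _ ?_
      rw [mk, coeff_monomial, if_pos rfl]
      exact hne
    obtain ⟨f, hf1, hf2, hf3⟩ := all_lift hG _ b i l rfl hcoc
    refine ⟨f, mem_cycles.mpr ⟨mem_chains.mpr ?_, hf2⟩, hf3⟩
    rw [hb] at hf1
    exact hf1

/-- the spaces of chains with values in the ideals -/
theorem finrank_valued (hG : IsClosedLabelling G) (i j : ℕ) :
    Module.finrank K (chains K i j ⊓ valued (JG K G) : Submodule K _) =
    Module.finrank K (chains K i j ⊓ valued (I0 K G) : Submodule K _) := by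
  have hpiece : ∀ (f : Finset (Fin n ⊕ₗ Fin n) → MvPolynomial (Fin n ⊕ₗ Fin n) K)
      (b : (Fin n ⊕ₗ Fin n) →₀ ℕ), b.degree = j → f ∈ chains K i j →
      (∀ T, ind T ≤ b → coeff (b - ind T) (f T) ≠ 0 → NS G (b - ind T)) →
      mk b (pc b f) ∈ (chains K i j ⊓ valued (I0 K G) : Submodule K _) := by
    intro f b hb hf h
    refine ⟨mk_mem_chains hb (pc_supp b f) (pc_card hf b), fun T => ?_⟩
    rw [mem_I0]
    intro u hu
    rw [mk, coeff_monomial] at hu
    split_ifs at hu with h1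
    · rw [← h1]
      have hT := pc_supp b f T hu
      rw [pc_of_le hT] at hu
      exact h T hT hu
    · exact absurd rfl hu
  refine finrank_eq_of_pieces i _ _ inf_le_left inf_le_left ?_ ?_ ?_
  · rintro f ⟨hf1, hf2⟩ b hb hfl
    exact hpiece f b hb hf1 fun T hT hne => top_coeff hG hfl hT (hf2 T) hne
  · rintro f ⟨hf1, hf2⟩ b hb
    exact hpiece f b hb hf1 fun T hT hne => mem_I0.mp (hf2 T) _ hne
  · rintro b l hb hl ⟨h1, h2⟩
    have hco : ∀ T, l T ≠ 0 → coeff (b - ind T) (mk b l T) ≠ 0 := by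
      intro T hT
      rw [mk, coeff_monomial, if_pos rfl]
      exact hT
    obtain ⟨f, hf1, hf2, hf3⟩ := lift_ns' (G := G) hl (fun T hT => (h1 T _ (hco T hT)).1)
      (fun T hT => mem_I0.mp (h2 T) _ (hco T hT))
    refine ⟨f, ⟨mem_chains.mpr ?_, hf2⟩, hf3⟩
    rw [hb] at hf1
    exact hf1

/-- **Theorem.** -/
theorem betti_eq (hG : IsClosedLabelling G) (i j : ℕ) :
    betti (JG K G) i j = betti (inIdeal K (JG K G)) i j := by
  rw [inIdeal_JG hG]
  have h1 := betti_formula (JG K G) i j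
  have h2 := betti_formula (I0 K G) i j
  rw [finrank_cycles hG, finrank_cycles hG, finrank_valued hG, ← h2] at h1
  omega

end Pool.Agent.TH47.BE
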