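import Pool.Agent.TH47.BE.Fin

/-!
# Graded Betti numbers of binomial edge ideals of closed graphs

For every field `K`, every `n` and every graph `G` on `n` vertices whose labelling is closed, the
binomial edge ideal `J_G` and its lexicographic initial ideal have the same graded Betti numbers.

Definitions used:
* `xv i`, `yv i` are the variables `x_i`, `y_i`; the index type `Fin n ⊕ₗ Fin n` of the variables is
  ordered `x_1, …, x_n, y_1, …, y_n` (`Pool.Agent.TH47.BE.Std`);
* `IsClosedLabelling G` says that the labelling of `G` is closed (`Pool.Agent.TH47.BE.Std`);
* `JG K G` is the ideal generated by the `x_i y_j - x_j y_i`, `i < j` adjacent, and `inIdeal K I` the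
  ideal generated by the monomials `x^u`, `u` the degree of a nonzero `g ∈ I` for Mathlib's
  lexicographic monomial order `MonomialOrder.lex`, for which the first variable is the largest
  (`Pool.Agent.TH47.BE.Poly`);
* `betti I i j` is the dimension of the Koszul homology `H_i(x, y; S/I)` in internal degree `j`,
  that is `dim_K Tor_i^S(S/I, K)_j = β_{ij}(S/I)` (`Pool.Agent.TH47.BE.Lin`): a Koszul chain assigns
  to every finite set `T` of variables the coefficient of `e_T` (a polynomial), `chains K i j` are
  the combinations of the `x^u e_T` with `#T = i` and `#T + |u| = j`, `koszulD` is the Koszul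
  differential, `cycles I i j` are the chains whose differential has its coefficients in `I`, and
  `boundaries I i j` the chains which are sums of a differential of an element of
  `chains K (i + 1) j` and of a chain with coefficients in `I`.
-/

universe u

namespace Pool.Agent.Results.MP_74c6a9_al.BettiNumbersEqual

open Pool.Agent.TH47.BE

/-- For every field `K`, every graph `G` with a closed labelling and all `i`, `j`,
`β_{ij}(S/J_G) = β_{ij}(S/in_<(J_G))`. -/
theorem result (K : Type u) [Field K] (n : ℕ) (G : SimpleGraph (Fin n))
    (hG : IsClosedLabelling G) (i j : ℕ) :
    betti (JG K G) i j = betti (inIdeal K (JG K G)) i j :=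
  betti_eq hG i j

end Pool.Agent.Results.MP_74c6a9_al.BettiNumbersEqual
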